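import Pool.Agent.Lib_helper55.GCI.Defs

/-!
Generic facts on half trees `Br` and good slots (helper61).
-/

set_option autoImplicit false

namespace Pool.Agent.GCI

open SimpleGraph

variable {V : Type} {k : ℕ} {G : SimpleGraph V}

theorem sym_ne_of_ne {v g h : V} (hh : h ≠ v) : s(g, h) ≠ s(v, g) := by
  intro h1
  rcases Sym2.eq_iff.1 h1 with ⟨h2, h3⟩ | ⟨_, h3⟩
  · exact hh (h3.trans h2)
  · exact hh h3

theorem Br.self (v w : V) : Br G v w w := Br.base

theorem Acyc.ne_of_br (hG : Acyc G) {v w x : V} (h : G.Adj v w) (hx : Br G v w x) : x ≠ v := by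
  rintro rfl
  exact hG _ _ h hx

/-- Only the edge `v w` leaves `Br G v w`. -/
theorem Br.cross {v w x y : V} (hx : Br G v w x) (hy : ¬ Br G v w y) (hxy : G.Adj x y) :
    s(x, y) = s(v, w) := by
  by_contra h
  exact hy (hx.step hxy h)

/-- Only the edge `v w` leaves `Br G v w`, oriented version. -/
theorem Br.cross' (hG : Acyc G) {v w x y : V} (hvw : G.Adj v w) (hx : Br G v w x)
    (hy : ¬ Br G v w y) (hxy : G.Adj x y) : x = w ∧ y = v := by
  rcases Sym2.eq_iff.1 (hx.cross hy hxy) with ⟨h1, _⟩ | h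
  · exact absurd h1 (hG.ne_of_br hvw hx)
  · exact h

/-- An edge lies inside `Br G v w`, outside of it, or is the edge `v w`. -/
theorem edge_cases (v w : V) {x y : V} (hxy : G.Adj x y) :
    (Br G v w x ∧ Br G v w y) ∨ (¬ Br G v w x ∧ ¬ Br G v w y) ∨ s(x, y) = s(v, w) := by
  by_cases hx : Br G v w x
  · by_cases hy : Br G v w y
    · exact Or.inl ⟨hx, hy⟩
    · exact Or.inr (Or.inr (hx.cross hy hxy))
  · by_cases hy : Br G v w y
    · exact Or.inr (Or.inr (by rw [Sym2.eq_swap]; exact hy.cross hx hxy.symm))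
    · exact Or.inr (Or.inl ⟨hx, hy⟩)

/-- Half trees are nested. -/
theorem Br.sub (hG : Acyc G) {v g h x : V} (hvg : G.Adj v g) (hgh : G.Adj g h) (hh : h ≠ v)
    (hx : Br G g h x) : Br G v g x := by
  induction hx with
  | base => exact Br.base.step hgh (sym_ne_of_ne hh)
  | step hx hxy hne ih =>
    rename_i x y
    refine ih.step hxy ?_
    intro h1
    rcases Sym2.eq_iff.1 h1 with ⟨h2, _⟩ | ⟨h2, _⟩
    · exact hG.ne_of_br hvg ih h2
    · exact hG.ne_of_br hgh hx h2

/-- Different branches at a vertex are disjoint. -/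
theorem Br.disj (hG : Acyc G) {v g g' x : V} (hg : G.Adj v g) (hg' : G.Adj v g') (hne : g ≠ g')
    (hx : Br G v g x) : ¬ Br G v g' x := by
  induction hx with
  | base =>
    intro h
    refine hG _ _ hg' (h.step hg.symm ?_)
    intro h1
    rcases Sym2.eq_iff.1 h1 with ⟨h2, h3⟩ | ⟨h2, _⟩
    · exact hg.ne h2.symm
    · exact hne h2
  | step hx hxy hne' ih =>
    rename_i x y
    intro hy
    have h1 : s(y, x) = s(v, g') := hy.cross ih hxy.symm
    rcases Sym2.eq_iff.1 h1 with ⟨h2, _⟩ | ⟨_, h3⟩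
    · exact hG.ne_of_br hg' hy h2
    · exact hG.ne_of_br hg hx h3

/-- Decomposition of a half tree. -/
theorem Br.decomp (hG : Acyc G) {v g x : V} (hx : Br G v g x) :
    x = g ∨ ∃ h, G.Adj g h ∧ h ≠ v ∧ Br G g h x := by
  induction hx with
  | base => exact Or.inl rfl
  | step hx hxy hne ih =>
    rename_i x y
    rcases ih with rfl | ⟨h, h1, h2, h3⟩
    · refine Or.inr ⟨y, hxy, ?_, Br.base⟩
      rintro rfl
      exact hne Sym2.eq_swap
    · by_cases hc : Br G g h y
      · exact Or.inr ⟨h, h1, h2, hc⟩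
      · exact Or.inl (h3.cross' hG h1 hc hxy).2

theorem br_iff (hG : Acyc G) {v g x : V} (hvg : G.Adj v g) :
    Br G v g x ↔ x = g ∨ ∃ h, G.Adj g h ∧ h ≠ v ∧ Br G g h x := by
  constructor
  · exact fun h => h.decomp hG
  · rintro (rfl | ⟨h, h1, h2, h3⟩)
    · exact Br.base
    · exact h3.sub hG hvg h1 h2

/-- An edge inside a half tree `Br G v g`: it is an edge at `g`, or it lies in one of the sub-branches. -/
theorem edge_in_br (hG : Acyc G) {v g x y : V} (hxy : G.Adj x y)
    (hx : Br G v g x) (hy : Br G v g y) (hvg : G.Adj v g) :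
    (∃ h, G.Adj g h ∧ h ≠ v ∧ s(x, y) = s(g, h)) ∨
      ∃ h, G.Adj g h ∧ h ≠ v ∧ Br G g h x ∧ Br G g h y := by
  rcases hx.decomp hG with rfl | ⟨h, h1, h2, h3⟩
  · exact Or.inl ⟨y, hxy, hG.ne_of_br hvg hy, rfl⟩
  · by_cases hc : Br G g h y
    · exact Or.inr ⟨h, h1, h2, h3, hc⟩
    · exact Or.inl ⟨h, h1, h2, h3.cross hc hxy⟩

/-- The two sides of an edge are disjoint. -/
theorem Br.opp (hG : Acyc G) {v w x : V} (hvw : G.Adj v w) (hx : Br G v w x) :
    ¬ Br G w v x := by
  induction hx with
  | base => exact hG _ _ hvw.symm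
  | step hx hxy hne ih =>
    rename_i x y
    intro hy
    have h1 : s(y, x) = s(w, v) := hy.cross ih hxy.symm
    apply hne
    rw [Sym2.eq_swap, h1, Sym2.eq_swap]

/-- A half tree beyond another vertex: if `v'` lies outside `Br v g` and the branch `Br v' g'`
does not contain `v`... the branch `v' → g'` is disjoint from `Br v g` as soon as `g' ∉ Br v g`
and `v ∉ Br v' g'`. -/
theorem Br.disj_of (hG : Acyc G) {v g v' g' x : V} (hvg : G.Adj v g) (hg' : ¬ Br G v g g')
    (hv : ¬ Br G v' g' v) (hx : Br G v' g' x) : ¬ Br G v g x := by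
  induction hx with
  | base => exact hg'
  | step hx hxy hne ih =>
    rename_i x y
    intro hy
    have h1 := hy.cross' hG hvg ih hxy.symm
    exact hv (h1.2 ▸ hx)

/-- All vertices except `v` lie in a branch at `v` (if the graph is connected, this is
reachability); version along a path: a vertex adjacent to a branch vertex is in the branch or is `v`. -/
theorem Br.next {v w x y : V} (hG : Acyc G) (hvw : G.Adj v w) (hx : Br G v w x)
    (hxy : G.Adj x y) : Br G v w y ∨ (x = w ∧ y = v) := by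
  by_cases hy : Br G v w y
  · exact Or.inl hy
  · exact Or.inr (hx.cross' hG hvw hy hxy)

/-! ### slots -/

theorem Slot.adj {c : Sym2 V → Option (Fin k)} {K : ℕ} {v g : V} (h : Slot G c K v g) :
    G.Adj v g := by
  cases K with
  | zero => exact h.1
  | succ K => exact h.1

theorem Slot.unc {c : Sym2 V → Option (Fin k)} {K : ℕ} {v g : V} (h : Slot G c K v g) :
    c s(v, g) = none := by
  cases K with
  | zero => exact h.2
  | succ K => exact h.2.1

theorem Slot.deg {c : Sym2 V → Option (Fin k)} {K : ℕ} {v g : V} (h : Slot G c (K + 1) v g) :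
    Deg4 G g := h.2.2.1

theorem Slot.sub {c : Sym2 V → Option (Fin k)} {K : ℕ} {v g w : V} (h : Slot G c (K + 1) v g)
    (hw : G.Adj g w) (hne : w ≠ v) : Slot G c K g w := h.2.2.2 w hw hne

/-- nothing is coloured at the far end of a good slot -/
theorem Slot.unc_at {c : Sym2 V → Option (Fin k)} {K : ℕ} {v g w : V}
    (h : Slot G c (K + 1) v g) (hw : G.Adj g w) : c s(g, w) = none := by
  by_cases hne : w = v
  · rw [hne, Sym2.eq_swap]; exact h.unc
  · exact (h.sub hw hne).unc

theorem Slot.of_succ {c : Sym2 V → Option (Fin k)} {K : ℕ} :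
    ∀ {v g : V}, Slot G c (K + 1) v g → Slot G c K v g := by
  induction K with
  | zero => intro v g h; exact ⟨h.1, h.2.1⟩
  | succ K ih =>
    intro v g h
    exact ⟨h.1, h.2.1, h.2.2.1, fun w hw hne => ih (h.2.2.2 w hw hne)⟩

theorem Slot.mono {c : Sym2 V → Option (Fin k)} {K K' : ℕ} (hK : K ≤ K') {v g : V}
    (h : Slot G c K' v g) : Slot G c K v g := by
  induction hK with
  | refl => exact h
  | step hm ih => exact ih h.of_succ

/-- A slot depends only on the edges with an end in its branch. -/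
theorem Slot.congr (hG : Acyc G) {c c' : Sym2 V → Option (Fin k)} {K : ℕ} :
    ∀ {v g : V}, Slot G c K v g →
      (∀ x y, G.Adj x y → Br G v g x → c' s(x, y) = c s(x, y)) → Slot G c' K v g := by
  induction K with
  | zero =>
    intro v g h hc
    refine ⟨h.1, ?_⟩
    have := hc g v h.1.symm Br.base
    rw [Sym2.eq_swap, this, Sym2.eq_swap]
    exact h.2
  | succ K ih =>
    intro v g h hc
    refine ⟨h.1, ?_, h.2.2.1, ?_⟩
    · have := hc g v h.1.symm Br.base
      rw [Sym2.eq_swap, this, Sym2.eq_swap]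
      exact h.2.1
    · intro w hw hne
      refine ih (h.2.2.2 w hw hne) ?_
      intro x y hxy hx
      exact hc x y hxy (hx.sub hG h.1 hw hne)

/-- Colouring an edge without end in the branch preserves a slot. -/
theorem Slot.update [DecidableEq V] (hG : Acyc G) {c : Sym2 V → Option (Fin k)} {K : ℕ} {v g : V}
    (h : Slot G c K v g) {x y : V} (hx : ¬ Br G v g x) (hy : ¬ Br G v g y)
    (a : Option (Fin k)) : Slot G (Function.update c s(x, y) a) K v g := by
  refine h.congr hG ?_
  intro p q _ hp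
  rw [Function.update_of_ne]
  intro he
  rcases Sym2.eq_iff.1 he with ⟨h1, _⟩ | ⟨h1, _⟩
  · exact hx (h1 ▸ hp)
  · exact hy (h1 ▸ hp)

/-- An edge whose end `x` is outside the branch and which is not the edge `v g` preserves the slot. -/
theorem Slot.update' [DecidableEq V] (hG : Acyc G) {c : Sym2 V → Option (Fin k)} {K : ℕ} {v g : V}
    (h : Slot G c K v g) {x y : V} (hxy : G.Adj x y) (hx : ¬ Br G v g x) (hne : s(x, y) ≠ s(v, g))
    (a : Option (Fin k)) : Slot G (Function.update c s(x, y) a) K v g := by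
  refine h.update hG hx ?_ a
  intro hy
  apply hne
  rw [Sym2.eq_swap]
  exact hy.cross hx hxy.symm

/-! ### degree four -/

/-- four distinct neighbours, as a function on `Fin 4` -/
theorem Deg4.exists_fun {v : V} (h : Deg4 G v) :
    ∃ n : Fin 4 → V, Function.Injective n ∧ (∀ i, G.Adj v (n i)) ∧ ∀ w, G.Adj v w → ∃ i, w = n i := by
  obtain ⟨l, hnd, hlen, hl⟩ := h
  refine ⟨fun i => l.get (i.cast hlen.symm), ?_, ?_, ?_⟩
  · intro i j hij
    exact Fin.cast_injective _ ((List.nodup_iff_injective_get.1 hnd) hij)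
  · intro i
    exact (hl _).1 (List.get_mem _ _)
  · intro w hw
    obtain ⟨i, hi⟩ := List.get_of_mem ((hl w).2 hw)
    exact ⟨i.cast hlen, by simp [← hi]⟩

/-- the three other neighbours -/
theorem Deg4.others {g v : V} (h : Deg4 G g) (hv : G.Adj g v) :
    ∃ n : Fin 3 → V, Function.Injective n ∧ (∀ i, G.Adj g (n i)) ∧ (∀ i, n i ≠ v) ∧
      ∀ w, G.Adj g w → w = v ∨ ∃ i, w = n i := by
  obtain ⟨n, h1, h2, h3⟩ := h.exists_fun
  obtain ⟨i, hi⟩ := h3 v hv
  refine ⟨fun j => n (i.succAbove j), ?_, fun j => h2 _, ?_, ?_⟩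
  · exact h1.comp Fin.succAbove_right_injective
  · intro j hj
    rw [hi] at hj
    exact Fin.succAbove_ne i j (h1 hj)
  · intro w hw
    obtain ⟨j, hj⟩ := h3 w hw
    by_cases hij : j = i
    · left; rw [hj, hi, hij]
    · right
      obtain ⟨l, hl⟩ := Fin.exists_succAbove_eq hij
      exact ⟨l, by simp only [hl]; exact hj⟩

/-! ### acyclic graphs -/

theorem acyc_of_isAcyclic (h : G.IsAcyclic) : Acyc G := by
  intro v w hvw hbr
  rw [isAcyclic_iff_forall_adj_isBridge] at h
  have h1 := h hvw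
  rw [isBridge_iff] at h1
  apply h1
  have key : ∀ x, Br G v w x → (G.deleteEdges {s(v, w)}).Reachable w x := by
    intro x hx
    induction hx with
    | base => exact Reachable.refl _
    | step hx hxy hne ih =>
      refine ih.trans (Adj.reachable ?_)
      rw [deleteEdges_adj]
      exact ⟨hxy, fun h => hne (by simpa using h)⟩
  exact (key v hbr).symm

end Pool.Agent.GCI
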