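import Pool.Agent.Lib_helper55.GCI.CutB
import Pool.Agent.Lib_helper55.GCI.BrFacts
/-!
# Alice's moves: the rule `A_sound` (helper39)
-/
set_option autoImplicit false

namespace Pool.Agent.GCI
namespace AR

open CutB

variable {V : Type}

/-- `WClaim` with a given depth. -/
def WC (k : ℕ) (P : Pt) (K : ℕ) : Prop :=
  ∀ (V : Type) [Finite V] [DecidableEq V] (G : SimpleGraph V) (c : Sym2 V → Option (Fin k))
    (π : Equiv.Perm (Fin k)) (φ : ℕ → V) (s : ℕ → ℕ → V),
    Acyc G → ¬ Even (cnt G c) → Match G c π K P φ s → Lost G c

theorem wc_eventually {k : ℕ} {P : Pt} (h : WClaim k P) : ∀ᶠ K in Filter.atTop, WC k P K := by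
  obtain ⟨K, hK⟩ := h
  rw [Filter.eventually_atTop]
  exact ⟨K, fun K' hK' V _ _ G c π φ s hG hc M => hK V G c π φ s hG hc (match_mono hK' M)⟩

theorem ev_lt {n : ℕ} {p : ℕ → ℕ → Prop} (h : ∀ i < n, ∀ᶠ K in Filter.atTop, p i K) :
    ∀ᶠ K in Filter.atTop, ∀ i < n, p i K := by
  have := (Filter.eventually_all_finset (Finset.range n) (l := Filter.atTop) (p := fun i K => p i K)).2
    (fun i hi => h i (Finset.mem_range.1 hi))
  filter_upwards [this] with K hK i hi
  exact hK i (Finset.mem_range.2 hi)

theorem ev_imp {q : Prop} {p : ℕ → Prop} (h : q → ∀ᶠ K in Filter.atTop, p K) :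
    ∀ᶠ K in Filter.atTop, (q → p K) := by
  by_cases hq : q
  · filter_upwards [h hq] with K hK _
    exact hK
  · exact Filter.Eventually.of_forall fun K hq' => absurd hq' hq

/-- Expand the slot `t` of node `i`; the slots of the new node are `g' 0, g' 1, g' 2`. -/
theorem match_expand_at {G : SimpleGraph V} (hG : Acyc G) {k : ℕ} {c : Sym2 V → Option (Fin k)}
    {π : Equiv.Perm (Fin k)} {K : ℕ} {P : Pt} {φ : ℕ → V} {s : ℕ → ℕ → V} (M : Match G c π (K + 1) P φ s)
    {i t : ℕ} (hi : i < P.n) (ht : t < P.m i) (g' : ℕ → V)
    (hg' : ∀ u < 3, G.Adj (s i t) (g' u) ∧ g' u ≠ φ i) (hinj : ∀ u < 3, ∀ v < 3, g' u = g' v → u = v) :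
    Match G c π K (expand P i) (fun j => if j = P.n then s i t else φ j)
      (fun j u => if j = P.n then g' u else s j (if j = i ∧ u = t then P.m i - 1 else u)) := by
  have hs := M.slot i hi t ht
  have hadj : G.Adj (φ i) (s i t) := hs.adj
  have hin : i ≠ P.n := hi.ne
  have key : ∀ j < P.n + 1, j ≠ P.n → j < P.n := fun j hj hjn => by omega
  have hself : Br G (φ i) (s i t) (s i t) := Br.base
  -- the renumbering of the old slots
  have hτ : ∀ j < P.n, ∀ u, u < (expand P i).m j →
      (if j = i ∧ u = t then P.m i - 1 else u) < P.m j ∧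
      (j = i → (if j = i ∧ u = t then P.m i - 1 else u) ≠ t) := by
    intro j hj u hu
    simp only [expand, if_neg hj.ne] at hu
    split_ifs at hu with hji
    · subst hji
      by_cases hut : u = t
      · simp only [hut, and_self, if_true]
        constructor
        · omega
        · intro _; omega
      · simp only [hut, and_false, if_false]
        constructor
        · omega
        · intro _ h; exact hut h
    · simp only [hji, false_and, if_false]
      exact ⟨hu, fun h => h.elim⟩
  have hτinj : ∀ j < P.n, ∀ u, u < (expand P i).m j → ∀ u', u' < (expand P i).m j → u ≠ u' →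
      (if j = i ∧ u = t then P.m i - 1 else u) ≠ (if j = i ∧ u' = t then P.m i - 1 else u') := by
    intro j hj u hu u' hu' hne
    simp only [expand, if_neg hj.ne] at hu hu'
    split_ifs at hu hu' with hji
    · subst hji
      by_cases hut : u = t
      · by_cases hut' : u' = t
        · exact absurd (hut.trans hut'.symm) hne
        · simp only [hut, hut', and_self, and_false, if_true, if_false]
          omega
      · by_cases hut' : u' = t
        · simp only [hut, hut', and_self, and_false, if_true, if_false]
          omega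
        · simp only [hut, hut', and_false, if_false]
          exact hne
    · simp only [hji, false_and, if_false]
      exact hne
  refine
  { inj := ?_
    deg := ?_
    edge := ?_
    colR := ?_
    colF := ?_
    slot := ?_
    away := ?_
    disj := ?_ }
  · intro a ha b hb hab
    simp only [expand] at ha hb
    by_cases han : a = P.n
    · by_cases hbn : b = P.n
      · rw [han, hbn]
      · simp only [han, hbn, if_true, if_false] at hab
        exact absurd (hab ▸ hself) (M.away i hi t ht b (key b hb hbn))
    · by_cases hbn : b = P.n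
      · simp only [han, hbn, if_true, if_false] at hab
        exact absurd (hab.symm ▸ hself) (M.away i hi t ht a (key a ha han))
      · simp only [han, hbn, if_false] at hab
        exact M.inj a (key a ha han) b (key b hb hbn) hab
  · intro a ha
    simp only [expand] at ha
    by_cases han : a = P.n
    · simp only [han, if_true]
      exact hs.deg
    · simp only [han, if_false]
      exact M.deg a (key a ha han)
  · intro a ha hpa
    simp only [expand] at ha hpa ⊢
    by_cases han : a = P.n
    · simp only [han, if_true, if_neg hin]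
      exact ⟨by omega, hadj, hs.unc⟩
    · simp only [han, if_false] at hpa ⊢
      obtain ⟨h1, h2, h3⟩ := M.edge a (key a ha han) hpa
      rw [if_neg h1.ne]
      exact ⟨by omega, h2, h3⟩
  · intro a ha b hb
    simp only [expand] at ha hb
    by_cases han : a = P.n
    · simp [han] at hb
    · simp only [han, if_false] at hb ⊢
      exact M.colR a (key a ha han) b hb
  · intro a ha b hb w hw
    simp only [expand] at ha hb
    by_cases han : a = P.n
    · simp only [han, if_true] at hw ⊢
      rw [hs.unc_at hw]
      simp
    · simp only [han, if_false] at hb hw ⊢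
      exact M.colF a (key a ha han) b hb w hw
  · intro a ha u hu
    simp only [show (expand P i).n = P.n + 1 from rfl] at ha
    by_cases han : a = P.n
    · simp only [han, if_true]
      have hu3 : u < 3 := by
        have := hu
        simp only [expand, han, if_true] at this
        exact this
      exact hs.sub (hg' u hu3).1 (hg' u hu3).2
    · simp only [han, if_false]
      exact (M.slot a (key a ha han) _ (hτ a (key a ha han) u hu).1).of_succ
  · intro a ha u hu b hb
    simp only [show (expand P i).n = P.n + 1 from rfl] at ha hb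
    by_cases han : a = P.n
    · have hu3 : u < 3 := by
        have := hu
        simp only [expand, han, if_true] at this
        exact this
      simp only [han, if_true]
      by_cases hbn : b = P.n
      · simp only [hbn, if_true]
        exact hG _ _ (hg' u hu3).1
      · simp only [hbn, if_false]
        intro hbr
        exact M.away i hi t ht b (key b hb hbn) (hbr.sub hG hadj (hg' u hu3).1 (hg' u hu3).2)
    · simp only [han, if_false]
      have han' := key a ha han
      obtain ⟨h1, h2⟩ := hτ a han' u hu
      by_cases hbn : b = P.n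
      · simp only [hbn, if_true]
        intro hbr
        refine M.disj a han' _ h1 i hi t ht ?_ _ ⟨hbr, hself⟩
        by_cases hai : a = i
        · exact Or.inr (h2 hai)
        · exact Or.inl hai
      · simp only [hbn, if_false]
        exact M.away a han' _ h1 b (key b hb hbn)
  · intro a ha u hu b hb v hv hne x hx
    simp only [show (expand P i).n = P.n + 1 from rfl] at ha hb
    -- a branch of the new node against a branch of an old node
    have hnew : ∀ u < 3, ∀ b < P.n, ∀ v, v < (expand P i).m b →
        ¬ (Br G (s i t) (g' u) x ∧ Br G (φ b) (s b (if b = i ∧ v = t then P.m i - 1 else v)) x) := by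
      rintro u hu3 b hb' v hv' ⟨h1, h2⟩
      obtain ⟨h3, h4⟩ := hτ b hb' v hv'
      refine M.disj b hb' _ h3 i hi t ht ?_ _ ⟨h2, h1.sub hG hadj (hg' u hu3).1 (hg' u hu3).2⟩
      by_cases hbi : b = i
      · exact Or.inr (h4 hbi)
      · exact Or.inl hbi
    by_cases han : a = P.n
    · have hu3 : u < 3 := by
        have := hu
        simp only [expand, han, if_true] at this
        exact this
      by_cases hbn : b = P.n
      · have hv3 : v < 3 := by
          have := hv
          simp only [expand, hbn, if_true] at this
          exact this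
        simp only [han, hbn, if_true] at hx
        have huv : u ≠ v := by
          rcases hne with hne | hne
          · exact absurd (han.trans hbn.symm) hne
          · exact hne
        exact Br.disj hG (hg' u hu3).1 (hg' v hv3).1 (fun h => huv (hinj u hu3 v hv3 h)) hx.1 hx.2
      · simp only [han, hbn, if_true, if_false] at hx
        exact hnew u hu3 b (key b hb hbn) v hv hx
    · by_cases hbn : b = P.n
      · have hv3 : v < 3 := by
          have := hv
          simp only [expand, hbn, if_true] at this
          exact this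
        simp only [han, hbn, if_true, if_false] at hx
        exact hnew v hv3 a (key a ha han) u hu ⟨hx.2, hx.1⟩
      · simp only [han, hbn, if_false] at hx
        refine M.disj a (key a ha han) _ (hτ a (key a ha han) u hu).1 b (key b hb hbn) _
          (hτ b (key b hb hbn) v hv).1 ?_ x hx
        by_cases hab : a = b
        · subst hab
          right
          refine hτinj a (key a ha han) u hu v hv ?_
          rcases hne with hne | hne
          · exact absurd rfl hne
          · exact hne
        · exact Or.inl hab

/-- forget one slot -/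
theorem match_drop1 {G : SimpleGraph V} {k : ℕ} {c : Sym2 V → Option (Fin k)}
    {π : Equiv.Perm (Fin k)} {K : ℕ} {P : Pt} {φ : ℕ → V} {s : ℕ → ℕ → V} (M : Match G c π K P φ s) (i : ℕ) :
    Match G c π K (drop1 P i) φ s := by
  have hm : ∀ j t, t < (drop1 P i).m j → t < P.m j := by
    intro j t ht
    simp only [drop1] at ht
    split_ifs at ht with h
    · subst h; omega
    · exact ht
  exact
  { inj := M.inj
    deg := M.deg
    edge := M.edge
    colR := M.colR
    colF := M.colF
    slot := fun j hj t ht => M.slot j hj t (hm j t ht)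
    away := fun j hj t ht => M.away j hj t (hm j t ht)
    disj := fun j hj t ht l hl u hu => M.disj j hj t (hm j t ht) l hl u (hm l u hu) }

/-- An unspecified edge at node `i` is coloured. -/
theorem match_touch {G : SimpleGraph V} [DecidableEq V] (hG : Acyc G) {k : ℕ} {c : Sym2 V → Option (Fin k)}
    {π : Equiv.Perm (Fin k)} {K : ℕ} {P : Pt} {φ : ℕ → V} {s : ℕ → ℕ → V} (M : Match G c π K P φ s)
    {i : ℕ} (hi : i < P.n) {w : V} (hw : G.Adj (φ i) w) (hn : c s(φ i, w) = none) (a : Fin k)
    (h1 : ∀ j < P.n, φ j ≠ w) (h2 : ∀ j < P.n, ∀ t < P.m j, ¬ Br G (φ j) (s j t) w) :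
    Match G (Function.update c s(φ i, w) (some (π a))) π K (touch P i a) φ s := by
  have keyF : ∀ j < P.n, ∀ w', s(φ j, w') = s(φ i, w) → j = i := by
    intro j hj w' hh
    rw [Sym2.eq_iff] at hh
    rcases hh with ⟨hh, _⟩ | ⟨hh, _⟩
    · exact M.inj _ hj _ hi hh
    · exact absurd hh (h1 j hj)
  refine
  { inj := M.inj
    deg := M.deg
    edge := ?_
    colR := ?_
    colF := ?_
    slot := ?_
    away := M.away
    disj := M.disj }
  · intro j hj hpj
    obtain ⟨a1, a2, a3⟩ := M.edge j hj hpj
    refine ⟨a1, a2, ?_⟩
    rw [Function.update_of_ne]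
    · exact a3
    · intro hh
      rw [Sym2.eq_iff] at hh
      rcases hh with ⟨_, hh⟩ | ⟨hh, _⟩
      · exact h1 j hj hh
      · exact h1 _ a1 hh
  · intro j hj b hb
    simp only [touch, Bool.or_eq_true, Bool.and_eq_true, beq_iff_eq] at hb hj
    rcases hb with hb | ⟨hj2, hb⟩
    · obtain ⟨w', hw', hc⟩ := M.colR j hj b hb
      refine ⟨w', hw', ?_⟩
      rw [Function.update_of_ne, hc]
      intro hh
      rw [hh, hn] at hc
      exact absurd hc (by simp)
    · have hb' : b = a := Fin.ext hb
      subst hb'
      subst hj2
      exact ⟨w, hw, by rw [Function.update_self]⟩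
  · intro j hj b hb w' hw'
    simp only [touch, Bool.and_eq_true, Bool.not_eq_true', Bool.and_eq_false_iff,
      beq_eq_false_iff_ne] at hb hj
    by_cases hh : s(φ j, w') = s(φ i, w)
    · rw [hh, Function.update_self]
      have hji := keyF j hj w' hh
      rcases hb.2 with hb2 | hb2
      · exact absurd hji hb2
      · intro hab
        have : π a = π b := by simpa using hab
        exact hb2 (by rw [π.injective this])
    · rw [Function.update_of_ne hh]
      exact M.colF j hj b hb.1 w' hw'
  · intro j hj t ht
    refine (M.slot j hj t ht).update hG (M.away j hj t ht i hi) (h2 j hj t ht) _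

/-- the touched pattern is stronger than `P` if nothing was required to be absent -/
theorem match_of_touch {G : SimpleGraph V} {k : ℕ} {c : Sym2 V → Option (Fin k)}
    {π : Equiv.Perm (Fin k)} {K : ℕ} {P : Pt} {φ : ℕ → V} {s : ℕ → ℕ → V} {i : ℕ} {a : Fin k}
    (M : Match G c π K (touch P i a) φ s) (hF : P.F i a = false) : Match G c π K P φ s := by
  refine
  { inj := M.inj
    deg := M.deg
    edge := M.edge
    colR := ?_
    colF := ?_
    slot := M.slot
    away := M.away
    disj := M.disj }
  · intro j hj b hb
    exact M.colR j hj b (by simp [touch, hb])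
  · intro j hj b hb
    refine M.colF j hj b ?_
    simp only [touch, Bool.and_eq_true, hb, true_and, Bool.not_eq_true', Bool.and_eq_false_iff,
      beq_eq_false_iff_ne]
    by_contra hcon
    push Not at hcon
    obtain ⟨h1, h2⟩ := hcon
    subst h1
    have : b = a := Fin.ext h2
    subst this
    rw [hb] at hF
    exact absurd hF (by simp)

/-- the nodes of a connected pattern lie on one side of an edge which is not a pattern edge -/
theorem tree_side' {G : SimpleGraph V} {k : ℕ} {c : Sym2 V → Option (Fin k)}
    {π : Equiv.Perm (Fin k)} {K : ℕ} {P : Pt} {φ : ℕ → V} {s : ℕ → ℕ → V} (M : Match G c π K P φ s)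
    (T : IsTreeP P) {v w : V} (hne : ∀ i < P.n, 0 < i → s(φ (P.par i), φ i) ≠ s(v, w)) :
    ∀ i < P.n, (Br G v w (φ i) ↔ Br G v w (φ 0)) := by
  intro i
  induction i using Nat.strong_induction_on with
  | _ i ih =>
    intro hi
    rcases Nat.eq_zero_or_pos i with h0 | h0
    · rw [h0]
    · have hlt := T.2.2 i hi h0
      obtain ⟨a1, a2, a3⟩ := M.edge i hi hlt.ne
      rw [← ih _ hlt a1]
      exact (same_side a2 (hne i hi h0)).symm

/-- two adjacent nodes are joined by a pattern edge -/
theorem node_edge {G : SimpleGraph V} (hG : Acyc G) {k : ℕ} {c : Sym2 V → Option (Fin k)}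
    {π : Equiv.Perm (Fin k)} {K : ℕ} {P : Pt} {φ : ℕ → V} {s : ℕ → ℕ → V} (M : Match G c π K P φ s)
    (T : IsTreeP P) {i j : ℕ} (hi : i < P.n) (hj : j < P.n) (hij : G.Adj (φ i) (φ j)) :
    ∃ l < P.n, 0 < l ∧ s(φ (P.par l), φ l) = s(φ i, φ j) := by
  by_contra hcon
  push Not at hcon
  have h := tree_side' M T (v := φ i) (w := φ j) hcon
  have h1 := (h j hj).1 Br.base
  exact hG _ _ hij ((h i hi).2 h1)

theorem par_par {P : Pt} (T : IsTreeP P) {l : ℕ} (hl : l < P.n) (h0 : 0 < l) : P.par (P.par l) ≠ l := by
  have h1 := T.2.2 l hl h0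
  rcases Nat.eq_zero_or_pos (P.par l) with h | h
  · rw [h, T.2.1]; omega
  · have := T.2.2 _ (h1.trans hl) h
    omega

/-- capacity -/
theorem capacity {G : SimpleGraph V} {k : ℕ} {c : Sym2 V → Option (Fin k)}
    {π : Equiv.Perm (Fin k)} {K : ℕ} {P : Pt} {φ : ℕ → V} {s : ℕ → ℕ → V} (M : Match G c π K P φ s)
    (T : IsTreeP P) {i : ℕ} (hi : i < P.n) {y : V} (hy : G.Adj (φ i) y) (hn : c s(φ i, y) = none)
    (h1 : ∀ j < P.n, φ j ≠ y) (h2 : ∀ j < P.n, ∀ t < P.m j, ¬ Br G (φ j) (s j t) y) :
    cntR k P i + degP P i + P.m i < 4 := by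
  classical
  obtain ⟨l, hnd, hlen, hl⟩ := M.deg i hi
  -- witnesses for the colours
  have hwit : ∀ a : ℕ, ∃ w : V, ∀ (ha : a < k), P.R i a = true → G.Adj (φ i) w ∧ c s(φ i, w) = some (π ⟨a, ha⟩) := by
    intro a
    by_cases ha : a < k
    · by_cases hR : P.R i a = true
      · obtain ⟨w, hw⟩ := M.colR i hi ⟨a, ha⟩ hR
        exact ⟨w, fun _ _ => hw⟩
      · exact ⟨y, fun _ h => absurd h hR⟩
    · exact ⟨y, fun h _ => absurd h ha⟩
  choose wit hwit using hwit
  let LR := ((List.range k).filter (fun a => P.R i a)).map wit
  let LD1 := if P.par i = i then [] else [φ (P.par i)]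
  let LD2 := ((List.range P.n).filter (fun j => P.par j = i ∧ j ≠ i)).map φ
  let LM := (List.range (P.m i)).map (s i)
  have memR : ∀ x ∈ LR, G.Adj (φ i) x ∧ c s(φ i, x) ≠ none := by
    intro x hx
    simp only [LR, List.mem_map, List.mem_filter, List.mem_range] at hx
    obtain ⟨a, ⟨ha, hR⟩, rfl⟩ := hx
    obtain ⟨b1, b2⟩ := hwit a ha hR
    exact ⟨b1, by rw [b2]; simp⟩
  have memD1 : ∀ x ∈ LD1, P.par i ≠ i ∧ x = φ (P.par i) := by
    intro x hx
    simp only [LD1] at hx
    split_ifs at hx with h
    · simp at hx
    · exact ⟨h, by simpa using hx⟩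
  have memD2 : ∀ x ∈ LD2, ∃ j < P.n, P.par j = i ∧ j ≠ i ∧ x = φ j := by
    intro x hx
    simp only [LD2, List.mem_map, List.mem_filter, List.mem_range, decide_eq_true_eq] at hx
    obtain ⟨j, ⟨hj, h3, h4⟩, rfl⟩ := hx
    exact ⟨j, hj, h3, h4, rfl⟩
  have memM : ∀ x ∈ LM, ∃ t < P.m i, x = s i t := by
    intro x hx
    simp only [LM, List.mem_map, List.mem_range] at hx
    obtain ⟨t, ht, rfl⟩ := hx
    exact ⟨t, ht, rfl⟩
  have ndR : LR.Nodup := by
    refine List.Nodup.map_on ?_ (List.Nodup.filter _ List.nodup_range)
    intro a ha b hb hab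
    simp only [List.mem_filter, List.mem_range] at ha hb
    have e1 := (hwit a ha.1 ha.2).2
    have e2 := (hwit b hb.1 hb.2).2
    rw [hab, e2] at e1
    have := π.injective (Option.some.inj e1)
    exact (by simpa using this.symm)
  have ndD1 : LD1.Nodup := by
    simp only [LD1]
    split_ifs <;> simp
  have ndD2 : LD2.Nodup := by
    refine List.Nodup.map_on ?_ (List.Nodup.filter _ List.nodup_range)
    intro a ha b hb hab
    simp only [List.mem_filter, List.mem_range] at ha hb
    exact M.inj _ ha.1 _ hb.1 hab
  have ndM : LM.Nodup := by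
    refine List.Nodup.map_on ?_ List.nodup_range
    intro a ha b hb hab
    simp only [List.mem_range] at ha hb
    by_contra hne
    refine M.disj i hi a ha i hi b hb (Or.inr hne) (s i a) ⟨Br.base, ?_⟩
    rw [hab]; exact Br.base
  have par_lt : P.par i ≠ i → P.par i < P.n := fun h => (M.edge i hi h).1
  -- the big list
  have nd : (LR ++ (LD1 ++ (LD2 ++ (LM ++ [y])))).Nodup := by
    rw [List.nodup_append']
    refine ⟨ndR, ?_, ?_⟩
    · rw [List.nodup_append']
      refine ⟨ndD1, ?_, ?_⟩
      · rw [List.nodup_append']
        refine ⟨ndD2, ?_, ?_⟩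
        · rw [List.nodup_append']
          refine ⟨ndM, by simp, ?_⟩
          intro x hx hx2
          obtain ⟨t, ht, rfl⟩ := memM x hx
          rw [List.mem_singleton] at hx2
          exact h2 i hi t ht (hx2 ▸ Br.base)
        · intro x hx hx2
          obtain ⟨j, hj, h3, h4, rfl⟩ := memD2 x hx
          rw [List.mem_append, List.mem_singleton] at hx2
          rcases hx2 with hx2 | hx2
          · obtain ⟨t, ht, h5⟩ := memM _ hx2
            exact M.away i hi t ht j hj (h5 ▸ Br.base)
          · exact h1 j hj hx2
      · intro x hx hx2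
        obtain ⟨h3, rfl⟩ := memD1 x hx
        rw [List.mem_append, List.mem_append, List.mem_singleton] at hx2
        rcases hx2 with hx2 | hx2 | hx2
        · obtain ⟨j, hj, h4, h5, h6⟩ := memD2 _ hx2
          have h7 := M.inj _ (par_lt h3) _ hj h6
          have h8 : P.par (P.par i) = i := by rw [h7]; exact h4
          have h9 : 0 < i := by
            rcases Nat.eq_zero_or_pos i with h | h
            · subst h; exact absurd T.2.1 h3
            · exact h
          exact par_par T hi h9 h8
        · obtain ⟨t, ht, h5⟩ := memM _ hx2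
          exact M.away i hi t ht _ (par_lt h3) (h5 ▸ Br.base)
        · exact h1 _ (par_lt h3) hx2
    · intro x hx hx2
      have hcol := (memR x hx).2
      simp only [List.mem_append, List.mem_singleton] at hx2
      rcases hx2 with hx2 | hx2 | hx2 | hx2
      · obtain ⟨h3, rfl⟩ := memD1 x hx2
        refine hcol ?_
        rw [Sym2.eq_swap]
        exact (M.edge i hi h3).2.2
      · obtain ⟨j, hj, h4, h5, rfl⟩ := memD2 x hx2
        refine hcol ?_
        have := (M.edge j hj (by rw [h4]; exact fun h => h5 h.symm)).2.2
        rw [h4] at this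
        exact this
      · obtain ⟨t, ht, rfl⟩ := memM x hx2
        exact hcol (M.slot i hi t ht).unc
      · exact hcol (hx2 ▸ hn)
  have sub : (LR ++ (LD1 ++ (LD2 ++ (LM ++ [y])))) ⊆ l := by
    intro x hx
    rw [hl]
    simp only [List.mem_append, List.mem_singleton] at hx
    rcases hx with hx | hx | hx | hx | hx
    · exact (memR x hx).1
    · obtain ⟨h3, rfl⟩ := memD1 x hx
      exact (M.edge i hi h3).2.1.symm
    · obtain ⟨j, hj, h4, h5, rfl⟩ := memD2 x hx
      have := (M.edge j hj (by rw [h4]; exact fun h => h5 h.symm)).2.1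
      rw [h4] at this
      exact this
    · obtain ⟨t, ht, rfl⟩ := memM x hx
      exact (M.slot i hi t ht).adj
    · exact hx ▸ hy
  have hle := (List.subperm_of_subset nd sub).length_le
  rw [hlen] at hle
  simp only [List.length_append, List.length_singleton] at hle
  have e1 : LR.length = cntR k P i := by
    simp only [LR, List.length_map, cntR, List.countP_eq_length_filter]
  have e2 : LD1.length + LD2.length = degP P i := by
    simp only [LD1, LD2, List.length_map, degP, List.countP_eq_length_filter]
    congr 1
    split_ifs <;> rfl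
  have e3 : LM.length = P.m i := by simp [LM]
  omega

/-- if `P.R i a = true`, no edge at `φ i` can receive colour `π a` -/
theorem R_false_of_adm {G : SimpleGraph V} {k : ℕ} {c : Sym2 V → Option (Fin k)}
    {π : Equiv.Perm (Fin k)} {K : ℕ} {P : Pt} {φ : ℕ → V} {s : ℕ → ℕ → V} (M : Match G c π K P φ s)
    {i : ℕ} (hi : i < P.n) {e : Sym2 V} (hie : φ i ∈ e) (hn : c e = none) (a : Fin k)
    (hadm : Adm G c e (π a)) : P.R i a = false := by
  by_contra hcon
  rw [Bool.not_eq_false] at hcon
  obtain ⟨w, hw, hc⟩ := M.colR i hi a hcon
  refine hadm s(φ i, w) hw ?_ ⟨φ i, hie, Sym2.mem_mk_left _ _⟩ hc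
  rintro rfl
  rw [hn] at hc
  exact absurd hc (by simp)

/-- three distinct neighbours other than `v`, the last one prescribed -/
theorem three_others {G : SimpleGraph V} {g v h : V} (hd : Deg4 G g) (hv : G.Adj g v) (hh : G.Adj g h)
    (hne : h ≠ v) : ∃ n : ℕ → V, n 2 = h ∧ (∀ u < 3, G.Adj g (n u) ∧ n u ≠ v) ∧
      ∀ u < 3, ∀ w < 3, n u = n w → u = w := by
  obtain ⟨f, h1, h2, h3, h4⟩ := hd.others hv
  rcases h4 h hh with h5 | ⟨i, hi⟩
  · exact absurd h5 hne
  · let σ : Equiv.Perm (Fin 3) := Equiv.swap i 2
    refine ⟨fun u => if hu : u < 3 then f (σ ⟨u, hu⟩) else v, ?_, ?_, ?_⟩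
    · have : (⟨2, by norm_num⟩ : Fin 3) = 2 := rfl
      simp only [show (2 : ℕ) < 3 by norm_num, dite_true, this, σ, Equiv.swap_apply_right]
      exact hi.symm
    · intro u hu
      simp only [hu, dite_true]
      exact ⟨h2 _, h3 _⟩
    · intro u hu w hw huw
      simp only [hu, hw, dite_true] at huw
      have := σ.injective (h1 huw)
      simpa using this

end AR

open CutB AR in
/-- Alice to move. `pass`: her move does not touch `P`; `A1`: she colours an edge of `P`; `A2`: an unspecified edge at
node `i`; `A3`: a good slot edge of node `i`; `A4`: an edge next to a good slot edge; `A5`: an edge deeper in a good slot. -/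
theorem A_sound' {k : ℕ} {P : Pt} (T : IsTreeP P) (hne : 1 < P.n ∨ 0 < P.m 0)
    (pass : WClaim k P)
    (A1 : ∀ i < P.n, 0 < i → ∀ a < k, P.R i a = false → P.R (P.par i) a = false → WClaim k (cut P i a))
    (A2 : ∀ i < P.n, cntR k P i + degP P i + P.m i < 4 → ∀ a < k, P.F i a = true → WClaim k (touch P i a))
    (A3 : ∀ i < P.n, 0 < P.m i → ∀ a < k, P.R i a = false → WClaim k (cut (expand P i) P.n a))
    (A4 : ∀ i < P.n, 0 < P.m i → ∀ a < k, WClaim k (touch (drop1 (expand P i) P.n) P.n a))
    (A5 : ∀ i < P.n, 0 < P.m i → WClaim k (drop1 (expand P i) P.n)) : AClaim k P := by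
  -- a common depth
  have B0 := wc_eventually pass
  have B1 : ∀ᶠ K in Filter.atTop, ∀ i < P.n, 0 < i → ∀ a < k, P.R i a = false → P.R (P.par i) a = false →
      WC k (cut P i a) K :=
    ev_lt fun i hi => ev_imp fun h0 => ev_lt fun a ha => ev_imp fun h1 => ev_imp fun h2 =>
      wc_eventually (A1 i hi h0 a ha h1 h2)
  have B2 : ∀ᶠ K in Filter.atTop, ∀ i < P.n, cntR k P i + degP P i + P.m i < 4 → ∀ a < k, P.F i a = true →
      WC k (touch P i a) K :=
    ev_lt fun i hi => ev_imp fun h0 => ev_lt fun a ha => ev_imp fun h1 => wc_eventually (A2 i hi h0 a ha h1)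
  have B3 : ∀ᶠ K in Filter.atTop, ∀ i < P.n, 0 < P.m i → ∀ a < k, P.R i a = false →
      WC k (cut (expand P i) P.n a) K :=
    ev_lt fun i hi => ev_imp fun h0 => ev_lt fun a ha => ev_imp fun h1 => wc_eventually (A3 i hi h0 a ha h1)
  have B4 : ∀ᶠ K in Filter.atTop, ∀ i < P.n, 0 < P.m i → ∀ a < k,
      WC k (touch (drop1 (expand P i) P.n) P.n a) K :=
    ev_lt fun i hi => ev_imp fun h0 => ev_lt fun a ha => wc_eventually (A4 i hi h0 a ha)
  have B5 : ∀ᶠ K in Filter.atTop, ∀ i < P.n, 0 < P.m i → WC k (drop1 (expand P i) P.n) K :=
    ev_lt fun i hi => ev_imp fun h0 => wc_eventually (A5 i hi h0)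
  obtain ⟨K, C0, C1, C2, C3, C4, C5⟩ :=
    (B0.and (B1.and (B2.and (B3.and (B4.and B5))))).exists
  refine ⟨K + 1, fun V _ _ G c π φ s hG hc M' => ?_⟩
  have M := match_mono (Nat.le_succ K) M'
  refine alice hc (exists_uncol M T hne) ?_
  intro e he b hn hadm
  have hodd : ¬ Even (cnt G (Function.update c e (some b))) := by
    rw [cnt_upd he hn, Nat.even_add_one]
    simpa using hc
  obtain ⟨a, rfl⟩ : ∃ a, b = π a := ⟨π.symm b, by simp⟩
  -- reduce to an oriented edge
  by_cases hbr : ∃ i < P.n, ∃ t < P.m i, ∃ z, z ∈ e ∧ Br G (φ i) (s i t) z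
  · -- the move is in a slot branch
    obtain ⟨i, hi, t, ht, z, hze, hz⟩ := hbr
    have hs := M'.slot i hi t ht
    have hadj : G.Adj (φ i) (s i t) := hs.adj
    by_cases hslot : e = s(φ i, s i t)
    · -- the slot edge itself
      subst hslot
      obtain ⟨g', -, hg1, hg2⟩ := three_others (h := hs.deg.others hadj.symm |>.choose 0) hs.deg hadj.symm
        ((hs.deg.others hadj.symm).choose_spec.2.1 0) ((hs.deg.others hadj.symm).choose_spec.2.2.1 0)
      have ME := match_expand_at hG M' hi ht g' hg1 hg2
      have hpar : (expand P i).par P.n = i := by simp [expand]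
      have hpar' : (expand P i).par i = P.par i := by simp [expand, hi.ne]
      have MC := match_cut hG ME (i := P.n) a (by simp [expand]) (by rw [hpar]; exact hi.ne)
        (by
          rw [hpar, hpar']
          rcases Nat.eq_zero_or_pos i with h | h
          · subst h; rw [T.2.1]; exact hi.ne
          · exact ((T.2.2 i hi h).trans hi).ne)
      rw [hpar] at MC
      simp only [if_true, if_neg hi.ne] at MC
      exact C3 i hi (by omega) a a.2 (R_false_of_adm M hi (Sym2.mem_mk_left _ _) hn a hadm) V G _ π _ _ hG hodd MC
    · -- below the slot edge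
      have hxy : ∃ x y, e = s(x, y) ∧ G.Adj x y ∧ Br G (φ i) (s i t) x ∧ Br G (φ i) (s i t) y := by
        obtain ⟨w, rfl⟩ := Sym2.mem_iff_exists.mp hze
        refine ⟨z, w, rfl, he, hz, ?_⟩
        by_contra hcon
        exact hslot (hz.cross hcon he)
      obtain ⟨x, y, rfl, hxy, hx, hy⟩ := hxy
      rcases edge_in_br hG hxy hx hy hadj with ⟨h, h1, h2, h3⟩ | ⟨h, h1, h2, h3, h4⟩
      · -- an edge at the new node
        rw [h3] at hn hodd hadm ⊢
        obtain ⟨g', hg0, hg1, hg2⟩ := three_others hs.deg hadj.symm h1 h2
        have ME := match_expand_at hG M' hi ht g' hg1 hg2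
        have MD := match_drop1 ME P.n
        have hn' : P.n < (drop1 (expand P i) P.n).n := by simp [drop1, expand]
        have MT := match_touch hG MD hn' (w := h) (by simpa using h1) (by simpa using hn) a ?_ ?_
        · simp only [if_true] at MT
          exact C4 i hi (by omega) a a.2 V G _ π _ _ hG hodd MT
        · intro j hj hjh
          have := ME.away P.n (by simp [expand]) 2 (by simp [expand]) j hj
          apply this
          simp only [if_true, hg0]
          rw [hjh]
          exact Br.base
        · intro j hj u hu hbr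
          have hj' : j < (expand P i).n := hj
          have hu' : u < (expand P i).m j := by
            simp only [drop1] at hu
            split_ifs at hu with hh
            · subst hh; omega
            · exact hu
          have := ME.disj P.n (by simp [expand]) 2 (by simp [expand]) j hj' u hu' ?_ h
          · apply this
            refine ⟨?_, hbr⟩
            simp only [if_true, hg0]
            exact Br.base
          · by_cases hjn : P.n = j
            · right
              intro h2u
              subst hjn
              subst h2u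
              simp [drop1, expand] at hu
            · exact Or.inl hjn
      · -- deeper
        obtain ⟨g', hg0, hg1, hg2⟩ := three_others hs.deg hadj.symm h1 h2
        have ME := match_expand_at hG M' hi ht g' hg1 hg2
        have MD := match_drop1 ME P.n
        have aux1 : ∀ j < (expand P i).n, ∀ x, Br G (s i t) h x → (if j = P.n then s i t else φ j) ≠ x := by
          intro j hj x hx hjx
          have := ME.away P.n (by simp [expand]) 2 (by simp [expand]) j hj
          apply this
          simp only [if_true, hg0]
          rw [hjx]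
          exact hx
        have aux2 : ∀ j < (expand P i).n, ∀ u, u < (drop1 (expand P i) P.n).m j → ∀ x, Br G (s i t) h x →
            ¬ Br G ((fun j => if j = P.n then s i t else φ j) j)
              ((fun j u => if j = P.n then g' u else s j (if j = i ∧ u = t then P.m i - 1 else u)) j u) x := by
          intro j hj u hu x hx hbr
          have hu' : u < (expand P i).m j := by
            simp only [drop1] at hu
            split_ifs at hu with hh
            · subst hh; omega
            · exact hu
          have := ME.disj P.n (by simp [expand]) 2 (by simp [expand]) j hj u hu' ?_ x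
          · apply this
            refine ⟨?_, hbr⟩
            simp only [if_true, hg0]
            exact hx
          · by_cases hjn : P.n = j
            · right
              intro h2u
              subst hjn
              subst h2u
              simp [drop1, expand] at hu
            · exact Or.inl hjn
        have MU := match_update hG MD (x := x) (y := y) (b := π a) hn
          (fun j hj => ⟨aux1 j hj x h3, aux1 j hj y h4⟩)
          (fun j hj u hu => ⟨aux2 j hj u hu x h3, aux2 j hj u hu y h4⟩)
        exact C5 i hi (by omega) V G _ π _ _ hG hodd MU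
  · -- no end of the edge is in a slot branch
    push Not at hbr
    by_cases hnode : ∃ i < P.n, φ i ∈ e
    · obtain ⟨i, hi, hie⟩ := hnode
      obtain ⟨w, rfl⟩ := Sym2.mem_iff_exists.mp hie
      have hw : G.Adj (φ i) w := he
      by_cases hw2 : ∃ j < P.n, φ j = w
      · -- a pattern edge
        obtain ⟨j, hj, rfl⟩ := hw2
        obtain ⟨l, hl, h0, hle⟩ := node_edge hG M T hi hj hw
        rw [← hle] at hn hodd hadm ⊢
        have hpl := (T.2.2 l hl h0)
        exact C1 l hl h0 a a.2 (R_false_of_adm M hl (Sym2.mem_mk_right _ _) hn a hadm)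
          (R_false_of_adm M (hpl.trans hl) (Sym2.mem_mk_left _ _) hn a hadm) V G _ π φ s hG hodd
          (match_cut hG M a hl hpl.ne (par_par T hl h0))
      · push Not at hw2
        have h2 : ∀ j < P.n, ∀ t < P.m j, ¬ Br G (φ j) (s j t) w :=
          fun j hj t ht => hbr j hj t ht w (Sym2.mem_mk_right _ _)
        have MT := match_touch hG M hi hw hn a hw2 h2
        by_cases hF : P.F i a = true
        · exact C2 i hi (capacity M T hi hw hn hw2 h2) a a.2 hF V G _ π φ s hG hodd MT
        · exact C0 V G _ π φ s hG hodd (match_of_touch MT (by simpa using hF))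
    · push Not at hnode
      induction e using Sym2.ind with
      | _ x y =>
        refine C0 V G _ π φ s hG hodd (match_update hG M hn ?_ ?_)
        · intro i hi
          refine ⟨fun h => hnode i hi (by rw [h]; exact Sym2.mem_mk_left _ _),
            fun h => hnode i hi (by rw [h]; exact Sym2.mem_mk_right _ _)⟩
        · intro i hi t ht
          exact ⟨hbr i hi t ht x (Sym2.mem_mk_left _ _), hbr i hi t ht y (Sym2.mem_mk_right _ _)⟩

end Pool.Agent.GCI
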