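import Pool.Agent.Lib_helper55.GCI.Defs

/-!
Game lemmas L1-L5 (helper61): moves, dead edge, few colours.
-/

set_option autoImplicit false

namespace Pool.Agent.GCI

open SimpleGraph

variable {V : Type} {k : ℕ}

/-- every position of a closed set can be played to the end -/
theorem ends [Finite V] [DecidableEq V] {G : SimpleGraph V}
    {S : Set (Sym2 V → Option (Fin k))} (hS : Good G S) :
    ∀ n : ℕ, ∀ c ∈ S, Set.ncard {e | e ∈ G.edgeSet ∧ c e = none} = n →
      ∃ c' ∈ S, (∀ e ∈ G.edgeSet, c' e ≠ none) ∧ (∀ e, c e ≠ none → c' e = c e) ∧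
        (∀ e ∈ G.edgeSet, c e = none → ∀ f ∈ G.edgeSet, f ≠ e →
          (∃ v, v ∈ e ∧ v ∈ f) → c' f ≠ c' e) := by
  intro n
  induction n with
  | zero =>
    intro c hc hn
    have hfin : {e | e ∈ G.edgeSet ∧ c e = none}.Finite := Set.toFinite _
    rw [Set.ncard_eq_zero hfin] at hn
    have h1 : ∀ e ∈ G.edgeSet, c e ≠ none := by
      intro e he h
      have : e ∈ ({e | e ∈ G.edgeSet ∧ c e = none} : Set (Sym2 V)) := ⟨he, h⟩
      rw [hn] at this
      exact this
    exact ⟨c, hc, h1, fun e _ => rfl, fun e he h => absurd h (h1 e he)⟩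
  | succ n ih =>
    intro c hc hn
    -- there is a legal move leading into `S`
    have hmove : ∃ e ∈ G.edgeSet, ∃ a : Fin k, c e = none ∧ Adm G c e a ∧
        Function.update c e (some a) ∈ S := by
      obtain ⟨hA, hB, hC⟩ := hS c hc
      have hex : ∃ e ∈ G.edgeSet, ∃ a : Fin k, c e = none ∧ Adm G c e a := by
        by_contra hno
        push Not at hno
        have h2 := hA (fun e he a hce => hno e he a hce)
        have hne : ({e | e ∈ G.edgeSet ∧ c e = none} : Set (Sym2 V)).Nonempty := by
          rw [← Set.ncard_pos (Set.toFinite _)]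
          omega
        obtain ⟨e, he, hce⟩ := hne
        exact h2 e he hce
      by_cases hev : Even (Set.ncard {e | e ∈ G.edgeSet ∧ c e ≠ none})
      · exact hB hev hex
      · obtain ⟨e, he, a, hce, hl⟩ := hex
        exact ⟨e, he, a, hce, hl, hC hev e he a hce hl⟩
    obtain ⟨e, he, a, hce, hl, hin⟩ := hmove
    have hcard : Set.ncard {f | f ∈ G.edgeSet ∧ Function.update c e (some a) f = none} = n := by
      have : {f | f ∈ G.edgeSet ∧ c f = none}
          = insert e {f | f ∈ G.edgeSet ∧ Function.update c e (some a) f = none} := by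
        ext f
        by_cases hf : f = e
        · subst hf; simp [he, hce]
        · simp [hf]
      rw [this, Set.ncard_insert_of_notMem (by simp) (Set.toFinite _)] at hn
      omega
    obtain ⟨c', hc', h1, h2, h3⟩ := ih _ hin hcard
    have hce' : c' e = some a := by
      have := h2 e (by simp)
      simpa using this
    refine ⟨c', hc', h1, ?_, ?_⟩
    · intro f hf
      have hfe : f ≠ e := by rintro rfl; exact hf hce
      have := h2 f (by rw [Function.update_of_ne hfe]; exact hf)
      rw [this, Function.update_of_ne hfe]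
    · intro f hf hcf g hg hgf hadj
      by_cases hfe : f = e
      · subst hfe
        rw [hce']
        by_cases hcg : c g = none
        · have := h3 g hg (by rw [Function.update_of_ne hgf]; exact hcg) f hf hgf.symm
            (by obtain ⟨v, h4, h5⟩ := hadj; exact ⟨v, h5, h4⟩)
          rw [hce'] at this
          exact fun h => this h.symm
        · have h5 := h2 g (by rw [Function.update_of_ne hgf]; exact hcg)
          rw [h5, Function.update_of_ne hgf]
          exact hl g hg hgf hadj
      · exact h3 f hf (by rw [Function.update_of_ne hfe]; exact hcf) g hg hgf hadj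

/-- colours seen at a vertex -/
def seen (G : SimpleGraph V) (c : Sym2 V → Option (Fin k)) (v : V) : Set (Fin k) :=
  {a | ∃ x, G.Adj v x ∧ c s(v, x) = some a}

/-- admissibility of an uncoloured edge in terms of the colours seen at its ends -/
theorem adm_iff {G : SimpleGraph V} {c : Sym2 V → Option (Fin k)} {u v : V}
    (hn : c s(u, v) = none) (a : Fin k) :
    Adm G c s(u, v) a ↔ a ∉ seen G c u ∧ a ∉ seen G c v := by
  constructor
  · intro h
    constructor
    · rintro ⟨x, hx, hc⟩
      refine h s(u, x) hx ?_ ⟨u, by simp, by simp⟩ hc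
      intro he
      rw [he, hn] at hc
      exact absurd hc (by simp)
    · rintro ⟨x, hx, hc⟩
      refine h s(v, x) hx ?_ ⟨v, by simp, by simp⟩ hc
      intro he
      rw [he, hn] at hc
      exact absurd hc (by simp)
  · rintro ⟨h1, h2⟩ f hf hne ⟨w, hw, hwf⟩ hc
    obtain ⟨x, rfl⟩ := Sym2.mem_iff_exists.1 hwf
    rcases Sym2.mem_iff.1 hw with rfl | rfl
    · exact h1 ⟨x, hf, hc⟩
    · exact h2 ⟨x, hf, hc⟩

/-- colours seen after colouring the uncoloured edge `u v` -/
theorem seen_update [DecidableEq V] {G : SimpleGraph V} {c : Sym2 V → Option (Fin k)} {u v : V}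
    (hadj : G.Adj u v) (hn : c s(u, v) = none) (a : Fin k) (w : V) :
    seen G (Function.update c s(u, v) (some a)) w =
      if w = u ∨ w = v then insert a (seen G c w) else seen G c w := by
  have key : ∀ p q : V, s(p, q) = s(u, v) ∨ s(p, q) = s(v, u) → G.Adj p q →
      seen G (Function.update c s(u, v) (some a)) p = insert a (seen G c p) := by
    intro p q hpq hadj
    have hpq : s(p, q) = s(u, v) := by
      rcases hpq with h | h
      · exact h
      · rw [h, Sym2.eq_swap]
    ext b
    constructor
    · rintro ⟨x, hx, hb⟩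
      by_cases h : s(p, x) = s(u, v)
      · rw [h, Function.update_self] at hb
        left
        exact (Option.some_injective _ hb).symm
      · rw [Function.update_of_ne h] at hb
        exact Or.inr ⟨x, hx, hb⟩
    · rintro (rfl | ⟨x, hx, hb⟩)
      · exact ⟨q, hadj, by rw [hpq, Function.update_self]⟩
      · refine ⟨x, hx, ?_⟩
        rw [Function.update_of_ne]
        · exact hb
        · intro h
          rw [h, hn] at hb
          exact absurd hb (by simp)
  split_ifs with h
  · rcases h with rfl | rfl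
    · exact key w v (Or.inl rfl) hadj
    · exact key w u (Or.inr rfl) hadj.symm
  · push Not at h
    ext b
    constructor
    · rintro ⟨x, hx, hb⟩
      refine ⟨x, hx, ?_⟩
      rw [Function.update_of_ne] at hb
      · exact hb
      · intro h2
        rcases Sym2.eq_iff.1 h2 with ⟨h3, _⟩ | ⟨h3, _⟩
        · exact h.1 h3
        · exact h.2 h3
    · rintro ⟨x, hx, hb⟩
      refine ⟨x, hx, ?_⟩
      rw [Function.update_of_ne]
      · exact hb
      · intro h2
        rcases Sym2.eq_iff.1 h2 with ⟨h3, _⟩ | ⟨h3, _⟩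
        · exact h.1 h3
        · exact h.2 h3

/-- L3: an uncoloured edge which admits no colour. -/
theorem lost_dead [Finite V] [DecidableEq V] {G : SimpleGraph V}
    {c : Sym2 V → Option (Fin k)} {e : Sym2 V} (he : e ∈ G.edgeSet) (hn : c e = none)
    (hd : ∀ a : Fin k, ∃ f ∈ G.edgeSet, f ≠ e ∧ (∃ v, v ∈ e ∧ v ∈ f) ∧ c f = some a) :
    Lost G c := by
  intro S hS hc
  obtain ⟨c', hc', h1, h2, h3⟩ := ends hS _ c hc rfl
  obtain ⟨a, ha⟩ := Option.ne_none_iff_exists'.1 (h1 e he)
  obtain ⟨f, hf, hfe, hadj, hcf⟩ := hd a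
  refine h3 e he hn f hf hfe hadj ?_
  rw [h2 f (by rw [hcf]; simp), hcf, ha]

/-- L3, version with seen colours. -/
theorem lost_dead' [Finite V] [DecidableEq V] {G : SimpleGraph V}
    {c : Sym2 V → Option (Fin k)} {u v : V} (hadj : G.Adj u v) (hn : c s(u, v) = none)
    (hd : ∀ a : Fin k, a ∈ seen G c u ∨ a ∈ seen G c v) : Lost G c := by
  refine lost_dead (e := s(u, v)) hadj hn ?_
  have key : ∀ p, p ∈ s(u, v) → ∀ a, a ∈ seen G c p →
      ∃ f ∈ G.edgeSet, f ≠ s(u, v) ∧ (∃ w, w ∈ s(u, v) ∧ w ∈ f) ∧ c f = some a := by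
    rintro p hp a ⟨x, hx, hb⟩
    refine ⟨s(p, x), hx, ?_, ⟨p, hp, by simp⟩, hb⟩
    intro h
    rw [h, hn] at hb
    exact absurd hb (by simp)
  intro a
  rcases hd a with h | h
  · exact key u (by simp) a h
  · exact key v (by simp) a h

/-- L4 -/
theorem cnt_update [Finite V] [DecidableEq V] {G : SimpleGraph V}
    {c : Sym2 V → Option (Fin k)} {e : Sym2 V} (he : e ∈ G.edgeSet) (hn : c e = none)
    (a : Fin k) : cnt G (Function.update c e (some a)) = cnt G c + 1 := by
  unfold cnt
  have : {f | f ∈ G.edgeSet ∧ Function.update c e (some a) f ≠ none}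
      = insert e {f | f ∈ G.edgeSet ∧ c f ≠ none} := by
    ext f
    by_cases hf : f = e
    · subst hf; simp [he]
    · simp [hf]
  rw [this, Set.ncard_insert_of_notMem (by simp [hn]) (Set.toFinite _)]

/-- the empty position -/
theorem cnt_none (G : SimpleGraph V) : cnt G (fun _ => none : Sym2 V → Option (Fin k)) = 0 := by
  unfold cnt; simp

theorem even_cnt_update [Finite V] [DecidableEq V] {G : SimpleGraph V}
    {c : Sym2 V → Option (Fin k)} {e : Sym2 V} (he : e ∈ G.edgeSet) (hn : c e = none)
    (a : Fin k) : Even (cnt G (Function.update c e (some a))) ↔ ¬ Even (cnt G c) := by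
  rw [cnt_update he hn, Nat.even_add_one]

/-- L1: Bob to move. -/
theorem lost_of_bob [DecidableEq V] {G : SimpleGraph V}
    {c : Sym2 V → Option (Fin k)} (hodd : ¬ Even (cnt G c)) {e : Sym2 V}
    (he : e ∈ G.edgeSet) (hn : c e = none) {a : Fin k} (hl : Adm G c e a)
    (hw : Lost G (Function.update c e (some a))) : Lost G c := by
  intro S hS hc
  exact hw S hS ((hS c hc).2.2 hodd e he a hn hl)

/-- L2: Alice to move. -/
theorem lost_of_alice [DecidableEq V] {G : SimpleGraph V}
    {c : Sym2 V → Option (Fin k)} (heven : Even (cnt G c))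
    (hex : ∃ e ∈ G.edgeSet, c e = none)
    (hw : ∀ e ∈ G.edgeSet, ∀ a : Fin k, c e = none → Adm G c e a →
      Lost G (Function.update c e (some a))) : Lost G c := by
  intro S hS hc
  obtain ⟨hA, hB, _⟩ := hS c hc
  by_cases hm : ∃ e ∈ G.edgeSet, ∃ a : Fin k, c e = none ∧ Adm G c e a
  · obtain ⟨e, he, a, hn, hl, hin⟩ := hB heven hm
    exact hw e he a hn hl S hS hin
  · push Not at hm
    obtain ⟨e, he, hce⟩ := hex
    exact hA (fun e he a hce => hm e he a hce) e he hce

/-- L5, with an explicit family of neighbours -/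
theorem lost_few' [Finite V] [DecidableEq V] {G : SimpleGraph V} (hk : k ≤ 3)
    {u : V} {n : Fin 4 → V} (hinj : Function.Injective n) (hadj : ∀ i, G.Adj u (n i)) :
    Lost G (fun _ => none : Sym2 V → Option (Fin k)) := by
  intro S hS hc
  obtain ⟨c', hc', h1, _, h3⟩ := ends hS _ _ hc rfl
  have hex : ∀ i, ∃ a, c' s(u, n i) = some a := fun i =>
    Option.ne_none_iff_exists'.1 (h1 _ (hadj i))
  choose g hg using hex
  have hgi : Function.Injective g := by
    intro i j hij
    by_contra hne
    have hne2 : s(u, n j) ≠ s(u, n i) := by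
      intro h
      rcases Sym2.eq_iff.1 h with ⟨_, h4⟩ | ⟨h4, h5⟩
      · exact hne (hinj h4.symm)
      · exact (hadj i).ne h4
    refine h3 s(u, n i) (hadj i) rfl s(u, n j) (hadj j) hne2 ⟨u, by simp, by simp⟩ ?_
    rw [hg, hg, hij]
  have := Fintype.card_le_of_injective g hgi
  simp at this
  omega

/-- L5: fewer than four colours. -/
theorem lost_few [Finite V] [DecidableEq V] {G : SimpleGraph V} (hk : k ≤ 3)
    (h4 : ∃ v, Deg4 G v) : Lost G (fun _ => none : Sym2 V → Option (Fin k)) := by
  obtain ⟨u, l, hnd, hlen, hl⟩ := h4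
  refine lost_few' hk (u := u) (n := fun i => l.get (i.cast hlen.symm)) ?_ ?_
  · intro i j hij
    have := (List.nodup_iff_injective_get.1 hnd) hij
    exact Fin.cast_injective _ this
  · intro i
    exact (hl _).1 (List.get_mem _ _)

end Pool.Agent.GCI
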