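import Pool.Agent.Lib_helper55.GCI.T61Ball
import Pool.Agent.Lib_helper55.GCI.T61Four

/-!
Two far apart sites in the ball of radius `R ≥ 10`; Bob wins with at most four colours.
-/

set_option autoImplicit false

namespace Pool.Agent.Lib_helper61.Gci

open SimpleGraph

/-- adjacency of words -/
def WAdj (u v : Word) : Prop := ∃ i, u.nb i = v

instance : DecidableRel WAdj := fun u v => inferInstanceAs (Decidable (∃ i, u.nb i = v))

/-- the second neighbours -/
def Word.sm (b : Word) (i : Fin 4) (j : Fin 3) : Word := (b.nb i).nb (i.succAbove j)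

theorem Word.sm_len (b : Word) (i : Fin 4) (j : Fin 3) : (b.sm i j).len ≤ b.len + 2 := by
  have h1 := Word.len_nb_le b i
  have h2 := Word.len_nb_le (b.nb i) (i.succAbove j)
  unfold Word.sm
  omega

/-- The list of words of a site. -/
def siteList (b : Word) : List Word :=
  b :: ((List.finRange 4).map b.nb ++
    (List.finRange 4).flatMap (fun i => (List.finRange 3).map (b.sm i)))

/-- word level site conditions -/
def SiteW (b : Word) : Prop :=
  (∀ i j, (b.nb i).nb (i.succAbove j) = b.sm i j) ∧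
  (∀ i, Function.Injective (b.sm i)) ∧
  (∀ i j l, ¬ WAdj (b.sm i j) (b.sm i l)) ∧
  (∀ i j, b.sm i j ≠ b) ∧
  (∀ i j, i ≠ j → b.nb i ≠ b.nb j ∧ (∀ l, b.nb i ≠ b.sm j l) ∧ (∀ l, b.sm i l ≠ b.nb j) ∧
    (∀ l l', b.sm i l ≠ b.sm j l') ∧ ¬ WAdj (b.nb i) (b.nb j) ∧
    (∀ l, ¬ WAdj (b.nb i) (b.sm j l)) ∧ (∀ l, ¬ WAdj (b.sm i l) (b.nb j)) ∧
    (∀ l l', ¬ WAdj (b.sm i l) (b.sm j l')))

instance (b : Word) : Decidable (SiteW b) := by
  unfold SiteW
  unfold Function.Injective
  infer_instance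

/-- the far word -/
def far : Word := ⟨[0, 1, 0, 1, 0, 1, 0, 1], by decide⟩

theorem siteW_one : SiteW Word.one := by decide +kernel

theorem siteW_far : SiteW far := by decide +kernel

theorem far_sep : ∀ p ∈ siteList Word.one, ∀ q ∈ siteList far, p ≠ q ∧ ¬ WAdj p q := by
  decide +kernel

variable {R : ℕ}

/-- the site in the ball, neighbours -/
def bn (b : Word) (hb : b.len + 2 ≤ R) (i : Fin 4) : Ball R :=
  ⟨b.nb i, by have := Word.len_nb_le b i; omega⟩

/-- the site in the ball, second neighbours -/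
def bm (b : Word) (hb : b.len + 2 ≤ R) (i : Fin 4) (j : Fin 3) : Ball R :=
  ⟨b.sm i j, by have := Word.sm_len b i j; omega⟩

theorem site_of (b : Word) (hb : b.len + 2 ≤ R) (h : SiteW b) :
    Site (tree R) (⟨b, by omega⟩ : Ball R) (bn b hb) (bm b hb) := by
  obtain ⟨h1, h2, h3, h4, h5⟩ := h
  constructor
  · intro i
    refine ⟨⟨i, rfl⟩, fun j => ⟨i.succAbove j, h1 i j⟩, ?_, fun j l => h3 i j l, ?_⟩
    · intro x y hxy
      exact h2 i (congrArg Subtype.val hxy)
    · intro j hj
      exact h4 i j (congrArg Subtype.val hj)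
  · intro i j hij
    obtain ⟨a1, a2, a3, a4, a5, a6, a7, a8⟩ := h5 i j hij
    exact ⟨fun h => a1 (congrArg Subtype.val h), fun l h => a2 l (congrArg Subtype.val h),
      fun l h => a3 l (congrArg Subtype.val h), fun l l' h => a4 l l' (congrArg Subtype.val h),
      a5, a6, a7, a8⟩

theorem inS_mem {b : Word} {hb : b.len + 2 ≤ R} {p : Ball R}
    (h : InS (⟨b, by omega⟩ : Ball R) (bn b hb) (bm b hb) p) : p.1 ∈ siteList b := by
  unfold siteList
  rcases h with h | ⟨i, rfl | ⟨j, rfl⟩⟩
  · rw [h]; simp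
  · apply List.mem_cons_of_mem
    apply List.mem_append_left
    exact List.mem_map.2 ⟨i, by simp, rfl⟩
  · apply List.mem_cons_of_mem
    apply List.mem_append_right
    exact List.mem_flatMap.2 ⟨i, by simp, List.mem_map.2 ⟨j, by simp, rfl⟩⟩

/-- Bob wins with four colours on the ball of radius `R ≥ 10`. -/
theorem bobWins_four (hR : 10 ≤ R) :
    BobWins (tree R) (fun _ => none : Sym2 (Ball R) → Option (Fin 4)) := by
  have h1 : Word.one.len + 2 ≤ R := by rw [Word.len_one]; omega
  have h2 : far.len + 2 ≤ R := by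
    have : far.len = 8 := rfl
    omega
  refine four_main (site_of Word.one h1 siteW_one) (site_of far h2 siteW_far) ?_
  intro p q hp hq
  have := far_sep _ (inS_mem hp) _ (inS_mem hq)
  exact ⟨fun h => this.1 (congrArg Subtype.val h), this.2⟩

/-- Bob wins with at most four colours on the ball of radius `R ≥ 10`. -/
theorem bobWins_le_four (hR : 10 ≤ R) {k : ℕ} (hk : k ≤ 4) :
    BobWins (tree R) (fun _ => none : Sym2 (Ball R) → Option (Fin k)) := by
  rcases Nat.lt_or_ge k 4 with h | h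
  · have h1 : Word.one.len + 2 ≤ R := by rw [Word.len_one]; omega
    have hs := site_of Word.one h1 siteW_one
    refine bobWins_small (by omega) (u := (⟨Word.one, by omega⟩ : Ball R))
      (n := bn Word.one h1) ?_ (fun i => (hs.br i).uv)
    intro i j hij
    exact Word.nb_inj (congrArg Subtype.val hij)
  · have : k = 4 := by omega
    subst this
    exact bobWins_four hR

/-- The final reduction: it remains to win with five colours on some ball. -/
theorem reduction (h5 : ∃ R, 10 ≤ R ∧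
    BobWins (tree R) (fun _ => none : Sym2 (Ball R) → Option (Fin 5))) :
    ¬ (∀ (V : Type) [Fintype V] [DecidableEq V] (G : SimpleGraph V) [DecidableRel G.Adj],
    G.IsTree → G.maxDegree = 4 →
    ∃ k : ℕ, k ≤ 5 ∧ ∃ S : Set (Sym2 V → Option (Fin k)),
      (fun _ => none) ∈ S ∧
      ∀ c ∈ S,
        ((∀ e ∈ G.edgeSet, ∀ a : Fin k, c e = none →
            ¬ (∀ f ∈ G.edgeSet, f ≠ e → (∃ v, v ∈ e ∧ v ∈ f) → c f ≠ some a)) →
          ∀ e ∈ G.edgeSet, c e ≠ none) ∧
        (Even (Set.ncard {e | e ∈ G.edgeSet ∧ c e ≠ none}) →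
          (∃ e ∈ G.edgeSet, ∃ a : Fin k, c e = none ∧
              (∀ f ∈ G.edgeSet, f ≠ e → (∃ v, v ∈ e ∧ v ∈ f) → c f ≠ some a)) →
          ∃ e ∈ G.edgeSet, ∃ a : Fin k, c e = none ∧
              (∀ f ∈ G.edgeSet, f ≠ e → (∃ v, v ∈ e ∧ v ∈ f) → c f ≠ some a) ∧
              Function.update c e (some a) ∈ S) ∧
        (¬ Even (Set.ncard {e | e ∈ G.edgeSet ∧ c e ≠ none}) →
          ∀ e ∈ G.edgeSet, ∀ a : Fin k, c e = none →
              (∀ f ∈ G.edgeSet, f ≠ e → (∃ v, v ∈ e ∧ v ∈ f) → c f ≠ some a) →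
              Function.update c e (some a) ∈ S)) := by
  intro H
  obtain ⟨R, hR, h5⟩ := h5
  obtain ⟨k, hk, S, hmem, hS⟩ := H (Ball R) (tree R) (tree_isTree R) (tree_maxDegree (by omega))
  rcases Nat.lt_or_ge k 5 with h | h
  · exact bobWins_le_four hR (by omega : k ≤ 4) S hS hmem
  · have : k = 5 := by omega
    subst this
    exact h5 S hS hmem

end Pool.Agent.Lib_helper61.Gci
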