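import Pool.Agent.Lib_helper55.GCI.BrFacts
import Pool.Agent.Lib_helper55.GCI.Game
import Pool.Agent.Lib_helper55.GCI.T61Sites

/-!
The ball of radius `R` of the 4-regular tree contains, after one move, an untouched vertex (helper61).
-/

set_option autoImplicit false

namespace Pool.Agent.GCI

open SimpleGraph
open Pool.Agent.Lib_helper61.Gci (Word tree Ball tree_isTree tree_maxDegree tree_adj)

variable {R : ℕ}

theorem tree_acyc (R : ℕ) : Acyc (tree R) := acyc_of_isAcyclic (tree_isTree R).isAcyclic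

theorem tree_deg4 (u : Ball R) (hu : u.1.len < R) : Deg4 (tree R) u := by
  have hlen : ∀ i, (u.1.nb i).len ≤ R := fun i => by
    have := Word.len_nb_le u.1 i
    omega
  refine ⟨(List.finRange 4).map (fun i => (⟨u.1.nb i, hlen i⟩ : Ball R)), ?_, by simp, ?_⟩
  · refine (List.nodup_finRange 4).map ?_
    intro i j hij
    exact Word.nb_inj (congrArg Subtype.val hij)
  · intro w
    rw [List.mem_map]
    constructor
    · rintro ⟨i, _, rfl⟩
      exact ⟨i, rfl⟩
    · rintro ⟨i, hi⟩
      exact ⟨i, List.mem_finRange i, Subtype.ext hi⟩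

theorem tree_len {u v : Ball R} (h : (tree R).Adj u v) :
    u.1.len ≤ v.1.len + 1 ∧ v.1.len ≤ u.1.len + 1 := by
  obtain ⟨i, hi⟩ := h
  rw [← hi]
  exact ⟨Word.len_le_nb _ _, Word.len_nb_le _ _⟩

theorem tree_slot {k : ℕ} {c : Sym2 (Ball R) → Option (Fin k)} {K : ℕ} :
    ∀ {v g : Ball R}, (tree R).Adj v g → g.1.len + K ≤ R →
      (∀ x y, (tree R).Adj x y → x.1.len ≤ v.1.len + K + 1 → v.1.len ≤ x.1.len + K + 1 →
        y.1.len ≤ v.1.len + K + 1 → v.1.len ≤ y.1.len + K + 1 → c s(x, y) = none) →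
      Slot (tree R) c K v g := by
  induction K with
  | zero =>
    intro v g h _ hc
    have := tree_len h
    exact ⟨h, hc v g h (by omega) (by omega) (by omega) (by omega)⟩
  | succ K ih =>
    intro v g h hl hc
    have h1 := tree_len h
    refine ⟨h, hc v g h (by omega) (by omega) (by omega) (by omega), tree_deg4 g (by omega), ?_⟩
    intro w hw _
    have h2 := tree_len hw
    by_cases hwR : w.1.len + K ≤ R
    · refine ih hw hwR ?_
      intro x y hxy a1 a2 a3 a4
      exact hc x y hxy (by omega) (by omega) (by omega) (by omega)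
    · exfalso; omega

theorem exists_word (n : ℕ) : ∃ w : Word, w.len = n := by
  induction n with
  | zero => exact ⟨Word.one, rfl⟩
  | succ n ih =>
    obtain ⟨w, hw⟩ := ih
    have : ∃ i : Fin 4, w.l.head? ≠ some i := by
      by_cases h : w.l.head? = some 0
      · exact ⟨1, by rw [h]; decide⟩
      · exact ⟨0, h⟩
    obtain ⟨i, hi⟩ := this
    refine ⟨w.nb i, ?_⟩
    unfold Word.len at hw ⊢
    rw [Word.nb_l, if_neg hi, List.length_cons, hw]

/-- After one move there is an untouched vertex. -/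
theorem tree_fresh (K : ℕ) (hR : 3 * K + 4 ≤ R) {k : ℕ} (c : Sym2 (Ball R) → Option (Fin k))
    (e0 : Sym2 (Ball R)) (hc : ∀ e, e ≠ e0 → c e = none) :
    ∃ u, Deg4 (tree R) u ∧ ∀ g, (tree R).Adj u g → Slot (tree R) c K u g := by
  induction e0 using Sym2.ind with
  | _ p q =>
  by_cases hp : K + 1 < p.1.len
  · -- centre
    have h0 : (Ball.one R).1.len = 0 := rfl
    refine ⟨Ball.one R, tree_deg4 _ (by omega), ?_⟩
    intro g hg
    have hg1 := tree_len hg
    refine tree_slot hg (by omega) ?_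
    intro x y hxy a1 a2 a3 a4
    apply hc
    intro he
    rcases Sym2.eq_iff.1 he with ⟨h1, _⟩ | ⟨_, h1⟩
    · rw [h1] at a1; omega
    · rw [h1] at a3; omega
  · obtain ⟨w, hw⟩ := exists_word (2 * K + 3)
    have hwR : w.len ≤ R := by omega
    refine ⟨⟨w, hwR⟩, tree_deg4 _ (by show w.len < R; omega), ?_⟩
    intro g hg
    have hg1 := tree_len hg
    simp only [hw] at hg1
    refine tree_slot hg (by omega) ?_
    intro x y hxy a1 a2 a3 a4
    simp only [hw] at a1 a2 a3 a4
    apply hc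
    intro he
    rcases Sym2.eq_iff.1 he with ⟨h1, _⟩ | ⟨_, h1⟩
    · rw [h1] at a2; omega
    · rw [h1] at a4; omega

/-- The ball. -/
theorem ball (K : ℕ) : ∃ (V : Type) (_ : Fintype V) (_ : DecidableEq V) (G : SimpleGraph V)
    (_ : DecidableRel G.Adj), G.IsTree ∧ G.maxDegree = 4 ∧ Acyc G ∧ (∃ v, Deg4 G v) ∧
    (∀ {k : ℕ} (c : Sym2 V → Option (Fin k)) (e0 : Sym2 V), (∀ e, e ≠ e0 → c e = none) →
      ∃ u, Deg4 G u ∧ ∀ g, G.Adj u g → Slot G c K u g) ∧
    ∀ k : ℕ, k ≤ 4 → Lost G (fun _ => none : Sym2 V → Option (Fin k)) := by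
  have hR : 3 * K + 4 ≤ 3 * K + 10 := by omega
  refine ⟨Ball (3 * K + 10), inferInstance, inferInstance, tree (3 * K + 10), inferInstance,
    tree_isTree _, tree_maxDegree (by omega), tree_acyc _, ⟨Ball.one _, tree_deg4 _ ?_⟩, ?_, ?_⟩
  · show (Ball.one (3 * K + 10)).1.len < 3 * K + 10
    have h0 : (Ball.one (3 * K + 10)).1.len = 0 := rfl
    omega
  · intro k c e0 hc
    exact tree_fresh K hR c e0 hc
  · intro k hk
    exact Pool.Agent.Lib_helper61.Gci.bobWins_le_four (by omega) hk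

end Pool.Agent.GCI
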