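import Pool.Agent.Lib_helper55.GCI.Defs

/-!
Branch facts used by the expansion and cut rules (helper1).
-/

set_option autoImplicit false

namespace Pool.Agent.GCI.H1

open Pool.Agent.GCI

variable {V : Type} {k : ℕ} {G : SimpleGraph V}

/-- a branch further out is contained in the branch. -/
theorem br_sub (hA : Acyc G) {v g h : V} (_hvg : G.Adj v g) (hgh : G.Adj g h) (hne : h ≠ v)
    {x : V} (hx : Br G g h x) : Br G v g x := by
  induction hx with
  | base =>
    refine Br.step Br.base hgh ?_
    intro he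
    rcases Sym2.eq_iff.1 he with ⟨h1, h2⟩ | ⟨_, h2⟩
    · exact G.ne_of_adj hgh h2.symm
    · exact hne h2
  | @step x y hx hxy hs ih =>
    refine Br.step ih hxy ?_
    intro he
    rcases Sym2.eq_iff.1 he with ⟨h1, h2⟩ | ⟨h1, h2⟩
    · subst h2
      exact hA _ _ hgh (Br.step hx hxy hs)
    · subst h1
      exact hA _ _ hgh hx

/-- distinct branches at the same vertex are disjoint. -/
theorem br_disj (hA : Acyc G) {g h h' : V} (hgh : G.Adj g h) (hgh' : G.Adj g h') (hne : h ≠ h')
    {x : V} (hx : Br G g h x) : ¬ Br G g h' x := by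
  induction hx with
  | base =>
    intro hb
    refine hA _ _ hgh' (Br.step hb hgh.symm ?_)
    intro he
    rcases Sym2.eq_iff.1 he with ⟨h1, _⟩ | ⟨h1, _⟩
    · exact G.ne_of_adj hgh h1.symm
    · exact hne h1
  | @step x y hx hxy hs ih =>
    intro hb
    refine ih (Br.step hb hxy.symm ?_)
    intro he
    rcases Sym2.eq_iff.1 he with ⟨h1, _⟩ | ⟨_, h2⟩
    · subst h1
      exact hA _ _ hgh' hb
    · subst h2
      exact hA _ _ hgh hx

/-- a good slot is a good slot to smaller depth. -/
theorem slot_mono {c : Sym2 V → Option (Fin k)} {K : ℕ} :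
    ∀ {v g : V}, Slot G c (K + 1) v g → Slot G c K v g := by
  induction K with
  | zero => intro v g h; exact ⟨h.1, h.2.1⟩
  | succ K ih =>
    intro v g h
    exact ⟨h.1, h.2.1, h.2.2.1, fun x hx hne => ih (h.2.2.2 x hx hne)⟩

/-- a good slot only depends on the colouring of the edges with an end in the branch. -/
theorem slot_congr (hA : Acyc G) {c c' : Sym2 V → Option (Fin k)} {K : ℕ} :
    ∀ {v g : V}, (∀ x y, G.Adj x y → Br G v g y → c' s(x, y) = c s(x, y)) →
      Slot G c K v g → Slot G c' K v g := by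
  induction K with
  | zero =>
    intro v g hc h
    exact ⟨h.1, by rw [hc v g h.1 Br.base]; exact h.2⟩
  | succ K ih =>
    intro v g hc h
    refine ⟨h.1, by rw [hc v g h.1 Br.base]; exact h.2.1, h.2.2.1, ?_⟩
    intro x hx hne
    refine ih ?_ (h.2.2.2 x hx hne)
    intro a b hab hb
    exact hc a b hab (br_sub hA h.1 hx hne hb)

end Pool.Agent.GCI.H1
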