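import Pool.Agent.Lib_helper55.GCI.Emb
/-!
# Bob's fork move `cutB_W` (helper39)
-/
set_option autoImplicit false

namespace Pool.Agent.GCI
namespace CutB

variable {V : Type}

theorem br_adj_ne_base {G : SimpleGraph V} {v w : V} (hG : Acyc G) (hvw : G.Adj v w) {h : V}
    (hgh : G.Adj w h) (hne : h ≠ v) {x : V} (hx : Br G w h x) : Br G v w x := by
  induction hx with
  | base =>
    refine Br.step Br.base hgh ?_
    intro hh
    rw [Sym2.eq_iff] at hh
    rcases hh with ⟨h1, h2⟩ | ⟨_, h2⟩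
    · exact hgh.ne h2.symm
    · exact hne h2
  | step hx hxy hne2 ih =>
    rename_i x y
    by_cases hxy2 : s(x, y) = s(v, w)
    · rw [Sym2.eq_iff] at hxy2
      rcases hxy2 with ⟨h1, h2⟩ | ⟨h1, h2⟩
      · subst h1
        exact absurd ih (hG _ _ hvw)
      · subst h1
        exact absurd hx (hG _ _ hgh)
    · exact Br.step ih hxy hxy2

/-- slots survive a change of the colouring that does not touch the branch -/
theorem slot_congr {G : SimpleGraph V} (hG : Acyc G) {k : ℕ} {c c' : Sym2 V → Option (Fin k)} :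
    ∀ (K : ℕ) (v g : V), (∀ x, Br G v g x → ∀ y, c' s(x, y) = c s(x, y)) → Slot G c K v g → Slot G c' K v g := by
  intro K
  induction K with
  | zero =>
    intro v g h hs
    refine ⟨hs.1, ?_⟩
    rw [Sym2.eq_swap, h g Br.base, Sym2.eq_swap]
    exact hs.2
  | succ K ih =>
    intro v g h hs
    obtain ⟨h1, h2, h3, h4⟩ := hs
    refine ⟨h1, ?_, h3, ?_⟩
    · rw [Sym2.eq_swap, h g Br.base, Sym2.eq_swap]
      exact h2
    · intro w hw hwv
      exact ih g w (fun x hx y => h x (br_adj_ne_base hG h1 hw hwv hx) y) (h4 w hw hwv)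

/-- crossing an edge of the half tree -/
theorem cross {G : SimpleGraph V} {v w x y : V} (hx : Br G v w x) (hy : ¬ Br G v w y) (hxy : G.Adj x y) :
    s(x, y) = s(v, w) := by
  by_contra hne
  exact hy (Br.step hx hxy hne)

/-- Match is invariant under an update not touching it. -/
theorem match_update {G : SimpleGraph V} [DecidableEq V] (hG : Acyc G) {k : ℕ} {c : Sym2 V → Option (Fin k)}
    {π : Equiv.Perm (Fin k)} {K : ℕ} {P : Pt} {φ : ℕ → V} {s : ℕ → ℕ → V} (M : Match G c π K P φ s)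
    {x y : V} {b : Fin k} (hn : c s(x, y) = none)
    (h1 : ∀ i < P.n, φ i ≠ x ∧ φ i ≠ y)
    (h2 : ∀ i < P.n, ∀ t < P.m i, ¬ Br G (φ i) (s i t) x ∧ ¬ Br G (φ i) (s i t) y) :
    Match G (Function.update c s(x, y) (some b)) π K P φ s where
  inj := M.inj
  deg := M.deg
  edge i hi hp := by
    obtain ⟨a1, a2, a3⟩ := M.edge i hi hp
    refine ⟨a1, a2, ?_⟩
    rw [Function.update_of_ne, a3]
    intro hh
    rw [Sym2.eq_iff] at hh
    rcases hh with ⟨_, hh⟩ | ⟨_, hh⟩
    · exact (h1 i hi).2 hh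
    · exact (h1 i hi).1 hh
  colR i hi a ha := by
    obtain ⟨w, hw, hc⟩ := M.colR i hi a ha
    refine ⟨w, hw, ?_⟩
    rw [Function.update_of_ne, hc]
    intro hh
    rw [hh, hn] at hc
    exact absurd hc (by simp)
  colF i hi a ha w hw := by
    rw [Function.update_of_ne]
    · exact M.colF i hi a ha w hw
    · intro hh
      rw [Sym2.eq_iff] at hh
      rcases hh with ⟨hh, _⟩ | ⟨hh, _⟩
      · exact (h1 i hi).1 hh
      · exact (h1 i hi).2 hh
  slot i hi t ht := by
    refine slot_congr hG K _ _ ?_ (M.slot i hi t ht)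
    intro z hz y'
    rw [Function.update_of_ne]
    intro hh
    rw [Sym2.eq_iff] at hh
    rcases hh with ⟨hh, _⟩ | ⟨hh, _⟩
    · exact (h2 i hi t ht).1 (hh ▸ hz)
    · exact (h2 i hi t ht).2 (hh ▸ hz)
  away := M.away
  disj := M.disj

/-- The match of `cut P i a` after colouring the edge `i — par i`. -/
theorem match_cut {G : SimpleGraph V} [DecidableEq V] (hG : Acyc G) {k : ℕ} {c : Sym2 V → Option (Fin k)}
    {π : Equiv.Perm (Fin k)} {K : ℕ} {P : Pt} {φ : ℕ → V} {s : ℕ → ℕ → V} (M : Match G c π K P φ s)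
    {i : ℕ} (a : Fin k) (hi : i < P.n) (hp : P.par i ≠ i) (hpp : P.par (P.par i) ≠ i) :
    Match G (Function.update c s(φ (P.par i), φ i) (some (π a))) π K (cut P i a) φ s := by
  obtain ⟨p1, p2, p3⟩ := M.edge i hi hp
  refine
  { inj := M.inj
    deg := M.deg
    edge := ?_
    colR := ?_
    colF := ?_
    slot := ?_
    away := M.away
    disj := M.disj }
  · intro j hj hpj
    simp only [cut] at hpj hj ⊢
    by_cases hji : j = i
    · simp [hji] at hpj
    · simp only [if_neg hji] at hpj ⊢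
      obtain ⟨a1, a2, a3⟩ := M.edge j hj hpj
      refine ⟨a1, a2, ?_⟩
      rw [Function.update_of_ne, a3]
      intro hh
      rw [Sym2.eq_iff] at hh
      rcases hh with ⟨_, hh⟩ | ⟨hh1, hh2⟩
      · exact hji (M.inj _ hj _ hi hh)
      · have e1 := M.inj _ a1 _ hi hh1
        have e2 := M.inj _ hj _ p1 hh2
        rw [e2] at e1
        exact hpp e1
  · intro j hj b hb
    simp only [cut, Bool.or_eq_true, Bool.and_eq_true, beq_iff_eq] at hb hj
    rcases hb with hb | ⟨hj2, hb⟩
    · obtain ⟨w, hw, hc⟩ := M.colR j hj b hb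
      refine ⟨w, hw, ?_⟩
      rw [Function.update_of_ne, hc]
      intro hh
      rw [hh, p3] at hc
      exact absurd hc (by simp)
    · have hb' : b = a := Fin.ext hb
      subst hb'
      rcases hj2 with hj2 | hj2
      · subst hj2
        refine ⟨φ (P.par j), p2.symm, ?_⟩
        rw [Sym2.eq_swap, Function.update_self]
      · subst hj2
        refine ⟨φ i, p2, ?_⟩
        rw [Function.update_self]
  · intro j hj b hb w hw
    simp only [cut, Bool.and_eq_true, Bool.not_eq_true', Bool.and_eq_false_iff, Bool.or_eq_false_iff,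
      beq_eq_false_iff_ne] at hb hj
    by_cases hh : s(φ j, w) = s(φ (P.par i), φ i)
    · rw [hh, Function.update_self]
      have : j = i ∨ j = P.par i := by
        rw [Sym2.eq_iff] at hh
        rcases hh with ⟨hh, _⟩ | ⟨hh, _⟩
        · exact Or.inr (M.inj _ hj _ p1 hh)
        · exact Or.inl (M.inj _ hj _ hi hh)
      rcases hb.2 with hb2 | hb2
      · rcases this with h' | h'
        · exact absurd h' hb2.1
        · exact absurd h' hb2.2
      · intro hab
        have : π a = π b := by simpa using hab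
        exact hb2 (by rw [π.injective this])
    · rw [Function.update_of_ne hh]
      exact M.colF j hj b hb.1 w hw
  · intro j hj t ht
    simp only [cut] at hj ht
    refine slot_congr hG K _ _ ?_ (M.slot j hj t ht)
    intro z hz y'
    rw [Function.update_of_ne]
    intro hh
    rw [Sym2.eq_iff] at hh
    rcases hh with ⟨hh, _⟩ | ⟨hh, _⟩
    · exact M.away j hj t ht _ p1 (hh ▸ hz)
    · exact M.away j hj t ht _ hi (hh ▸ hz)

/-- Every node of a connected pattern lies in the half tree `H` iff one of them does (if the pattern is not cut by the edge). -/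
theorem tree_side {G : SimpleGraph V} {k : ℕ} {c : Sym2 V → Option (Fin k)}
    {π : Equiv.Perm (Fin k)} {K : ℕ} {P : Pt} {φ : ℕ → V} {s : ℕ → ℕ → V} (M : Match G c π K P φ s)
    (T : IsTreeP P) {v w : V} (hc : c s(v, w) ≠ none) :
    ∀ i < P.n, (Br G v w (φ i) ↔ Br G v w (φ 0)) := by
  intro i
  induction i using Nat.strong_induction_on with
  | _ i ih =>
    intro hi
    rcases Nat.eq_zero_or_pos i with h0 | h0
    · rw [h0]
    · have hlt := T.2.2 i hi h0
      obtain ⟨a1, a2, a3⟩ := M.edge i hi hlt.ne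
      rw [← ih _ hlt a1]
      have hne : s(φ (P.par i), φ i) ≠ s(v, w) := fun hh => hc (hh ▸ a3)
      constructor
      · intro h1
        exact Br.step h1 a2.symm (by rw [Sym2.eq_swap]; exact hne)
      · intro h1
        exact Br.step h1 a2 hne

/-- The slot branches of a match lie on the same side of a coloured edge between nodes not in the branches as the node. -/
theorem slot_side {G : SimpleGraph V} {v w : V} {u g : V} (hug : G.Adj u g) (hne : s(u, g) ≠ s(v, w))
    (hv : ¬ Br G u g v) :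
    ∀ x, Br G u g x → (Br G v w x ↔ Br G v w u) := by
  intro x hx
  induction hx with
  | base =>
    constructor
    · intro h1
      exact Br.step h1 hug.symm (by rw [Sym2.eq_swap]; exact hne)
    · intro h1
      exact Br.step h1 hug hne
  | step hx hxy hne2 ih =>
    rename_i x y
    rw [← ih]
    have hne3 : s(x, y) ≠ s(v, w) := by
      intro hh
      rw [Sym2.eq_iff] at hh
      rcases hh with ⟨hh, _⟩ | ⟨_, hh⟩
      · exact hv (hh ▸ hx)
      · exact hv (hh ▸ Br.step hx hxy hne2)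
    constructor
    · intro h1
      exact Br.step h1 hxy.symm (by rw [Sym2.eq_swap]; exact hne3)
    · intro h1
      exact Br.step h1 hxy hne3

theorem cnt_upd [Finite V] [DecidableEq V] {G : SimpleGraph V} {k : ℕ} {c : Sym2 V → Option (Fin k)} {e : Sym2 V} {a : Fin k}
    (he : e ∈ G.edgeSet) (hn : c e = none) : cnt G (Function.update c e (some a)) = cnt G c + 1 := by
  unfold cnt
  have : {f | f ∈ G.edgeSet ∧ Function.update c e (some a) f ≠ none} = insert e {f | f ∈ G.edgeSet ∧ c f ≠ none} := by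
    ext f
    simp only [Set.mem_ofPred_eq, Set.mem_insert_iff]
    by_cases hf : f = e
    · subst hf
      simp [he]
    · simp [hf, Function.update_of_ne]
  rw [this, Set.ncard_insert_of_notMem]
  simp [hn]

theorem bob {G : SimpleGraph V} [DecidableEq V] {k : ℕ} {c : Sym2 V → Option (Fin k)} (hodd : ¬ Even (cnt G c))
    {e : Sym2 V} {a : Fin k} (he : e ∈ G.edgeSet) (hn : c e = none) (hadm : Adm G c e a)
    (hl : Lost G (Function.update c e (some a))) : Lost G c := by
  intro S hS hc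
  exact hl S hS ((hS c hc).2.2 hodd e he a hn hadm)

theorem alice {G : SimpleGraph V} [DecidableEq V] {k : ℕ} {c : Sym2 V → Option (Fin k)} (heven : Even (cnt G c))
    (hex : ∃ e ∈ G.edgeSet, c e = none)
    (hl : ∀ e ∈ G.edgeSet, ∀ a, c e = none → Adm G c e a → Lost G (Function.update c e (some a))) : Lost G c := by
  intro S hS hc
  obtain ⟨h1, h2, -⟩ := hS c hc
  have h3 : ∃ e ∈ G.edgeSet, ∃ a : Fin k, c e = none ∧
      (∀ f ∈ G.edgeSet, f ≠ e → (∃ v, v ∈ e ∧ v ∈ f) → c f ≠ some a) := by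
    by_contra hcon
    obtain ⟨e, he, hn⟩ := hex
    refine h1 ?_ e he hn
    intro e he a hn hh
    exact hcon ⟨e, he, a, hn, hh⟩
  obtain ⟨e, he, a, hn, hadm, hmem⟩ := h2 heven h3
  exact hl e he a hn hadm S hS hmem

/-- Bob's move on the edge `i — par i` is admissible. -/
theorem adm_cut {G : SimpleGraph V} {k : ℕ} {c : Sym2 V → Option (Fin k)}
    {π : Equiv.Perm (Fin k)} {K : ℕ} {P : Pt} {φ : ℕ → V} {s : ℕ → ℕ → V} (M : Match G c π K P φ s)
    {i : ℕ} (a : Fin k) (hi : i < P.n) (hp : P.par i ≠ i)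
    (h1 : P.F i a = true) (h2 : P.F (P.par i) a = true) : Adm G c s(φ (P.par i), φ i) (π a) := by
  obtain ⟨p1, p2, p3⟩ := M.edge i hi hp
  intro f hf hfe hv
  obtain ⟨v, hv1, hv2⟩ := hv
  obtain ⟨w, rfl⟩ := Sym2.mem_iff_exists.mp hv2
  rw [SimpleGraph.mem_edgeSet] at hf
  rw [Sym2.mem_iff] at hv1
  rcases hv1 with hv1 | hv1
  · subst hv1
    exact M.colF _ p1 a h2 w hf
  · subst hv1
    exact M.colF _ hi a h1 w hf

theorem slot_adj {G : SimpleGraph V} {k : ℕ} {c : Sym2 V → Option (Fin k)} {K : ℕ} {v g : V}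
    (h : Slot G c K v g) : G.Adj v g ∧ c s(v, g) = none := by
  cases K with
  | zero => exact h
  | succ K => exact ⟨h.1, h.2.1⟩

/-- a match with at least one edge or slot shows an uncoloured edge -/
theorem exists_uncol {G : SimpleGraph V} {k : ℕ} {c : Sym2 V → Option (Fin k)}
    {π : Equiv.Perm (Fin k)} {K : ℕ} {P : Pt} {φ : ℕ → V} {s : ℕ → ℕ → V} (M : Match G c π K P φ s)
    (T : IsTreeP P) (hne : 1 < P.n ∨ 0 < P.m 0) : ∃ e ∈ G.edgeSet, c e = none := by
  rcases hne with hne | hne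
  · have := T.2.2 1 hne (by norm_num)
    obtain ⟨a1, a2, a3⟩ := M.edge 1 hne this.ne
    exact ⟨_, a2, a3⟩
  · obtain ⟨a1, a2⟩ := slot_adj (M.slot 0 T.1 0 hne)
    exact ⟨_, a1, a2⟩

theorem slot_mono_succ {G : SimpleGraph V} {k : ℕ} {c : Sym2 V → Option (Fin k)} :
    ∀ (K : ℕ) (v g : V), Slot G c (K + 1) v g → Slot G c K v g := by
  intro K
  induction K with
  | zero =>
    intro v g h
    exact ⟨h.1, h.2.1⟩
  | succ K ih =>
    intro v g h
    exact ⟨h.1, h.2.1, h.2.2.1, fun w hw hwv => ih g w (h.2.2.2 w hw hwv)⟩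

theorem slot_mono {G : SimpleGraph V} {k : ℕ} {c : Sym2 V → Option (Fin k)} {K K' : ℕ} (h : K ≤ K') {v g : V}
    (hs : Slot G c K' v g) : Slot G c K v g := by
  induction K', h using Nat.le_induction with
  | base => exact hs
  | succ K' hK ih => exact ih (slot_mono_succ _ _ _ hs)

theorem match_mono {G : SimpleGraph V} {k : ℕ} {c : Sym2 V → Option (Fin k)}
    {π : Equiv.Perm (Fin k)} {K K' : ℕ} (h : K ≤ K') {P : Pt} {φ : ℕ → V} {s : ℕ → ℕ → V}
    (M : Match G c π K' P φ s) : Match G c π K P φ s :=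
  { M with slot := fun i hi t ht => slot_mono h (M.slot i hi t ht) }

/-- An edge not equal to `v w` has both ends on the same side. -/
theorem same_side {G : SimpleGraph V} {v w x y : V} (hxy : G.Adj x y) (hne : s(x, y) ≠ s(v, w)) :
    Br G v w x ↔ Br G v w y := by
  constructor
  · intro h
    exact Br.step h hxy hne
  · intro h
    exact Br.step h hxy.symm (by rw [Sym2.eq_swap]; exact hne)

/-- A connected match all of whose nodes are on one side of a coloured edge `v w` survives a move on the other side. -/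
theorem match_other_side {G : SimpleGraph V} [DecidableEq V] (hG : Acyc G) {k : ℕ} {c : Sym2 V → Option (Fin k)}
    {π : Equiv.Perm (Fin k)} {K : ℕ} {P : Pt} {φ : ℕ → V} {s : ℕ → ℕ → V} (M : Match G c π K P φ s)
    (T : IsTreeP P) {v w : V} (hc : c s(v, w) ≠ none)
    (hv : ∀ i < P.n, ∀ t < P.m i, ¬ Br G (φ i) (s i t) v)
    {x y : V} (hxy : G.Adj x y) {b : Fin k} (hn : c s(x, y) = none)
    {j : ℕ} (hj : j < P.n) (hside : ¬ (Br G v w (φ j) ↔ Br G v w x)) :
    Match G (Function.update c s(x, y) (some b)) π K P φ s := by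
  have hne : s(x, y) ≠ s(v, w) := fun hh => hc (hh ▸ hn)
  have hs := same_side hxy hne
  have hnode : ∀ i < P.n, ¬ (Br G v w (φ i) ↔ Br G v w x) := by
    intro i hi
    rw [tree_side M T hc i hi, ← tree_side M T hc j hj]
    exact hside
  have hslot : ∀ i < P.n, ∀ t < P.m i, ∀ z, Br G (φ i) (s i t) z → ¬ (Br G v w z ↔ Br G v w x) := by
    intro i hi t ht z hz
    obtain ⟨a1, a2⟩ := slot_adj (M.slot i hi t ht)
    rw [slot_side a1 (fun hh => hc (hh ▸ a2)) (hv i hi t ht) z hz]
    exact hnode i hi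
  refine match_update hG M hn ?_ ?_
  · intro i hi
    refine ⟨fun hh => hnode i hi (by rw [hh]), fun hh => hnode i hi (by rw [hh, hs])⟩
  · intro i hi t ht
    exact ⟨fun hh => hslot i hi t ht _ hh Iff.rfl, fun hh => hslot i hi t ht _ hh hs.symm⟩

end CutB

open CutB in
/-- Bob colours the edge `i — par i` with `a` and then wins on both sides (Alice can disturb only one of them). -/
theorem cutB_W' {k : ℕ} {P Q₁ Q₂ : Pt} {i a : ℕ} (ha : a < k) (hi : i < P.n) (hp : P.par i ≠ i)
    (hpp : P.par (P.par i) ≠ i)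
    (h1 : P.F i a = true) (h2 : P.F (P.par i) a = true)
    (T₁ : IsTreeP Q₁) (T₂ : IsTreeP Q₂) (hne : 1 < Q₁.n ∨ 0 < Q₁.m 0)
    {ψ₁ ψ₂ : ℕ → ℕ} {σ₁ σ₂ : Equiv.Perm (Fin k)}
    (e₁ : Emb k Q₁ (cut P i a) ψ₁ σ₁) (e₂ : Emb k Q₂ (cut P i a) ψ₂ σ₂)
    (m₁ : ∃ j < Q₁.n, ψ₁ j = P.par i) (m₂ : ∃ j < Q₂.n, ψ₂ j = i)
    (w₁ : WClaim k Q₁) (w₂ : WClaim k Q₂) : WClaim k P := by
  obtain ⟨K₁, hK₁⟩ := w₁
  obtain ⟨K₂, hK₂⟩ := w₂
  obtain ⟨j₁, hj₁, hj₁'⟩ := m₁
  obtain ⟨j₂, hj₂, hj₂'⟩ := m₂
  refine ⟨max K₁ K₂, fun V _ _ G c π φ s hG hc M => ?_⟩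
  obtain ⟨p1, p2, p3⟩ := M.edge i hi hp
  -- the colour as an element of `Fin k`
  have hodd := hc
  refine bob hc (e := s(φ (P.par i), φ i)) (a := π ⟨a, ha⟩) p2 p3 (adm_cut M ⟨a, ha⟩ hi hp h1 h2) ?_
  have MC := match_cut hG M ⟨a, ha⟩ hi hp hpp
  simp only at MC
  have M₁ := (match_mono (le_max_left K₁ K₂) MC).emb e₁
  have M₂ := (match_mono (le_max_right K₁ K₂) MC).emb e₂
  set c' := Function.update c s(φ (P.par i), φ i) (some (π ⟨a, ha⟩)) with hc'
  have hcn : c' s(φ (P.par i), φ i) ≠ none := by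
    rw [hc', Function.update_self]; simp
  have hcnt : cnt G c' = cnt G c + 1 := cnt_upd (by exact p2) p3
  have heven : Even (cnt G c') := by
    rw [hcnt, Nat.even_add_one]; exact hc
  refine alice heven (exists_uncol M₁ T₁ hne) ?_
  intro e he b hn _
  have hodd2 : ¬ Even (cnt G (Function.update c' e (some b))) := by
    rw [cnt_upd he hn, Nat.even_add_one]
    simpa using heven
  induction e using Sym2.ind with
  | _ x y =>
    have hxy : G.Adj x y := he
    by_cases hx : Br G (φ (P.par i)) (φ i) x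
    · -- Alice plays inside: `Q₁` survives
      refine hK₁ V G _ _ _ _ hG hodd2 (match_other_side hG M₁ T₁ hcn ?_ hxy hn hj₁ ?_)
      · intro i' hi' t ht hbr
        exact MC.away _ (e₁.lt i' hi') t (lt_of_lt_of_le ht (e₁.m i' hi')) _ p1 hbr
      · simp only [hj₁', hx, iff_true]
        exact hG _ _ p2
    · refine hK₂ V G _ _ _ _ hG hodd2 (match_other_side hG M₂ T₂ hcn ?_ hxy hn hj₂ ?_)
      · intro i' hi' t ht hbr
        exact MC.away _ (e₂.lt i' hi') t (lt_of_lt_of_le ht (e₂.m i' hi')) _ p1 hbr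
      · simp only [hj₂', hx, iff_false, not_not]
        exact Br.base

open CutB in
/-- Bob colours the edge `i — par i` with `a`. -/
theorem cut_W' {k : ℕ} {P : Pt} {i a : ℕ} (ha : a < k) (hi : i < P.n) (hp : P.par i ≠ i)
    (hpp : P.par (P.par i) ≠ i)
    (h1 : P.F i a = true) (h2 : P.F (P.par i) a = true) (h : AClaim k (cut P i a)) : WClaim k P := by
  obtain ⟨K, hK⟩ := h
  refine ⟨K, fun V _ _ G c π φ s hG hc M => ?_⟩
  obtain ⟨p1, p2, p3⟩ := M.edge i hi hp
  refine bob hc (e := s(φ (P.par i), φ i)) (a := π ⟨a, ha⟩) p2 p3 (adm_cut M ⟨a, ha⟩ hi hp h1 h2) ?_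
  refine hK V G _ π φ s hG ?_ (match_cut hG M ⟨a, ha⟩ hi hp hpp)
  rw [cnt_upd (by exact p2) p3, Nat.even_add_one]
  exact hc

end Pool.Agent.GCI
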