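import Pool.Agent.Lib_helper55.GCI.State
import Pool.Agent.Lib_helper55.GCI.CutB
/-!
# Kernel-fast checkers for the certificate and their soundness
-/
set_option autoImplicit false

namespace Pool.Agent.GCI

/-! ## permutations of the 5 colours as tables -/

/-- 120 tables with 32 entries of 5 bits: images of the 32 colour sets under the permutation -/
def PT : ℕ := 0xfbee7dae63eb6a5ca621f3ac6d2a42e3284c2200fbee7dae63f3ac6d2a42eb6a5ca621e3284c2200fbee7eb6a5dae63ca621f3ac6e3284d2a42c2200fbee7eb6a5f3ac6e3284dae63ca621d2a42c2200fbee7f3ac6dae63d2a42eb6a5e3284ca621c2200fbee7f3ac6eb6a5e3284dae63d2a42ca621c2200fbf6bb9e63eb729a9621f3b4ab1a42e3308a1200fbf6bb9e63f3b4ab1a42eb729a9621e3308a1200fbf6beb729b9e63a9621f3b4ae3308b1a42a1200fbf6beb729f3b4ae3308b9e63a9621b1a42a1200fbf6bf3b4ab9e63b1a42eb729e3308a9621a1200fbf6bf3b4aeb729e3308b9e63b1a42a9621a1200fbfadb9ea5daf2998e21f3b8cb1a84d2b0890a00fbfadb9ea5f3b8cb1a84daf2998e21d2b0890a00fbfaddaf29b9ea598e21f3b8cd2b08b1a8490a00f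bfaddaf29f3b8cd2b08b9ea598e21b1a8490a00fbfadf3b8cb9ea5b1a84daf29d2b0898e2190a00fbfadf3b8cdaf29d2b08b9ea5b1a8498e2190a00fbfceb9ec6daf4a98e42eb78ca9684ca70888600fbfceb9ec6eb78ca9684daf4a98e42ca70888600fbfcedaf4ab9ec698e42eb78cca708a968488600fbfcedaf4aeb78cca708b9ec698e42a968488600fbfceeb78cb9ec6a9684daf4aca70898e4288600fbfceeb78cdaf4aca708b9ec6a968498e4288600fdde7dcd63ed5a5cc521f59c6d4942e5184c4100fdde7dcd63f59c6d4942ed5a5cc521e5184c4100fdde7ed5a5dcd63cc521f59c6e5184d4942c4100fdde7ed5a5f59c6e5184dcd63cc521d4942c4100fdde7f59c6dcd63d4942ed5a5e5184cc521c4100fdde7f59c6ed5a5e5184dcd63d4942cc521c4100fdf7379d63ed73169521f5b5271942e531061100fdf7379d63f5b5271942ed73169521e531061100fdf73ed73179d6369521f5b52e53107194261100fdf73ed731f5b52e531079d63695217194261100fdf73f5b5279d6371942ed731e53106952161100fdf73f5b52ed731e531079d63719426952161100fdfb579da5dcf3158d21f5b9471984d4b1050900fdfb579da5f5b9471984dcf3158d21d4b1050900fdfb5dcf3179da558d21f5b94d4b107198450900fdfb5dcf31f5b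94d4b1079da558d217198450900fdfb5f5b9479da571984dcf31d4b1058d2150900fdfb5f5b94dcf31d4b1079da57198458d2150900fdfd679dc6dcf5258d42ed79469584cc71048500fdfd679dc6ed79469584dcf5258d42cc71048500fdfd6dcf5279dc658d42ed794cc7106958448500fdfd6dcf52ed794cc71079dc658d426958448500fdfd6ed79479dc669584dcf52cc71058d4248500fdfd6ed794dcf52cc71079dc66958458d4248500fedebbcce3ee5a9ac4a1f69cab48c2e6188a4080fedebbcce3f69cab48c2ee5a9ac4a1e6188a4080fedebee5a9bcce3ac4a1f69cae6188b48c2a4080fedebee5a9f69cae6188bcce3ac4a1b48c2a4080fedebf69cabcce3b48c2ee5a9e6188ac4a1a4080fedebf69caee5a9e6188bcce3b48c2ac4a1a4080feef37ace3ee6b16a4a1f6ad2728c2e629062080feef37ace3f6ad2728c2ee6b16a4a1e629062080feef3ee6b17ace36a4a1f6ad2e6290728c262080feef3ee6b1f6ad2e62907ace36a4a1728c262080feef3f6ad27ace3728c2ee6b1e62906a4a162080feef3f6ad2ee6b1e62907ace3728c26a4a162080fefb97ada9bceb138ca1f6b9872988b4a9030880fefb97ada9f6b9872988bceb138ca1b4a9030880fefb9bceb17ada938ca1f6b98b4a907298830880fefb9bceb1f6b98b4a907ada9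38ca17298830880fefb9f6b987ada972988bceb1b4a9038ca130880fefb9f6b98bceb1b4a907ada97298838ca130880fefda7adcabced238cc2ee7986a588ac69028480fefda7adcaee7986a588bced238cc2ac69028480fefdabced27adca38cc2ee798ac6906a58828480fefdabced2ee798ac6907adca38cc26a58828480fefdaee7987adca6a588bced2ac69038cc228480fefdaee798bced2ac6907adca6a58838cc228480ff5edbd4e5de5699c461f71ccb50c4d614894040ff5edbd4e5f71ccb50c4de5699c461d614894040ff5edde569bd4e59c461f71ccd6148b50c494040ff5edde569f71ccd6148bd4e59c461b50c494040ff5edf71ccbd4e5b50c4de569d61489c46194040ff5edf71ccde569d6148bd4e5b50c49c46194040ff6f57b4e5de6715a461f72d4730c4d625052040ff6f57b4e5f72d4730c4de6715a461d625052040ff6f5de6717b4e55a461f72d4d6250730c452040ff6f5de671f72d4d62507b4e55a461730c452040ff6f5f72d47b4e5730c4de671d62505a46152040ff6f5f72d4de671d62507b4e5730c45a46152040ff7797b569bd67139461f735873148b525031040ff7797b569f735873148bd67139461b525031040ff779bd6717b56939461f7358b52507314831040ff779bd671f7358b52507b569394617314831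040ff779f73587b56973148bd671b52503946131040ff779f7358bd671b52507b569731483946131040ff7dc7b5ccbd6d4394c4de7585a5489c65018440ff7dc7b5ccde7585a548bd6d4394c49c65018440ff7dcbd6d47b5cc394c4de7589c6505a54818440ff7dcbd6d4de7589c6507b5cc394c45a54818440ff7dcde7587b5cc5a548bd6d49c650394c418440ff7dcde758bd6d49c6507b5cc5a548394c418440ff9eebd8e6de96a9c862ef1acad0a4ce1288c020ff9eebd8e6ef1acad0a4de96a9c862ce1288c020ff9eede96abd8e69c862ef1acce128ad0a48c020ff9eede96aef1acce128bd8e69c862ad0a48c020ff9eeef1acbd8e6ad0a4de96ace1289c8628c020ff9eeef1acde96ace128bd8e6ad0a49c8628c020ffaf67b8e6dea725a862ef2b46b0a4ce2304a020ffaf67b8e6ef2b46b0a4dea725a862ce2304a020ffaf6dea727b8e65a862ef2b4ce2306b0a44a020ffaf6dea72ef2b4ce2307b8e65a8626b0a44a020ffaf6ef2b47b8e66b0a4dea72ce2305a8624a020ffaf6ef2b4dea72ce2307b8e66b0a45a8624a020ffb7a7b96abda7239862ef3386b128ad23029020ffb7a7b96aef3386b128bda7239862ad23029020ffb7abda727b96a39862ef338ad2306b12829020ffb7abda72ef338ad2307b96a398626b12829020ffb7aef3387b96a6b128bda72ad2303986229020ffb7aef338bda72ad2307b96a6b1283986229020ffbbc7b9acbdab4398a4deb385a9289ca3018820ffbbc7b9acdeb385a928bdab4398a49ca3018820ffbbcbdab47b9ac398a4deb389ca305a92818820ffbbcbdab4deb389ca307b9ac398a45a92818820ffbbcdeb387b9ac5a928bdab49ca30398a418820ffbbcdeb38bdab49ca307b9ac5a928398a418820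

def tab (p : ℕ) : ℕ := (PT >>> (160 * p)) % 2 ^ 160
def pm (t x : ℕ) : ℕ := (t >>> (5 * x)) % 32
def sg (t a : ℕ) : ℕ := Nat.log2 (pm t (2 ^ a))

def TabOK (t : ℕ) : Prop :=
  (∀ a < 5, sg t a < 5) ∧ (∀ a < 5, ∀ b < 5, sg t a = sg t b → a = b) ∧
    ∀ x < 32, ∀ a < 5, x.testBit a = true → (pm t x).testBit (sg t a) = true

instance (t : ℕ) : Decidable (TabOK t) := by unfold TabOK; infer_instance

theorem tab_ok : ∀ p < 120, TabOK (tab p) := by decide +kernel

theorem exists_perm {p : ℕ} (hp : p < 120) : ∃ σ : Equiv.Perm (Fin 5), ∀ x < 32, ∀ a : Fin 5,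
    x.testBit a = true → (pm (tab p) x).testBit (σ a) = true := by
  obtain ⟨h1, h2, h3⟩ := tab_ok p hp
  have hinj : Function.Injective (fun a : Fin 5 => (⟨sg (tab p) a, h1 a a.2⟩ : Fin 5)) := by
    intro a b hab
    have := congrArg Fin.val hab
    exact Fin.ext (h2 a a.2 b b.2 this)
  exact ⟨Equiv.ofBijective _ (Finite.injective_iff_bijective.1 hinj), fun x hx a ha => h3 x hx a a.2 ha⟩

theorem pm_lt (t x : ℕ) : pm t x < 32 := Nat.mod_lt _ (by norm_num)

/-! ## embeddings -/

/-- byte `i` -/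
def dg (h i : ℕ) : ℕ := (h >>> (8 * i)) % 256

def mkWant (t q : ℕ) : ℕ := pm t (q % 32) + 32 * pm t (q / 32 % 32) + 1024 * (q / 1024 % 16)

def embNode (Q T : St) (t h i : ℕ) : Bool :=
  Nat.blt (dg h i) T.n &&
  (Nat.beq (mkWant t (Q.C >>> (16 * i)) &&& (T.C >>> (16 * dg h i))) (mkWant t (Q.C >>> (16 * i))) &&
  (bif tbit Q.C (16 * i + 14) then
    (Nat.blt (Q.pr i) Q.n &&
      ((tbit T.C (16 * dg h i + 14) && Nat.beq (T.pr (dg h i)) (dg h (Q.pr i))) ||
       (tbit T.C (16 * dg h (Q.pr i) + 14) && Nat.beq (T.pr (dg h (Q.pr i))) (dg h i))))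
   else true))

def embGo (Q T : St) (t h : ℕ) : ℕ → ℕ → Bool
  | 0, _ => true
  | i + 1, seen => embNode Q T t h i && (!(tbit seen (dg h i)) && embGo Q T t h i (set1 seen (dg h i)))

/-- `Q` embeds in `T` by the permutation number `p` and the node map with bytes `h` -/
def embS (Q T : St) (p h : ℕ) : Bool := Nat.blt p 120 && embGo Q T (tab p) h Q.n 0

theorem embGo_sound {Q T : St} {t h : ℕ} : ∀ {i seen : ℕ}, embGo Q T t h i seen = true →
    (∀ j < i, embNode Q T t h j = true) ∧ (∀ j < i, seen.testBit (dg h j) = false) ∧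
      ∀ j < i, ∀ l < i, dg h j = dg h l → j = l := by
  intro i
  induction i with
  | zero => intro seen _; exact ⟨by simp, by simp, by simp⟩
  | succ i ih =>
    intro seen hh
    simp only [embGo, Bool.and_eq_true, Bool.not_eq_true', tbit_eq] at hh
    obtain ⟨h1, h2, h3⟩ := hh
    obtain ⟨a1, a2, a3⟩ := ih h3
    have a2' : ∀ j < i, seen.testBit (dg h j) = false ∧ dg h j ≠ dg h i := by
      intro j hj
      have := a2 j hj
      rw [testBit_set1, Bool.or_eq_false_iff] at this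
      exact ⟨this.1, by simpa using this.2⟩
    refine ⟨?_, ?_, ?_⟩
    · intro j hj
      rcases Nat.lt_succ_iff_lt_or_eq.1 hj with hj | hj
      · exact a1 j hj
      · subst hj; exact h1
    · intro j hj
      rcases Nat.lt_succ_iff_lt_or_eq.1 hj with hj | hj
      · exact (a2' j hj).1
      · subst hj; exact h2
    · intro j hj l hl hjl
      rcases Nat.lt_succ_iff_lt_or_eq.1 hj with hj | hj <;> rcases Nat.lt_succ_iff_lt_or_eq.1 hl with hl | hl
      · exact a3 j hj l hl hjl
      · subst hl; exact absurd hjl (a2' j hj).2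
      · subst hj; exact absurd hjl.symm (a2' l hl).2
      · rw [hj, hl]

theorem want_bits {A B D : ℕ} (hA : A < 32) (hB : B < 32) (b : ℕ) :
    (b < 5 → (A + 32 * B + 1024 * D).testBit b = A.testBit b) ∧
    (b < 5 → (A + 32 * B + 1024 * D).testBit (5 + b) = B.testBit b) ∧
    ((A + 32 * B + 1024 * D).testBit (10 + b) = D.testBit b) := by
  have e : A + 32 * B + 1024 * D = 2 ^ 5 * (2 ^ 5 * D + B) + A := by ring
  have key : ∀ x, (A + 32 * B + 1024 * D).testBit x =
      if x < 5 then A.testBit x else if x - 5 < 5 then B.testBit (x - 5) else D.testBit (x - 5 - 5) := by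
    intro x
    rw [e, Nat.testBit_two_pow_mul_add _ (by simpa using hA), Nat.testBit_two_pow_mul_add _ (by simpa using hB)]
  refine ⟨fun hb => ?_, fun hb => ?_, ?_⟩
  · rw [key, if_pos hb]
  · rw [key, if_neg (by omega), if_pos (by omega), show 5 + b - 5 = b by omega]
  · rw [key, if_neg (by omega), if_neg (by omega), show 10 + b - 5 - 5 = b by omega]

theorem mod32_bit (q a : ℕ) (ha : a < 5) : (q % 32).testBit a = q.testBit a := by
  rw [show (32 : ℕ) = 2 ^ 5 from rfl, Nat.testBit_mod_two_pow]; simp [ha]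

theorem embS_sound {Q T : St} {p h : ℕ} (hh : embS Q T p h = true) :
    ∃ σ : Equiv.Perm (Fin 5), Emb 5 (toPt Q) (toPt T) (dg h) σ := by
  unfold embS at hh
  rw [Bool.and_eq_true, Nat.blt_eq] at hh
  obtain ⟨hp, hgo⟩ := hh
  obtain ⟨σ, hσ⟩ := exists_perm hp
  obtain ⟨g1, -, g3⟩ := embGo_sound hgo
  have node : ∀ i < Q.n, dg h i < T.n ∧
      (mkWant (tab p) (Q.C >>> (16 * i)) &&& (T.C >>> (16 * dg h i))) = mkWant (tab p) (Q.C >>> (16 * i)) ∧
      (Q.e i = true → Q.pr i < Q.n ∧ ((T.e (dg h i) = true ∧ T.pr (dg h i) = dg h (Q.pr i)) ∨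
        (T.e (dg h (Q.pr i)) = true ∧ T.pr (dg h (Q.pr i)) = dg h i))) := by
    intro i hi
    have := g1 i hi
    unfold embNode at this
    rw [Bool.and_eq_true, Bool.and_eq_true, Nat.blt_eq] at this
    obtain ⟨a1, a2, a3⟩ := this
    refine ⟨a1, Nat.eq_of_beq_eq_true a2, fun he => ?_⟩
    rw [tbit_eq, show Q.C.testBit (16 * i + 14) = true from he, cond_true, Bool.and_eq_true, Nat.blt_eq,
      Bool.or_eq_true, Bool.and_eq_true, Bool.and_eq_true, tbit_eq, tbit_eq] at a3
    refine ⟨a3.1, ?_⟩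
    rcases a3.2 with ⟨b1, b2⟩ | ⟨b1, b2⟩
    · exact Or.inl ⟨b1, Nat.eq_of_beq_eq_true b2⟩
    · exact Or.inr ⟨b1, Nat.eq_of_beq_eq_true b2⟩
  -- transfer of bits
  have bits : ∀ i < Q.n, ∀ b, (mkWant (tab p) (Q.C >>> (16 * i))).testBit b = true →
      T.C.testBit (16 * dg h i + b) = true := by
    intro i hi b hb
    have h2 := (node i hi).2.1
    rw [← h2, Nat.testBit_and, Bool.and_eq_true, Nat.testBit_shiftRight] at hb
    exact hb.2
  have wb := fun (i b : ℕ) => want_bits (pm_lt (tab p) ((Q.C >>> (16 * i)) % 32))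
    (pm_lt (tab p) ((Q.C >>> (16 * i)) / 32 % 32)) (D := (Q.C >>> (16 * i)) / 1024 % 16) b
  refine ⟨σ, ?_, ?_, ?_, ?_, ?_, ?_⟩
  · intro i hi; exact (node i hi).1
  · intro i hi j hj; exact g3 i hi j hj
  · intro i hi hne
    have he : Q.e i = true := by
      by_contra hc
      apply hne
      show (if Q.e i then Q.pr i else i) = i
      rw [if_neg hc]
    have hpar : (toPt Q).par i = Q.pr i := by
      show (if Q.e i then Q.pr i else i) = Q.pr i
      rw [if_pos he]
    obtain ⟨a1, a2⟩ := (node i hi).2.2 he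
    rw [hpar]
    refine ⟨a1, ?_⟩
    rcases a2 with ⟨b1, b2⟩ | ⟨b1, b2⟩
    · left
      show (if T.e (dg h i) then T.pr (dg h i) else dg h i) = dg h (Q.pr i)
      rw [if_pos b1, b2]
    · right
      show (if T.e (dg h (Q.pr i)) then T.pr (dg h (Q.pr i)) else dg h (Q.pr i)) = dg h i
      rw [if_pos b1, b2]
  · intro i hi a ha
    have ha' : Q.C.testBit (16 * i + a) = true := ha
    show T.C.testBit (16 * dg h i + (σ a : Fin 5)) = true
    apply bits i hi
    unfold mkWant
    rw [(wb i (σ a)).1 (σ a).2]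
    apply hσ _ (Nat.mod_lt _ (by norm_num))
    rw [mod32_bit _ _ a.2, Nat.testBit_shiftRight]
    exact ha'
  · intro i hi a ha
    have ha' : Q.C.testBit (16 * i + 5 + a) = true := ha
    show T.C.testBit (16 * dg h i + 5 + (σ a : Fin 5)) = true
    rw [add_assoc]
    apply bits i hi
    unfold mkWant
    rw [(wb i (σ a)).2.1 (σ a).2]
    apply hσ _ (Nat.mod_lt _ (by norm_num))
    rw [mod32_bit _ _ a.2, show (32 : ℕ) = 2 ^ 5 from rfl, ← Nat.shiftRight_eq_div_pow, Nat.testBit_shiftRight,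
      Nat.testBit_shiftRight, ← add_assoc]
    exact ha'
  · intro i hi
    have hb : ∀ t < 4, Q.C.testBit (16 * i + (10 + t)) = true → T.C.testBit (16 * dg h i + (10 + t)) = true := by
      intro t ht hq
      apply bits i hi
      unfold mkWant
      rw [(wb i t).2.2, show (16 : ℕ) = 2 ^ 4 from rfl, Nat.testBit_mod_two_pow,
        show (1024 : ℕ) = 2 ^ 10 from rfl, ← Nat.shiftRight_eq_div_pow, Nat.testBit_shiftRight, Nat.testBit_shiftRight]
      simp only [ht, decide_true, Bool.true_and]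
      exact hq
    show slotsAt Q.C i ≤ slotsAt T.C (dg h i)
    unfold slotsAt
    have c : ∀ t < 4, (Q.C.testBit (16 * i + (10 + t))).toNat ≤ (T.C.testBit (16 * dg h i + (10 + t))).toNat := by
      intro t ht
      cases hq : Q.C.testBit (16 * i + (10 + t))
      · simp
      · rw [hb t ht hq]
    have c0 := c 0 (by norm_num)
    have c1 := c 1 (by norm_num)
    have c2 := c 2 (by norm_num)
    have c3 := c 3 (by norm_num)
    simp only [← add_assoc] at c0 c1 c2 c3
    norm_num [add_assoc] at c0 c1 c2 c3 ⊢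
    omega

/-! ## expansions, trees, parents -/

/-- parents have smaller or equal indices -/
def ParLe (P : Pt) : Prop := ∀ j < P.n, P.par j ≤ j

theorem ParLe.lt {P : Pt} (h : ParLe P) : ParLt P := fun j hj => lt_of_le_of_lt (h j hj) hj

theorem ParLe.congr {P Q : Pt} (h : ParLe P) (e : EqK P Q) : ParLe Q := by
  intro j hj
  have hj' : j < P.n := by rw [e.n]; exact hj
  rw [← e.par j hj']; exact h j hj'

theorem ParLe.expand {P : Pt} (h : ParLe P) {i : ℕ} (hi : i < P.n) : ParLe (expand P i) := by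
  intro j hj
  have hj' : j < P.n + 1 := hj
  show (if j = P.n then i else P.par j) ≤ j
  split_ifs with hjn
  · omega
  · exact h j (by omega)

theorem ParLe.cut {P : Pt} (h : ParLe P) (i a : ℕ) : ParLe (cut P i a) := by
  intro j hj
  show (if j = i then i else P.par j) ≤ j
  split_ifs with hjn
  · omega
  · exact h j hj

theorem ParLe.touch {P : Pt} (h : ParLe P) (i a : ℕ) : ParLe (touch P i a) := h
theorem ParLe.drop1 {P : Pt} (h : ParLe P) (i : ℕ) : ParLe (drop1 P i) := h

/-- a claim about patterns which may be checked after expansions -/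
structure Stable (X : Pt → Prop) : Prop where
  emb : ∀ {Q P : Pt} {ψ : ℕ → ℕ} {σ : Equiv.Perm (Fin 5)}, Emb 5 Q P ψ σ → X Q → X P
  exp : ∀ {P : Pt} {i : ℕ}, i < P.n → 0 < P.m i → X (expand P i) → X P

def expGo : ℕ → ℕ → St → (St → ℕ → Bool) → Bool
  | 0, h, s, k => k s h
  | x + 1, h, s, k => Nat.blt (h % 256) s.n && (Nat.blt s.n 200 && (hasSlot s (h % 256) &&
      expGo x (h / 256) (expS s (h % 256)) k))

theorem expGo_sound {X : Pt → Prop} (hX : Stable X) {k : St → ℕ → Bool}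
    (hk : ∀ s h, k s h = true → ParLe (toPt s) → X (toPt s)) :
    ∀ (x h : ℕ) (s : St), expGo x h s k = true → ParLe (toPt s) → X (toPt s) := by
  intro x
  induction x with
  | zero => intro h s hh hp; exact hk s h hh hp
  | succ x ih =>
    intro h s hh hp
    simp only [expGo, Bool.and_eq_true, Nat.blt_eq] at hh
    obtain ⟨h1, h2, h3, h4⟩ := hh
    have hm := hasSlot_pos h3
    have e := toPt_exp h1 h2 hm
    have hp' : ParLe (toPt (expS s (h % 256))) := (hp.expand (P := toPt s) h1).congr e.symm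
    have := ih _ _ h4 hp'
    exact hX.exp (P := toPt s) h1 hm (hX.emb (e.emb hp'.lt) this)

def treeGo (s : St) : ℕ → Bool
  | 0 => true
  | j + 1 => (bif Nat.beq j 0 then !(tbit s.C 14) else (tbit s.C (16 * j + 14) && Nat.blt (s.pr j) j)) && treeGo s j

def treeS (s : St) : Bool := Nat.blt 0 s.n && treeGo s s.n

theorem treeGo_sound {s : St} : ∀ {n : ℕ}, treeGo s n = true →
    ∀ j < n, (j = 0 → s.e 0 = false) ∧ (0 < j → s.e j = true ∧ s.pr j < j) := by
  intro n
  induction n with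
  | zero => intro _ j hj; omega
  | succ n ih =>
    intro h j hj
    rw [treeGo, Bool.and_eq_true] at h
    rcases Nat.lt_succ_iff_lt_or_eq.1 hj with hj | hj
    · exact ih h.2 j hj
    · subst hj
      have h1 := h.1
      constructor
      · intro hj0
        subst hj0
        simpa [tbit_eq, St.e] using h1
      · intro hj0
        have : Nat.beq j 0 = false := by
          cases hb : Nat.beq j 0
          · rfl
          · have := Nat.eq_of_beq_eq_true hb; omega
        rw [this, cond_false, Bool.and_eq_true, Nat.blt_eq, tbit_eq] at h1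
        exact h1

theorem treeS_sound {s : St} (h : treeS s = true) : IsTreeP (toPt s) := by
  unfold treeS at h
  rw [Bool.and_eq_true, Nat.blt_eq] at h
  have := treeGo_sound h.2
  refine ⟨h.1, ?_, ?_⟩
  · show (if s.e 0 then s.pr 0 else 0) = 0
    rw [(this 0 h.1).1 rfl]; simp
  · intro j hj hj0
    have := (this j hj).2 hj0
    show (if s.e j then s.pr j else j) < j
    rw [if_pos this.1]; exact this.2

theorem IsTreeP.parLe {P : Pt} (h : IsTreeP P) : ParLe P := by
  intro j hj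
  rcases Nat.eq_zero_or_pos j with h0 | h0
  · subst h0; rw [h.2.1]
  · exact (h.2.2 j hj h0).le

/-! ## the claims of the certificate -/

structure WL (s : St) : Prop where
  w : WClaim 5 (toPt s)
  t : treeS s = true

def AL (s : St) : Prop := AClaim 5 (toPt s)

inductive AllW : List St → Prop
  | nil : AllW []
  | cons {s : St} {l : List St} : WL s → AllW l → AllW (s :: l)

theorem AllW.mem {l : List St} (h : AllW l) : ∀ s ∈ l, WL s := by
  induction h with
  | nil => simp
  | cons h1 _ ih =>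
    intro s hs
    rcases List.mem_cons.1 hs with hs | hs
    · rw [hs]; exact h1
    · exact ih s hs

def deadS (s : St) (j : ℕ) : Bool :=
  Nat.blt j s.n && (tbit s.C (16 * j + 14) && (Nat.blt (s.pr j) j &&
    Nat.beq (((s.C >>> (16 * j)) ||| (s.C >>> (16 * s.pr j))) % 32) 31))

def cutOK (s : St) (i a : ℕ) : Bool :=
  Nat.blt i s.n && (Nat.blt a 5 && (tbit s.C (16 * i + 14) && (Nat.blt (s.pr i) i &&
    (tbit s.C (16 * i + 5 + a) && tbit s.C (16 * s.pr i + 5 + a)))))

structure DeadP (P : Pt) (i : ℕ) : Prop where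
  lt : i < P.n
  ne : P.par i ≠ i
  all : ∀ a < 5, P.R i a = true ∨ P.R (P.par i) a = true

theorem deadS_sound {s : St} {j : ℕ} (h : deadS s j = true) : DeadP (toPt s) j := by
  unfold deadS at h
  simp only [Bool.and_eq_true, Nat.blt_eq, tbit_eq] at h
  obtain ⟨h1, h2, h3, h4⟩ := h
  have hpar : (toPt s).par j = s.pr j := by
    show (if s.e j then s.pr j else j) = s.pr j
    rw [if_pos (show s.e j = true from h2)]
  refine ⟨h1, by rw [hpar]; omega, ?_⟩
  intro a ha
  rw [hpar]
  show s.C.testBit (16 * j + a) = true ∨ s.C.testBit (16 * s.pr j + a) = true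
  have h5 := Nat.eq_of_beq_eq_true h4
  have h6 : (((s.C >>> (16 * j)) ||| (s.C >>> (16 * s.pr j))) % 32).testBit a = (31 : ℕ).testBit a := by rw [h5]
  rw [mod32_bit _ _ ha, Nat.testBit_or, Nat.testBit_shiftRight, Nat.testBit_shiftRight,
    show (31 : ℕ).testBit a = true by interval_cases a <;> decide, Bool.or_eq_true] at h6
  exact h6

structure CutP (P : Pt) (i a : ℕ) : Prop where
  ha : a < 5
  hi : i < P.n
  hp : P.par i ≠ i
  hpp : P.par (P.par i) ≠ i
  h1 : P.F i a = true
  h2 : P.F (P.par i) a = true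

theorem cutOK_sound {s : St} {i a : ℕ} (h : cutOK s i a = true) (hle : ParLe (toPt s)) :
    CutP (toPt s) i a ∧ EqK (toPt (cutS s i a)) (cut (toPt s) i a) ∧ (toPt s).par i = s.pr i := by
  unfold cutOK at h
  simp only [Bool.and_eq_true, Nat.blt_eq, tbit_eq] at h
  obtain ⟨h1, h2, h3, h4, h5, h6⟩ := h
  have hpar : (toPt s).par i = s.pr i := by
    show (if s.e i then s.pr i else i) = s.pr i
    rw [if_pos (show s.e i = true from h3)]
  refine ⟨⟨h2, h1, by rw [hpar]; omega, ?_, h5, ?_⟩, toPt_cut h2 h1 h3, hpar⟩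
  · rw [hpar]
    have := hle (s.pr i) (show s.pr i < s.n by omega)
    omega
  · rw [hpar]; exact h6

end Pool.Agent.GCI
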