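import Pool.Agent.Lib_helper55.GCI.PatDefs
import Pool.Agent.Lib_helper55.GCI.Game

/-!
Dead edges and Bob's moves inside a pattern (helper1).
-/

set_option autoImplicit false

namespace Pool.Agent.GCI.H1

open Pool.Agent.GCI

theorem dead_aux {k : ℕ} {P : Pt} {i : ℕ} (hi : i < P.n) (hp : P.par i ≠ i)
    (h : ∀ a < k, P.R i a = true ∨ P.R (P.par i) a = true)
    {V : Type} [Finite V] [DecidableEq V] {G : SimpleGraph V} {c : Sym2 V → Option (Fin k)}
    {π : Equiv.Perm (Fin k)} {φ : ℕ → V} {s : ℕ → ℕ → V} {K : ℕ}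
    (hM : Match G c π K P φ s) : Lost G c := by
  obtain ⟨hpn, hadj, hn⟩ := hM.edge i hi hp
  refine lost_dead' hadj hn ?_
  intro b
  rcases h (π.symm b) (π.symm b).isLt with h1 | h1
  · right
    obtain ⟨w, hw, hc⟩ := hM.colR i hi (π.symm b) h1
    exact ⟨w, hw, by simpa using hc⟩
  · left
    obtain ⟨w, hw, hc⟩ := hM.colR (P.par i) hpn (π.symm b) h1
    exact ⟨w, hw, by simpa using hc⟩

/-- an edge whose ends together see all colours: Alice loses whoever is to move -/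
theorem dead_W {k : ℕ} {P : Pt} {i : ℕ} (hi : i < P.n) (hp : P.par i ≠ i)
    (h : ∀ a < k, P.R i a = true ∨ P.R (P.par i) a = true) : WClaim k P :=
  ⟨0, fun _ _ _ _ _ _ _ _ _ _ hM => dead_aux hi hp h hM⟩

theorem dead_A {k : ℕ} {P : Pt} {i : ℕ} (hi : i < P.n) (hp : P.par i ≠ i)
    (h : ∀ a < k, P.R i a = true ∨ P.R (P.par i) a = true) : AClaim k P :=
  ⟨0, fun _ _ _ _ _ _ _ _ _ _ hM => dead_aux hi hp h hM⟩

end Pool.Agent.GCI.H1
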