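import Mathlib
/-!
# Game chromatic index of trees with maximum degree 4 (MP_1dface_co, frozen statement S07520)

Shared definitions: the game (strategy sets), half trees, good slots.
-/
set_option autoImplicit false

namespace Pool.Agent.GCI

variable {V : Type}

/-- Colour `a` is admissible for the edge `e` in the partial colouring `c`. -/
def Adm (G : SimpleGraph V) {k : ℕ} (c : Sym2 V → Option (Fin k)) (e : Sym2 V) (a : Fin k) : Prop :=
  ∀ f ∈ G.edgeSet, f ≠ e → (∃ v, v ∈ e ∧ v ∈ f) → c f ≠ some a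

/-- The closure properties required of an Alice strategy set in `S07520`. -/
def Good (G : SimpleGraph V) [DecidableEq V] {k : ℕ} (S : Set (Sym2 V → Option (Fin k))) : Prop :=
  ∀ c ∈ S,
    ((∀ e ∈ G.edgeSet, ∀ a : Fin k, c e = none →
        ¬ (∀ f ∈ G.edgeSet, f ≠ e → (∃ v, v ∈ e ∧ v ∈ f) → c f ≠ some a)) →
      ∀ e ∈ G.edgeSet, c e ≠ none) ∧
    (Even (Set.ncard {e | e ∈ G.edgeSet ∧ c e ≠ none}) →
      (∃ e ∈ G.edgeSet, ∃ a : Fin k, c e = none ∧
          (∀ f ∈ G.edgeSet, f ≠ e → (∃ v, v ∈ e ∧ v ∈ f) → c f ≠ some a)) →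
      ∃ e ∈ G.edgeSet, ∃ a : Fin k, c e = none ∧
          (∀ f ∈ G.edgeSet, f ≠ e → (∃ v, v ∈ e ∧ v ∈ f) → c f ≠ some a) ∧
          Function.update c e (some a) ∈ S) ∧
    (¬ Even (Set.ncard {e | e ∈ G.edgeSet ∧ c e ≠ none}) →
      ∀ e ∈ G.edgeSet, ∀ a : Fin k, c e = none →
          (∀ f ∈ G.edgeSet, f ≠ e → (∃ v, v ∈ e ∧ v ∈ f) → c f ≠ some a) →
          Function.update c e (some a) ∈ S)

/-- number of coloured edges -/
noncomputable def cnt (G : SimpleGraph V) {k : ℕ} (c : Sym2 V → Option (Fin k)) : ℕ :=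
  Set.ncard {e | e ∈ G.edgeSet ∧ c e ≠ none}

/-- Alice loses from `c` (whoever is to move according to the parity of the number of coloured edges). -/
def Lost (G : SimpleGraph V) [DecidableEq V] {k : ℕ} (c : Sym2 V → Option (Fin k)) : Prop :=
  ∀ S : Set (Sym2 V → Option (Fin k)), Good G S → c ∉ S

/-- `Br G v w x`: `x` lies in the half tree beyond `v → w`. -/
inductive Br (G : SimpleGraph V) (v w : V) : V → Prop
  | base : Br G v w w
  | step {x y : V} : Br G v w x → G.Adj x y → s(x, y) ≠ s(v, w) → Br G v w y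

/-- acyclicity in the form we use -/
def Acyc (G : SimpleGraph V) : Prop := ∀ v w, G.Adj v w → ¬ Br G v w v

/-- `v` has exactly 4 neighbours -/
def Deg4 (G : SimpleGraph V) (v : V) : Prop :=
  ∃ l : List V, l.Nodup ∧ l.length = 4 ∧ ∀ w, w ∈ l ↔ G.Adj v w

/-- `Slot G c K v g`: the edge `v g` is uncoloured, and the branch beyond it is full and uncoloured to depth `K`. -/
def Slot (G : SimpleGraph V) {k : ℕ} (c : Sym2 V → Option (Fin k)) : ℕ → V → V → Prop
  | 0, v, g => G.Adj v g ∧ c s(v, g) = none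
  | (K + 1), v, g => G.Adj v g ∧ c s(v, g) = none ∧ Deg4 G g ∧ ∀ h, G.Adj g h → h ≠ v → Slot G c K g h

end Pool.Agent.GCI
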