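import Pool.Agent.Lib_helper55.GCI.PatDefs
/-!
# Embeddings of patterns (helper39)
-/
set_option autoImplicit false

namespace Pool.Agent.GCI

variable {V : Type}

theorem Match.emb {G : SimpleGraph V} {k : ℕ} {c : Sym2 V → Option (Fin k)} {π : Equiv.Perm (Fin k)} {K : ℕ}
    {Q P : Pt} {φ : ℕ → V} {s : ℕ → ℕ → V} {ψ : ℕ → ℕ} {σ : Equiv.Perm (Fin k)}
    (h : Emb k Q P ψ σ) (M : Match G c π K P φ s) :
    Match G c (σ.trans π) K Q (fun i => φ (ψ i)) (fun i t => s (ψ i) t) where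
  inj i hi j hj hij := h.inj i hi j hj (M.inj _ (h.lt i hi) _ (h.lt j hj) hij)
  deg i hi := M.deg _ (h.lt i hi)
  edge i hi hp := by
    obtain ⟨hlt, hor⟩ := h.edge i hi hp
    have hne : ψ (Q.par i) ≠ ψ i := fun hh => hp (h.inj _ hlt _ hi hh)
    refine ⟨hlt, ?_⟩
    rcases hor with ho | ho
    · have := M.edge (ψ i) (h.lt i hi) (by rw [ho]; exact hne)
      rw [ho] at this
      exact ⟨this.2.1, this.2.2⟩
    · have := M.edge (ψ (Q.par i)) (h.lt _ hlt) (by rw [ho]; exact hne.symm)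
      rw [ho] at this
      exact ⟨this.2.1.symm, by rw [Sym2.eq_swap]; exact this.2.2⟩
  colR i hi a ha := M.colR _ (h.lt i hi) (σ a) (h.R i hi a ha)
  colF i hi a ha := M.colF _ (h.lt i hi) (σ a) (h.F i hi a ha)
  slot i hi t ht := M.slot _ (h.lt i hi) t (lt_of_lt_of_le ht (h.m i hi))
  away i hi t ht j hj := M.away _ (h.lt i hi) t (lt_of_lt_of_le ht (h.m i hi)) _ (h.lt j hj)
  disj i hi t ht j hj u hu hne :=
    M.disj _ (h.lt i hi) t (lt_of_lt_of_le ht (h.m i hi)) _ (h.lt j hj) u (lt_of_lt_of_le hu (h.m j hj))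
      (by
        rcases hne with hne | hne
        · exact Or.inl fun hh => hne (h.inj i hi j hj hh)
        · exact Or.inr hne)

theorem emb_W' {k : ℕ} {Q P : Pt} {ψ : ℕ → ℕ} {σ : Equiv.Perm (Fin k)} (h : Emb k Q P ψ σ)
    (hQ : WClaim k Q) : WClaim k P := by
  obtain ⟨K, hK⟩ := hQ
  exact ⟨K, fun V _ _ G c π φ s hG hc M => hK V G c _ _ _ hG hc (M.emb h)⟩

theorem emb_A' {k : ℕ} {Q P : Pt} {ψ : ℕ → ℕ} {σ : Equiv.Perm (Fin k)} (h : Emb k Q P ψ σ)
    (hQ : AClaim k Q) : AClaim k P := by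
  obtain ⟨K, hK⟩ := hQ
  exact ⟨K, fun V _ _ G c π φ s hG hc M => hK V G c _ _ _ hG hc (M.emb h)⟩

end Pool.Agent.GCI
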