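import Pool.Agent.Lib_helper55.GCI.PatDefs
import Pool.Agent.Lib_helper55.GCI.Game
import Pool.Agent.Lib_helper55.GCI.Br1

/-!
Making a good slot explicit (helper1).
-/

set_option autoImplicit false

namespace Pool.Agent.GCI.H1

open Pool.Agent.GCI

variable {V : Type} {k : ℕ} {G : SimpleGraph V} {c : Sym2 V → Option (Fin k)}
  {π : Equiv.Perm (Fin k)} {K : ℕ} {P : Pt} {φ : ℕ → V} {s : ℕ → ℕ → V}

/-- the three other neighbours of the end of a good slot -/
theorem exists_nbrs {v g : V} (hvg : G.Adj v g) (hd : Deg4 G g) :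
    ∃ r : ℕ → V, (∀ t < 3, G.Adj g (r t) ∧ r t ≠ v) ∧
      (∀ t < 3, ∀ u < 3, r t = r u → t = u) ∧ (∀ w, G.Adj g w → w = v ∨ ∃ t < 3, r t = w) := by
  classical
  obtain ⟨l, hnd, hlen, hl⟩ := hd
  have hv : v ∈ l := (hl v).2 hvg.symm
  have hlen' : (l.erase v).length = 3 := by
    rw [List.length_erase_of_mem hv, hlen]
  have hnd' : (l.erase v).Nodup := hnd.erase v
  refine ⟨fun t => (l.erase v).getD t v, ?_, ?_, ?_⟩
  · intro t ht
    have ht' : t < (l.erase v).length := by omega
    have hmem : (l.erase v).getD t v ∈ l.erase v := by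
      rw [List.getD_eq_getElem _ _ ht']
      exact List.getElem_mem ht'
    have := (hnd.mem_erase_iff).1 hmem
    exact ⟨(hl _).1 this.2, this.1⟩
  · intro t ht u hu htu
    have ht' : t < (l.erase v).length := by omega
    have hu' : u < (l.erase v).length := by omega
    simp only [List.getD_eq_getElem _ _ ht', List.getD_eq_getElem _ _ hu'] at htu
    exact (List.Nodup.getElem_inj_iff hnd').1 htu
  · intro w hw
    by_cases hwv : w = v
    · exact Or.inl hwv
    · right
      have hmem : w ∈ l.erase v := (hnd.mem_erase_iff).2 ⟨hwv, (hl w).2 hw⟩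
      obtain ⟨t, ht, htw⟩ := List.getElem_of_mem hmem
      refine ⟨t, by omega, ?_⟩
      change (l.erase v).getD t v = w
      rw [List.getD_eq_getElem _ _ ht, htw]

/-- the matched pattern after making the last good slot of node `i` explicit -/
theorem match_expand (hA : Acyc G) (hM : Match G c π (K + 1) P φ s) {i : ℕ} (hi : i < P.n)
    (hm : 0 < P.m i) {r : ℕ → V}
    (hr : ∀ t < 3, G.Adj (s i (P.m i - 1)) (r t) ∧ r t ≠ φ i)
    (hri : ∀ t < 3, ∀ u < 3, r t = r u → t = u) :
    Match G c π K (expand P i) (fun j => if j = P.n then s i (P.m i - 1) else φ j)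
      (fun j t => if j = P.n then r t else s j t) := by
  have hlast : P.m i - 1 < P.m i := by omega
  obtain ⟨hadj, hnone, hdeg, hdeep⟩ := hM.slot i hi _ hlast
  have hgne : ∀ j < P.n, φ j ≠ s i (P.m i - 1) := by
    intro j hj he
    have := hM.away i hi _ hlast j hj
    rw [he] at this
    exact this Br.base
  have hm' : ∀ j, j ≠ P.n → ∀ t, t < (expand P i).m j → t < P.m j ∧ (j ≠ i ∨ t ≠ P.m i - 1) := by
    intro j hj t ht
    change t < (if j = P.n then 3 else if j = i then P.m i - 1 else P.m j) at ht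
    rw [if_neg hj] at ht
    by_cases hji : j = i
    · rw [if_pos hji] at ht
      subst hji
      exact ⟨by omega, Or.inr (by omega)⟩
    · rw [if_neg hji] at ht
      exact ⟨ht, Or.inl hji⟩
  have hmn : (expand P i).m P.n = 3 := by
    change (if P.n = P.n then 3 else if P.n = i then P.m i - 1 else P.m P.n) = 3
    rw [if_pos rfl]
  have hlt : ∀ {j}, j < (expand P i).n → j ≠ P.n → j < P.n := by
    intro j hj hne
    change j < P.n + 1 at hj
    omega
  refine ⟨?_, ?_, ?_, ?_, ?_, ?_, ?_, ?_⟩
  · -- inj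
    intro j hj j' hj' he
    by_cases h1 : j = P.n <;> by_cases h2 : j' = P.n
    · rw [h1, h2]
    · simp only [if_pos h1, if_neg h2] at he
      exact absurd he.symm (hgne j' (hlt hj' h2))
    · simp only [if_neg h1, if_pos h2] at he
      exact absurd he (hgne j (hlt hj h1))
    · simp only [if_neg h1, if_neg h2] at he
      exact hM.inj j (hlt hj h1) j' (hlt hj' h2) he
  · -- deg
    intro j hj
    by_cases h1 : j = P.n
    · simp only [if_pos h1]; exact hdeg
    · simp only [if_neg h1]; exact hM.deg j (hlt hj h1)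
  · -- edge
    intro j hj hpj
    change (if j = P.n then i else P.par j) ≠ j at hpj
    change (if j = P.n then i else P.par j) < P.n + 1 ∧ G.Adj
      (if (if j = P.n then i else P.par j) = P.n then s i (P.m i - 1) else
        φ (if j = P.n then i else P.par j))
      (if j = P.n then s i (P.m i - 1) else φ j) ∧ c s(
      (if (if j = P.n then i else P.par j) = P.n then s i (P.m i - 1) else
        φ (if j = P.n then i else P.par j)),
      (if j = P.n then s i (P.m i - 1) else φ j)) = none
    by_cases h1 : j = P.n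
    · simp only [if_pos h1, if_neg (show i ≠ P.n by omega)]
      exact ⟨by omega, hadj, hnone⟩
    · simp only [if_neg h1] at hpj ⊢
      obtain ⟨h2, h3, h4⟩ := hM.edge j (hlt hj h1) hpj
      rw [if_neg (show P.par j ≠ P.n by omega)]
      exact ⟨by omega, h3, h4⟩
  · -- colR
    intro j hj a ha
    change (if j = P.n then false else P.R j a) = true at ha
    by_cases h1 : j = P.n
    · rw [if_pos h1] at ha; exact absurd ha (by simp)
    · rw [if_neg h1] at ha
      simp only [if_neg h1]
      exact hM.colR j (hlt hj h1) a ha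
  · -- colF
    intro j hj a ha w hw
    change (if j = P.n then true else P.F j a) = true at ha
    by_cases h1 : j = P.n
    · simp only [if_pos h1] at hw ⊢
      by_cases hwi : w = φ i
      · rw [hwi, Sym2.eq_swap, hnone]; simp
      · have := hdeep w hw hwi
        have h2 : c s(s i (P.m i - 1), w) = none := by
          cases K with
          | zero => exact this.2
          | succ K => exact this.2.1
        rw [h2]; simp
    · simp only [if_neg h1] at hw ha ⊢
      exact hM.colF j (hlt hj h1) a ha w hw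
  · -- slot
    intro j hj t ht
    by_cases h1 : j = P.n
    · rw [h1, hmn] at ht
      simp only [if_pos h1]
      exact hdeep _ (hr t ht).1 (hr t ht).2
    · simp only [if_neg h1]
      exact slot_mono (hM.slot j (hlt hj h1) t (hm' j h1 t ht).1)
  · -- away
    intro j hj t ht j' hj'
    by_cases h1 : j = P.n <;> by_cases h2 : j' = P.n
    · rw [h1, hmn] at ht
      simp only [if_pos h1, if_pos h2]
      exact hA _ _ (hr t ht).1
    · rw [h1, hmn] at ht
      simp only [if_pos h1, if_neg h2]
      intro hb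
      exact hM.away i hi _ hlast j' (hlt hj' h2) (br_sub hA hadj (hr t ht).1 (hr t ht).2 hb)
    · simp only [if_neg h1, if_pos h2]
      intro hb
      obtain ⟨h3, h4⟩ := hm' j h1 t ht
      exact hM.disj j (hlt hj h1) t h3 i hi _ hlast h4 _ ⟨hb, Br.base⟩
    · simp only [if_neg h1, if_neg h2]
      exact hM.away j (hlt hj h1) t (hm' j h1 t ht).1 j' (hlt hj' h2)
  · -- disj
    intro j hj t ht j' hj' u hu hne x
    by_cases h1 : j = P.n <;> by_cases h2 : j' = P.n
    · rw [h1, hmn] at ht
      rw [h2, hmn] at hu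
      simp only [if_pos h1, if_pos h2]
      rintro ⟨hb1, hb2⟩
      have htu : t ≠ u := by
        rcases hne with h | h
        · exact absurd (h1.trans h2.symm) h
        · exact h
      refine br_disj hA (hr t ht).1 (hr u hu).1 ?_ hb1 hb2
      intro he
      exact htu (hri t ht u hu he)
    · rw [h1, hmn] at ht
      simp only [if_pos h1, if_neg h2]
      rintro ⟨hb1, hb2⟩
      obtain ⟨h3, h4⟩ := hm' j' h2 u hu
      exact hM.disj j' (hlt hj' h2) u h3 i hi _ hlast h4 x
        ⟨hb2, br_sub hA hadj (hr t ht).1 (hr t ht).2 hb1⟩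
    · rw [h2, hmn] at hu
      simp only [if_neg h1, if_pos h2]
      rintro ⟨hb1, hb2⟩
      obtain ⟨h3, h4⟩ := hm' j h1 t ht
      exact hM.disj j (hlt hj h1) t h3 i hi _ hlast h4 x
        ⟨hb1, br_sub hA hadj (hr u hu).1 (hr u hu).2 hb2⟩
    · simp only [if_neg h1, if_neg h2]
      exact hM.disj j (hlt hj h1) t (hm' j h1 t ht).1 j' (hlt hj' h2) u (hm' j' h2 u hu).1 hne x

theorem exists_match_expand (hA : Acyc G) (hM : Match G c π (K + 1) P φ s) {i : ℕ} (hi : i < P.n)
    (hm : 0 < P.m i) : ∃ (φ' : ℕ → V) (s' : ℕ → ℕ → V), Match G c π K (expand P i) φ' s' := by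
  have hlast : P.m i - 1 < P.m i := by omega
  obtain ⟨hadj, _, hdeg, _⟩ := hM.slot i hi _ hlast
  obtain ⟨r, hr, hri, _⟩ := exists_nbrs hadj hdeg
  exact ⟨_, _, match_expand hA hM hi hm hr hri⟩

theorem expand_W {k : ℕ} {P : Pt} {i : ℕ} (hi : i < P.n) (hm : 0 < P.m i)
    (h : WClaim k (expand P i)) : WClaim k P := by
  obtain ⟨K, hK⟩ := h
  refine ⟨K + 1, ?_⟩
  intro V _ _ G c π φ s hA hodd hM
  obtain ⟨φ', s', hM'⟩ := exists_match_expand hA hM hi hm
  exact hK V G c π φ' s' hA hodd hM'

theorem expand_A {k : ℕ} {P : Pt} {i : ℕ} (hi : i < P.n) (hm : 0 < P.m i)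
    (h : AClaim k (expand P i)) : AClaim k P := by
  obtain ⟨K, hK⟩ := h
  refine ⟨K + 1, ?_⟩
  intro V _ _ G c π φ s hA heven hM
  obtain ⟨φ', s', hM'⟩ := exists_match_expand hA hM hi hm
  exact hK V G c π φ' s' hA heven hM'

end Pool.Agent.GCI.H1
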