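import Pool.Agent.Lib_helper55.GCI.PatDefs
import Pool.Agent.Lib_helper55.GCI.Ball

/-!
Final assembly (helper61): `WClaim 5 FRESH` implies the frozen statement `S07520`.
-/

set_option autoImplicit false

namespace Pool.Agent.GCI

open SimpleGraph

/-- the untouched single node with four good slots -/
def FRESH : Pt := ⟨1, fun _ => 0, fun _ _ => false, fun _ _ => true, fun _ => 4⟩

/-- an untouched vertex gives a match of `FRESH` -/
theorem match_fresh {V : Type} {G : SimpleGraph V} (hG : Acyc G) {k : ℕ}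
    {c : Sym2 V → Option (Fin k)} {K : ℕ} {u : V} (hu : Deg4 G u)
    (hs : ∀ g, G.Adj u g → Slot G c K u g) :
    ∃ s : ℕ → ℕ → V, Match G c (Equiv.refl _) K FRESH (fun _ => u) s := by
  obtain ⟨n, h1, h2, h3⟩ := hu.exists_fun
  refine ⟨fun _ t => if h : t < 4 then n ⟨t, h⟩ else u, ?_, ?_, ?_, ?_, ?_, ?_, ?_, ?_⟩
  · intro i hi j hj _
    have hi' : i < 1 := hi
    have hj' : j < 1 := hj
    omega
  · intro _ _; exact hu
  · intro i hi hp
    have hi' : i < 1 := hi
    have : FRESH.par i = 0 := rfl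
    omega
  · intro i _ a ha
    exact absurd (show false = true from ha) (by simp)
  · intro i _ a _ w hw h
    rw [(hs w hw).unc] at h
    exact absurd h (by simp)
  · intro i _ t ht
    have ht' : t < 4 := ht
    simp only [dif_pos ht']
    exact hs _ (h2 _)
  · intro i _ t ht j _ hb
    have ht' : t < 4 := ht
    simp only [dif_pos ht'] at hb
    exact hG _ _ (h2 _) hb
  · intro i hi t ht j hj t' ht' hne x hx
    have hi1 : i < 1 := hi
    have hj1 : j < 1 := hj
    have a1 : t < 4 := ht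
    have a2 : t' < 4 := ht'
    simp only [dif_pos a1, dif_pos a2] at hx
    have hne2 : t ≠ t' := by omega
    refine Br.disj hG (h2 _) (h2 _) ?_ hx.1 hx.2
    intro h
    exact hne2 (congrArg Fin.val (h1 h))

/-- Bob wins with `k ≥ 1` colours if he wins from an untouched vertex. -/
theorem lost_of_fresh {k : ℕ} (h : WClaim k FRESH) : ∃ K : ℕ, ∀ (V : Type) [Finite V]
    [DecidableEq V] (G : SimpleGraph V), Acyc G → (∃ v, Deg4 G v) →
    (∀ (c : Sym2 V → Option (Fin k)) (e0 : Sym2 V), (∀ e, e ≠ e0 → c e = none) →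
      ∃ u, Deg4 G u ∧ ∀ g, G.Adj u g → Slot G c K u g) →
    Lost G (fun _ => none : Sym2 V → Option (Fin k)) := by
  obtain ⟨K, hK⟩ := h
  refine ⟨K, ?_⟩
  intro V _ _ G hG hdeg hfr
  obtain ⟨v, hv⟩ := hdeg
  obtain ⟨n, _, h2, _⟩ := hv.exists_fun
  refine lost_of_alice (by rw [cnt_none]; exact Even.zero) ⟨s(v, n 0), h2 0, rfl⟩ ?_
  intro e he a hn _
  have hodd : ¬ Even (cnt G (Function.update (fun _ => none : Sym2 V → Option (Fin k)) e (some a))) := by
    rw [even_cnt_update he rfl, cnt_none]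
    simp
  obtain ⟨u, hu, hs⟩ := hfr (Function.update (fun _ => none) e (some a)) e (by
    intro f hf
    rw [Function.update_of_ne hf])
  obtain ⟨s, hs⟩ := match_fresh hG hu hs
  exact hK V G _ _ _ s hG hodd hs

/-- The frozen statement from the single claim. -/
theorem main_of_fresh (h5 : WClaim 5 FRESH) :
    ¬ (∀ (V : Type) [Fintype V] [DecidableEq V] (G : SimpleGraph V) [DecidableRel G.Adj],
    G.IsTree → G.maxDegree = 4 →
    ∃ k : ℕ, k ≤ 5 ∧ ∃ S : Set (Sym2 V → Option (Fin k)),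
      (fun _ => none) ∈ S ∧
      ∀ c ∈ S,
        ((∀ e ∈ G.edgeSet, ∀ a : Fin k, c e = none →
            ¬ (∀ f ∈ G.edgeSet, f ≠ e → (∃ v, v ∈ e ∧ v ∈ f) → c f ≠ some a)) →
          ∀ e ∈ G.edgeSet, c e ≠ none) ∧
        (Even (Set.ncard {e | e ∈ G.edgeSet ∧ c e ≠ none}) →
          (∃ e ∈ G.edgeSet, ∃ a : Fin k, c e = none ∧
              (∀ f ∈ G.edgeSet, f ≠ e → (∃ v, v ∈ e ∧ v ∈ f) → c f ≠ some a)) →
          ∃ e ∈ G.edgeSet, ∃ a : Fin k, c e = none ∧
              (∀ f ∈ G.edgeSet, f ≠ e → (∃ v, v ∈ e ∧ v ∈ f) → c f ≠ some a) ∧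
              Function.update c e (some a) ∈ S) ∧
        (¬ Even (Set.ncard {e | e ∈ G.edgeSet ∧ c e ≠ none}) →
          ∀ e ∈ G.edgeSet, ∀ a : Fin k, c e = none →
              (∀ f ∈ G.edgeSet, f ≠ e → (∃ v, v ∈ e ∧ v ∈ f) → c f ≠ some a) →
              Function.update c e (some a) ∈ S)) := by
  intro H
  obtain ⟨K, hK⟩ := lost_of_fresh h5
  obtain ⟨V, i1, i2, G, i3, hT, hmax, hA, hdeg, hfr, hfew⟩ := ball K
  obtain ⟨k, hk, S, hmem, hS⟩ := H V G hT hmax
  rcases Nat.lt_or_ge k 5 with h | h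
  · exact hfew k (by omega) S hS hmem
  · have : k = 5 := by omega
    subst this
    exact hK V G hA hdeg (fun c e0 hc => hfr c e0 hc) S hS hmem

end Pool.Agent.GCI
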