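import Pool.Agent.Lib_helper55.GCI.Defs
/-!
# Patterns (partially specified positions) and claims
-/
set_option autoImplicit false

namespace Pool.Agent.GCI

/-- A (decoded) pattern: a rooted forest with `n` nodes; `par j` is the parent of node `j` (`par j = j` for roots).
`R j a`: colour `a` is present at node `j`; `F j a`: colour `a` is absent at node `j`; `m j`: number of good slots
of node `j` (uncoloured edges to vertices outside the pattern, beyond which everything is uncoloured to a certain depth).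
Nothing else is specified. All edges `j — par j` are uncoloured. Only indices `< n` matter. -/
structure Pt where
  n : ℕ
  par : ℕ → ℕ
  R : ℕ → ℕ → Bool
  F : ℕ → ℕ → Bool
  m : ℕ → ℕ

/-- `φ` places the nodes, `s i t` (`t < m i`) are the good slots of node `i`, `π` names the colours. -/
structure Match {V : Type} (G : SimpleGraph V) {k : ℕ} (c : Sym2 V → Option (Fin k)) (π : Equiv.Perm (Fin k))
    (K : ℕ) (P : Pt) (φ : ℕ → V) (s : ℕ → ℕ → V) : Prop where
  inj : ∀ i < P.n, ∀ j < P.n, φ i = φ j → i = j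
  deg : ∀ i < P.n, Deg4 G (φ i)
  edge : ∀ i < P.n, P.par i ≠ i → P.par i < P.n ∧ G.Adj (φ (P.par i)) (φ i) ∧ c s(φ (P.par i), φ i) = none
  colR : ∀ i < P.n, ∀ a : Fin k, P.R i a = true → ∃ w, G.Adj (φ i) w ∧ c s(φ i, w) = some (π a)
  colF : ∀ i < P.n, ∀ a : Fin k, P.F i a = true → ∀ w, G.Adj (φ i) w → c s(φ i, w) ≠ some (π a)
  slot : ∀ i < P.n, ∀ t < P.m i, Slot G c K (φ i) (s i t)
  away : ∀ i < P.n, ∀ t < P.m i, ∀ j < P.n, ¬ Br G (φ i) (s i t) (φ j)
  disj : ∀ i < P.n, ∀ t < P.m i, ∀ j < P.n, ∀ u < P.m j, (i ≠ j ∨ t ≠ u) →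
    ∀ x, ¬ (Br G (φ i) (s i t) x ∧ Br G (φ j) (s j u) x)

/-- the pattern is a tree with root `0` and parents before children -/
def IsTreeP (P : Pt) : Prop := 0 < P.n ∧ P.par 0 = 0 ∧ ∀ j < P.n, 0 < j → P.par j < j

/-- Bob to move, pattern `P` present (good slots of a sufficient depth `K`): Alice loses. -/
def WClaim (k : ℕ) (P : Pt) : Prop :=
  ∃ K : ℕ, ∀ (V : Type) [Finite V] [DecidableEq V] (G : SimpleGraph V) (c : Sym2 V → Option (Fin k))
    (π : Equiv.Perm (Fin k)) (φ : ℕ → V) (s : ℕ → ℕ → V),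
    Acyc G → ¬ Even (cnt G c) → Match G c π K P φ s → Lost G c

/-- Alice to move, pattern `P` present: Alice loses. -/
def AClaim (k : ℕ) (P : Pt) : Prop :=
  ∃ K : ℕ, ∀ (V : Type) [Finite V] [DecidableEq V] (G : SimpleGraph V) (c : Sym2 V → Option (Fin k))
    (π : Equiv.Perm (Fin k)) (φ : ℕ → V) (s : ℕ → ℕ → V),
    Acyc G → Even (cnt G c) → Match G c π K P φ s → Lost G c

/-- make the last good slot of node `i` an explicit node (index `n`) -/
def expand (P : Pt) (i : ℕ) : Pt where
  n := P.n + 1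
  par j := if j = P.n then i else P.par j
  R j a := if j = P.n then false else P.R j a
  F j a := if j = P.n then true else P.F j a
  m j := if j = P.n then 3 else if j = i then P.m i - 1 else P.m j

/-- colour the edge `i — par i` with `a` -/
def cut (P : Pt) (i a : ℕ) : Pt where
  n := P.n
  par j := if j = i then i else P.par j
  R j b := P.R j b || ((j == i || j == P.par i) && b == a)
  F j b := P.F j b && !((j == i || j == P.par i) && b == a)
  m j := P.m j

/-- colour an unspecified edge at node `i` with `a` -/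
def touch (P : Pt) (i a : ℕ) : Pt where
  n := P.n
  par := P.par
  R j b := P.R j b || (j == i && b == a)
  F j b := P.F j b && !(j == i && b == a)
  m := P.m

/-- forget one good slot of node `i` -/
def drop1 (P : Pt) (i : ℕ) : Pt where
  n := P.n
  par := P.par
  R := P.R
  F := P.F
  m j := if j = i then P.m i - 1 else P.m j

/-- `Q` embeds in `P` by the node map `ψ` and the renaming of colours `σ` -/
structure Emb (k : ℕ) (Q P : Pt) (ψ : ℕ → ℕ) (σ : Equiv.Perm (Fin k)) : Prop where
  lt : ∀ i < Q.n, ψ i < P.n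
  inj : ∀ i < Q.n, ∀ j < Q.n, ψ i = ψ j → i = j
  edge : ∀ i < Q.n, Q.par i ≠ i → Q.par i < Q.n ∧
    (P.par (ψ i) = ψ (Q.par i) ∨ P.par (ψ (Q.par i)) = ψ i)
  R : ∀ i < Q.n, ∀ a : Fin k, Q.R i a = true → P.R (ψ i) (σ a) = true
  F : ∀ i < Q.n, ∀ a : Fin k, Q.F i a = true → P.F (ψ i) (σ a) = true
  m : ∀ i < Q.n, Q.m i ≤ P.m (ψ i)

/-- number of pattern edges at node `i` -/
def degP (P : Pt) (i : ℕ) : ℕ :=
  (if P.par i = i then 0 else 1) + ((List.range P.n).countP fun j => P.par j = i ∧ j ≠ i)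

/-- number of colours known to be present at node `i` -/
def cntR (k : ℕ) (P : Pt) (i : ℕ) : ℕ := (List.range k).countP fun a => P.R i a

end Pool.Agent.GCI
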