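import Pool.Agent.Lib_helper55.GCI.Check
import Pool.Agent.Lib_helper55.GCI.AliceRule
import Pool.Agent.Lib_helper55.GCI.Expand
import Pool.Agent.Lib_helper55.GCI.Dead
/-!
# The rules of the certificate
-/
set_option autoImplicit false

namespace Pool.Agent.GCI

theorem stableW : Stable (WClaim 5) where
  emb := emb_W'
  exp := H1.expand_W

theorem stableA : Stable (AClaim 5) where
  emb := emb_A'
  exp := H1.expand_A

/-! ## Bob's moves -/

def kWD (s : St) (h : ℕ) : Bool :=
  cutOK s (h % 256) (h / 256 % 256) && deadS (cutS s (h % 256) (h / 256 % 256)) (h / 65536 % 256)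

def chkWD (s : St) (h : ℕ) : Bool := treeS s && expGo (h % 256) (h / 256) s kWD

def kWA (Q s : St) (h : ℕ) : Bool :=
  cutOK s (h % 256) (h / 256 % 256) &&
    embS Q (cutS s (h % 256) (h / 256 % 256)) (h / 65536 % 256) (h / 16777216)

def chkWA (s Q : St) (h : ℕ) : Bool := treeS s && expGo (h % 256) (h / 256) s (kWA Q)

/-- bytes: `i`, `a`, `p₁`, `j₁`, `p₂`, `j₂`, then the node maps -/
def kWB (Q₁ Q₂ s : St) (h : ℕ) : Bool :=
  cutOK s (h % 256) (h / 256 % 256) && ((Nat.blt 1 Q₁.n || hasSlot Q₁ 0) &&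
  (embS Q₁ (cutS s (h % 256) (h / 256 % 256)) (dg h 2) (h >>> 48) &&
  (Nat.blt (dg h 3) Q₁.n && (Nat.beq (dg (h >>> 48) (dg h 3)) (s.pr (h % 256)) &&
  (embS Q₂ (cutS s (h % 256) (h / 256 % 256)) (dg h 4) (h >>> (48 + 8 * Q₁.n)) &&
  (Nat.blt (dg h 5) Q₂.n && Nat.beq (dg (h >>> (48 + 8 * Q₁.n)) (dg h 5)) (h % 256)))))))

def chkWB (s Q₁ Q₂ : St) (h : ℕ) : Bool := treeS s && expGo (h % 256) (h / 256) s (kWB Q₁ Q₂)

theorem ruleWD {s : St} (h : ℕ) (hc : chkWD s h = true) : WL s := by
  unfold chkWD at hc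
  rw [Bool.and_eq_true] at hc
  refine ⟨expGo_sound stableW ?_ _ _ _ hc.2 (treeS_sound hc.1).parLe, hc.1⟩
  intro s h hk hp
  unfold kWD at hk
  rw [Bool.and_eq_true] at hk
  obtain ⟨c, e, hpar⟩ := cutOK_sound hk.1 hp
  have d := deadS_sound hk.2
  refine cut_W' c.ha c.hi c.hp c.hpp c.h1 c.h2 (e.A ?_ (H1.dead_A d.lt d.ne d.all))
  exact ((hp.cut _ _).congr e.symm).lt

theorem ruleWA {s Q : St} (hQ : AL Q) (h : ℕ) (hc : chkWA s Q h = true) : WL s := by
  unfold chkWA at hc
  rw [Bool.and_eq_true] at hc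
  refine ⟨expGo_sound stableW ?_ _ _ _ hc.2 (treeS_sound hc.1).parLe, hc.1⟩
  intro s h hk hp
  unfold kWA at hk
  rw [Bool.and_eq_true] at hk
  obtain ⟨c, e, hpar⟩ := cutOK_sound hk.1 hp
  obtain ⟨σ, em⟩ := embS_sound hk.2
  refine cut_W' c.ha c.hi c.hp c.hpp c.h1 c.h2 (e.A ?_ (emb_A' em hQ))
  exact ((hp.cut _ _).congr e.symm).lt

theorem hasSlot_of_pos {s : St} {i : ℕ} (h : 0 < slotsAt s.C i) : hasSlot s i = true := by
  by_contra hc
  unfold hasSlot at hc
  have h0 : (s.C >>> (16 * i + 10)) % 16 = 0 := by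
    simp only [Bool.not_eq_true, Bool.not_eq_false'] at hc
    exact Nat.eq_of_beq_eq_true hc
  have hb : ∀ t < 4, s.C.testBit (16 * i + 10 + t) = false := by
    intro t ht
    have : ((s.C >>> (16 * i + 10)) % 16).testBit t = (0 : ℕ).testBit t := by rw [h0]
    rw [show (16 : ℕ) = 2 ^ 4 from rfl, Nat.testBit_mod_two_pow, Nat.testBit_shiftRight] at this
    simpa [ht] using this
  unfold slotsAt at h
  have b0 := hb 0 (by norm_num)
  have b1 := hb 1 (by norm_num)
  have b2 := hb 2 (by norm_num)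
  have b3 := hb 3 (by norm_num)
  simp only [add_assoc] at b0 b1 b2 b3
  norm_num at b0 b1 b2 b3
  rw [b0, b1, b2, b3] at h
  simp at h

theorem ruleWB {s Q₁ Q₂ : St} (w₁ : WL Q₁) (w₂ : WL Q₂) (h : ℕ) (hc : chkWB s Q₁ Q₂ h = true) : WL s := by
  unfold chkWB at hc
  rw [Bool.and_eq_true] at hc
  refine ⟨expGo_sound stableW ?_ _ _ _ hc.2 (treeS_sound hc.1).parLe, hc.1⟩
  intro s h hk hp
  unfold kWB at hk
  simp only [Bool.and_eq_true, Nat.blt_eq, Bool.or_eq_true] at hk
  obtain ⟨k1, k2, k3, k4, k5, k6, k7, k8⟩ := hk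
  obtain ⟨c, e, hpar⟩ := cutOK_sound k1 hp
  obtain ⟨σ₁, e₁⟩ := embS_sound k3
  obtain ⟨σ₂, e₂⟩ := embS_sound k6
  have hl : ParLt (toPt (cutS s (h % 256) (h / 256 % 256))) := ((hp.cut _ _).congr e.symm).lt
  have trans : ∀ {Q : St} {ψ : ℕ → ℕ} {σ : Equiv.Perm (Fin 5)},
      Emb 5 (toPt Q) (toPt (cutS s (h % 256) (h / 256 % 256))) ψ σ →
      Emb 5 (toPt Q) (cut (toPt s) (h % 256) (h / 256 % 256)) ψ σ := by
    intro Q ψ σ em
    refine ⟨?_, em.inj, ?_, ?_, ?_, ?_⟩
    · intro i hi; have := em.lt i hi; rw [e.n] at this; exact this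
    · intro i hi hne
      obtain ⟨a1, a2⟩ := em.edge i hi hne
      refine ⟨a1, ?_⟩
      rw [← e.par _ (em.lt i hi), ← e.par _ (em.lt _ a1)]
      exact a2
    · intro i hi a ha
      rw [← e.R _ (em.lt i hi) _ (σ a).2]; exact em.R i hi a ha
    · intro i hi a ha
      rw [← e.F _ (em.lt i hi) _ (σ a).2]; exact em.F i hi a ha
    · intro i hi
      rw [← e.m _ (em.lt i hi)]; exact em.m i hi
  refine cutB_W' c.ha c.hi c.hp c.hpp c.h1 c.h2 (treeS_sound w₁.t) (treeS_sound w₂.t) ?_ (trans e₁) (trans e₂)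
    ⟨dg h 3, k4, ?_⟩ ⟨dg h 5, k7, Nat.eq_of_beq_eq_true k8⟩ w₁.w w₂.w
  · rcases k2 with k2 | k2
    · exact Or.inl k2
    · exact Or.inr (hasSlot_pos k2)
  · rw [hpar]; exact Nat.eq_of_beq_eq_true k5

/-! ## Alice's moves -/

def getR : List St → ℕ → Option St
  | [], _ => none
  | s :: _, 0 => some s
  | _ :: l, n + 1 => getR l n

theorem getR_mem : ∀ {l : List St} {n : ℕ} {s : St}, getR l n = some s → s ∈ l
  | [], _, _, h => by simp [getR] at h
  | a :: l, 0, s, h => by simp only [getR, Option.some.injEq] at h; simp [h]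
  | a :: l, n + 1, s, h => List.mem_cons_of_mem _ (getR_mem (l := l) (by simpa [getR] using h))

/-- hint: byte 0 = index of the reference (255: dead edge, node in byte 1), byte 1 = permutation,
byte 2 = number of expansions, then the expansions and the node map -/
def chkRef (refs : List St) (T : St) (h : ℕ) : Bool :=
  bif Nat.beq (h % 256) 255 then deadS T (h / 256 % 256) else
  match getR refs (h % 256) with
  | some Q => expGo (h / 65536 % 256) (h / 16777216) T (fun T' g => embS Q T' (h / 256 % 256) g)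
  | none => false

theorem chkRef_sound {refs : List St} (hr : AllW refs) {T : St} {h : ℕ} (hc : chkRef refs T h = true)
    (hp : ParLe (toPt T)) : WClaim 5 (toPt T) := by
  unfold chkRef at hc
  cases hb : Nat.beq (h % 256) 255
  · rw [hb, cond_false] at hc
    cases hg : getR refs (h % 256) with
    | none => rw [hg] at hc; simp at hc
    | some Q =>
      rw [hg] at hc
      simp only at hc
      have hQ := hr.mem _ (getR_mem hg)
      refine expGo_sound stableW ?_ _ _ _ hc hp
      intro s g hk _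
      obtain ⟨σ, em⟩ := embS_sound hk
      exact emb_W' em hQ.w
  · rw [hb, cond_true] at hc
    have d := deadS_sound hc
    exact H1.dead_W d.lt d.ne d.all

def chkAll (refs : List St) : List St → ℕ → Bool
  | [], _ => true
  | T :: l, H => chkRef refs T (H % 2 ^ 192) && chkAll refs l (H >>> 192)

theorem chkAll_sound {refs : List St} (hr : AllW refs) : ∀ {l : List St} {H : ℕ}, chkAll refs l H = true →
    (∀ T ∈ l, ParLe (toPt T)) → ∀ T ∈ l, WClaim 5 (toPt T)
  | [], _, _, _, T, hT => by simp at hT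
  | S :: l, H, hc, hp, T, hT => by
    rw [chkAll, Bool.and_eq_true] at hc
    rcases List.mem_cons.1 hT with hT | hT
    · subst hT; exact chkRef_sound hr hc.1 (hp _ List.mem_cons_self)
    · exact chkAll_sound hr hc.2 (fun T hT => hp T (List.mem_cons_of_mem _ hT)) T hT

def cols : List ℕ := [0, 1, 2, 3, 4]

theorem mem_cols {a : ℕ} (h : a < 5) : a ∈ cols := by
  interval_cases a <;> simp [cols]

theorem lt_of_mem_cols {a : ℕ} (h : a ∈ cols) : a < 5 := by
  simp only [cols, List.mem_cons, List.not_mem_nil, or_false] at h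
  omega

def clsA1 (s : St) : List St := (List.range s.n).flatMap fun i =>
  bif Nat.beq i 0 then [] else cols.flatMap fun a =>
    bif tbit s.C (16 * i + a) || tbit s.C (16 * s.pr i + a) then [] else [cutS s i a]

def clsA2 (s : St) : List St := (List.range s.n).flatMap fun i =>
  bif decide (cntR 5 (toPt s) i + degP (toPt s) i + (toPt s).m i < 4) then
    cols.flatMap fun a => bif tbit s.C (16 * i + 5 + a) then [touchS s i a] else []
  else []

def clsA3 (s : St) : List St := (List.range s.n).flatMap fun i =>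
  bif hasSlot s i then cols.flatMap fun a =>
    bif tbit s.C (16 * i + a) then [] else [cutS (expS s i) s.n a]
  else []

def clsA4 (s : St) : List St := (List.range s.n).flatMap fun i =>
  bif hasSlot s i then cols.flatMap fun a => [touchS (dropS (expS s i) s.n) s.n a] else []

def clsA5 (s : St) : List St := (List.range s.n).flatMap fun i =>
  bif hasSlot s i then [dropS (expS s i) s.n] else []

def chkA (s : St) (refs : List St) (H : ℕ) : Bool :=
  treeS s && (Nat.blt s.n 200 && ((Nat.blt 1 s.n || hasSlot s 0) &&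
    chkAll refs (s :: (clsA1 s ++ (clsA2 s ++ (clsA3 s ++ (clsA4 s ++ clsA5 s))))) H))

theorem expS_facts {s : St} {i : ℕ} (hi : i < s.n) (hn : s.n < 200) (h : 0 < slotsAt s.C i) :
    (expS s i).e s.n = true ∧ slotsAt (expS s i).C s.n = 3 ∧ (expS s i).pr s.n = i := by
  have e := toPt_exp hi hn h
  have hnn : s.n < (toPt (expS s i)).n := Nat.lt_succ_self _
  have h1 : (expand (toPt s) i).m s.n = 3 := by
    show (if s.n = s.n then 3 else _) = 3
    rw [if_pos rfl]
  have h2 : (expand (toPt s) i).par s.n = i := by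
    show (if s.n = s.n then i else _) = i
    rw [if_pos rfl]
  have h3 := e.m s.n hnn
  have h4 := e.par s.n hnn
  rw [h1] at h3
  rw [h2] at h4
  have h5 : (if (expS s i).e s.n then (expS s i).pr s.n else s.n) = i := h4
  have he : (expS s i).e s.n = true := by
    by_contra hc
    rw [if_neg hc] at h5
    omega
  rw [if_pos he] at h5
  exact ⟨he, h3, h5⟩

theorem ruleA {s : St} {refs : List St} (hr : AllW refs) (H : ℕ) (hc : chkA s refs H = true) : AL s := by
  unfold chkA at hc
  simp only [Bool.and_eq_true, Nat.blt_eq, Bool.or_eq_true] at hc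
  obtain ⟨h1, h2, h3, h4⟩ := hc
  have T := treeS_sound h1
  have hle := T.parLe
  have htree := treeGo_sound (by unfold treeS at h1; rw [Bool.and_eq_true] at h1; exact h1.2)
  -- the states are fine
  have epar : ∀ i < s.n, 0 < i → (toPt s).par i = s.pr i := by
    intro i hi h0
    show (if s.e i then s.pr i else i) = s.pr i
    rw [if_pos ((htree i hi).2 h0).1]
  have E1 : ∀ i < s.n, 0 < i → ∀ a < 5, EqK (toPt (cutS s i a)) (cut (toPt s) i a) := by
    intro i hi h0 a ha
    exact toPt_cut ha hi ((htree i hi).2 h0).1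
  have E3 : ∀ i < s.n, 0 < slotsAt s.C i → ∀ a < 5,
      EqK (toPt (cutS (expS s i) s.n a)) (cut (expand (toPt s) i) s.n a) := by
    intro i hi hm a ha
    have f := expS_facts hi h2 hm
    have hnn : s.n < (expS s i).n := Nat.lt_succ_self _
    exact (toPt_cut ha hnn f.1).trans ((toPt_exp hi h2 hm).cut hnn a)
  have E5 : ∀ i < s.n, 0 < slotsAt s.C i →
      EqK (toPt (dropS (expS s i) s.n)) (drop1 (expand (toPt s) i) s.n) := by
    intro i hi hm
    have f := expS_facts hi h2 hm
    have hnn : s.n < (expS s i).n := Nat.lt_succ_self _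
    exact (toPt_drop (by rw [f.2.1]; norm_num)).trans ((toPt_exp hi h2 hm).drop1 hnn)
  have E4 : ∀ i < s.n, 0 < slotsAt s.C i → ∀ a < 5,
      EqK (toPt (touchS (dropS (expS s i) s.n) s.n a)) (touch (drop1 (expand (toPt s) i) s.n) s.n a) := by
    intro i hi hm a ha
    exact (toPt_touch ha).trans ((E5 i hi hm).touch _ _)
  -- membership
  have M1 : ∀ i < s.n, 0 < i → ∀ a < 5, s.C.testBit (16 * i + a) = false → s.C.testBit (16 * s.pr i + a) = false →
      cutS s i a ∈ clsA1 s := by
    intro i hi h0 a ha r1 r2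
    unfold clsA1
    rw [List.mem_flatMap]
    refine ⟨i, List.mem_range.2 hi, ?_⟩
    have : Nat.beq i 0 = false := by
      cases hb : Nat.beq i 0
      · rfl
      · have := Nat.eq_of_beq_eq_true hb; omega
    rw [this, cond_false, List.mem_flatMap]
    refine ⟨a, mem_cols ha, ?_⟩
    rw [tbit_eq, tbit_eq, r1, r2]
    simp
  have M2 : ∀ i < s.n, cntR 5 (toPt s) i + degP (toPt s) i + (toPt s).m i < 4 → ∀ a < 5,
      s.C.testBit (16 * i + 5 + a) = true → touchS s i a ∈ clsA2 s := by
    intro i hi hcap a ha r1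
    unfold clsA2
    rw [List.mem_flatMap]
    refine ⟨i, List.mem_range.2 hi, ?_⟩
    rw [decide_eq_true hcap, cond_true, List.mem_flatMap]
    refine ⟨a, mem_cols ha, ?_⟩
    rw [tbit_eq, r1]
    simp
  have M3 : ∀ i < s.n, 0 < slotsAt s.C i → ∀ a < 5, s.C.testBit (16 * i + a) = false →
      cutS (expS s i) s.n a ∈ clsA3 s := by
    intro i hi hm a ha r1
    unfold clsA3
    rw [List.mem_flatMap]
    refine ⟨i, List.mem_range.2 hi, ?_⟩
    rw [hasSlot_of_pos hm, cond_true, List.mem_flatMap]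
    refine ⟨a, mem_cols ha, ?_⟩
    rw [tbit_eq, r1]
    simp
  have M4 : ∀ i < s.n, 0 < slotsAt s.C i → ∀ a < 5, touchS (dropS (expS s i) s.n) s.n a ∈ clsA4 s := by
    intro i hi hm a ha
    unfold clsA4
    rw [List.mem_flatMap]
    refine ⟨i, List.mem_range.2 hi, ?_⟩
    rw [hasSlot_of_pos hm, cond_true, List.mem_flatMap]
    exact ⟨a, mem_cols ha, by simp⟩
  have M5 : ∀ i < s.n, 0 < slotsAt s.C i → dropS (expS s i) s.n ∈ clsA5 s := by
    intro i hi hm
    unfold clsA5
    rw [List.mem_flatMap]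
    refine ⟨i, List.mem_range.2 hi, ?_⟩
    rw [hasSlot_of_pos hm, cond_true]
    simp
  -- all states have ordered parents
  have PL : ∀ T ∈ s :: (clsA1 s ++ (clsA2 s ++ (clsA3 s ++ (clsA4 s ++ clsA5 s)))), ParLe (toPt T) := by
    intro T hT
    simp only [List.mem_cons, List.mem_append] at hT
    rcases hT with hT | hT | hT | hT | hT | hT
    · rw [hT]; exact hle
    · unfold clsA1 at hT
      rw [List.mem_flatMap] at hT
      obtain ⟨i, hi, hT⟩ := hT
      rw [List.mem_range] at hi
      cases hb : Nat.beq i 0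
      · rw [hb, cond_false, List.mem_flatMap] at hT
        obtain ⟨a, ha, hT⟩ := hT
        have h0 : 0 < i := by
          rcases Nat.eq_zero_or_pos i with h | h
          · subst h; simp at hb
          · exact h
        cases hb2 : (tbit s.C (16 * i + a) || tbit s.C (16 * s.pr i + a))
        · rw [hb2, cond_false, List.mem_singleton] at hT
          rw [hT]
          exact (hle.cut i a).congr (E1 i hi h0 a (lt_of_mem_cols ha)).symm
        · rw [hb2, cond_true] at hT; simp at hT
      · rw [hb, cond_true] at hT; simp at hT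
    · unfold clsA2 at hT
      rw [List.mem_flatMap] at hT
      obtain ⟨i, hi, hT⟩ := hT
      rw [List.mem_range] at hi
      cases hb : decide (cntR 5 (toPt s) i + degP (toPt s) i + (toPt s).m i < 4)
      · rw [hb, cond_false] at hT; simp at hT
      · rw [hb, cond_true, List.mem_flatMap] at hT
        obtain ⟨a, ha, hT⟩ := hT
        cases hb2 : tbit s.C (16 * i + 5 + a)
        · rw [hb2, cond_false] at hT; simp at hT
        · rw [hb2, cond_true, List.mem_singleton] at hT
          rw [hT]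
          exact (hle.touch i a).congr (toPt_touch (lt_of_mem_cols ha)).symm
    · unfold clsA3 at hT
      rw [List.mem_flatMap] at hT
      obtain ⟨i, hi, hT⟩ := hT
      rw [List.mem_range] at hi
      cases hb : hasSlot s i
      · rw [hb, cond_false] at hT; simp at hT
      · rw [hb, cond_true, List.mem_flatMap] at hT
        obtain ⟨a, ha, hT⟩ := hT
        cases hb2 : tbit s.C (16 * i + a)
        · rw [hb2, cond_false, List.mem_singleton] at hT
          rw [hT]
          exact (((hle.expand (P := toPt s) hi)).cut s.n a).congr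
            (E3 i hi (hasSlot_pos hb) a (lt_of_mem_cols ha)).symm
        · rw [hb2, cond_true] at hT; simp at hT
    · unfold clsA4 at hT
      rw [List.mem_flatMap] at hT
      obtain ⟨i, hi, hT⟩ := hT
      rw [List.mem_range] at hi
      cases hb : hasSlot s i
      · rw [hb, cond_false] at hT; simp at hT
      · rw [hb, cond_true, List.mem_flatMap] at hT
        obtain ⟨a, ha, hT⟩ := hT
        rw [List.mem_singleton] at hT
        rw [hT]
        exact (((hle.expand (P := toPt s) hi).drop1 s.n).touch s.n a).congr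
          (E4 i hi (hasSlot_pos hb) a (lt_of_mem_cols ha)).symm
    · unfold clsA5 at hT
      rw [List.mem_flatMap] at hT
      obtain ⟨i, hi, hT⟩ := hT
      rw [List.mem_range] at hi
      cases hb : hasSlot s i
      · rw [hb, cond_false] at hT; simp at hT
      · rw [hb, cond_true, List.mem_singleton] at hT
        rw [hT]
        exact ((hle.expand (P := toPt s) hi).drop1 s.n).congr (E5 i hi (hasSlot_pos hb)).symm
  have W := chkAll_sound hr h4 PL
  have lt1 : ∀ {T : St}, T ∈ s :: (clsA1 s ++ (clsA2 s ++ (clsA3 s ++ (clsA4 s ++ clsA5 s)))) →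
      ParLt (toPt T) := fun hT => (PL _ hT).lt
  refine A_sound' T ?_ ?_ ?_ ?_ ?_ ?_ ?_
  · rcases h3 with h3 | h3
    · exact Or.inl h3
    · exact Or.inr (hasSlot_pos h3)
  · exact W s List.mem_cons_self
  · intro i hi h0 a ha r1 r2
    rw [epar i hi h0] at r2
    have hm : cutS s i a ∈ s :: (clsA1 s ++ (clsA2 s ++ (clsA3 s ++ (clsA4 s ++ clsA5 s)))) := by
      simp only [List.mem_cons, List.mem_append]
      exact Or.inr (Or.inl (M1 i hi h0 a ha r1 r2))
    exact (E1 i hi h0 a ha).W (lt1 hm) (W _ hm)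
  · intro i hi hcap a ha r1
    have hm : touchS s i a ∈ s :: (clsA1 s ++ (clsA2 s ++ (clsA3 s ++ (clsA4 s ++ clsA5 s)))) := by
      simp only [List.mem_cons, List.mem_append]
      exact Or.inr (Or.inr (Or.inl (M2 i hi hcap a ha r1)))
    exact (toPt_touch ha).W (lt1 hm) (W _ hm)
  · intro i hi hs a ha r1
    have hm : cutS (expS s i) s.n a ∈ s :: (clsA1 s ++ (clsA2 s ++ (clsA3 s ++ (clsA4 s ++ clsA5 s)))) := by
      simp only [List.mem_cons, List.mem_append]
      exact Or.inr (Or.inr (Or.inr (Or.inl (M3 i hi hs a ha r1))))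
    exact (E3 i hi hs a ha).W (lt1 hm) (W _ hm)
  · intro i hi hs a ha
    have hm : touchS (dropS (expS s i) s.n) s.n a ∈ s :: (clsA1 s ++ (clsA2 s ++ (clsA3 s ++ (clsA4 s ++ clsA5 s)))) := by
      simp only [List.mem_cons, List.mem_append]
      exact Or.inr (Or.inr (Or.inr (Or.inr (Or.inl (M4 i hi hs a ha)))))
    exact (E4 i hi hs a ha).W (lt1 hm) (W _ hm)
  · intro i hi hs
    have hm : dropS (expS s i) s.n ∈ s :: (clsA1 s ++ (clsA2 s ++ (clsA3 s ++ (clsA4 s ++ clsA5 s)))) := by
      simp only [List.mem_cons, List.mem_append]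
      exact Or.inr (Or.inr (Or.inr (Or.inr (Or.inr (M5 i hi hs)))))
    exact (E5 i hi hs).W (lt1 hm) (W _ hm)

end Pool.Agent.GCI
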