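import Pool.Agent.Lib_helper55.GCI.Emb
/-!
# Packed states (kernel-fast), operations on them, and their meaning as patterns
-/
set_option autoImplicit false

namespace Pool.Agent.GCI

/-- Packed pattern. Node `j` uses 16 bits of `C` (bits 0-4 `R`, 5-9 `F`, 10-13 slots, 14: has a parent edge)
and 8 bits of `P` (its parent). -/
structure St where
  n : ℕ
  P : ℕ
  C : ℕ

def St.e (s : St) (j : ℕ) : Bool := s.C.testBit (16 * j + 14)
def St.pr (s : St) (j : ℕ) : ℕ := (s.P >>> (8 * j)) % 256
def slotsAt (C j : ℕ) : ℕ :=
  (C.testBit (16 * j + 10)).toNat + (C.testBit (16 * j + 11)).toNat +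
    (C.testBit (16 * j + 12)).toNat + (C.testBit (16 * j + 13)).toNat

/-- the pattern described by a packed state -/
def toPt (s : St) : Pt where
  n := s.n
  par j := if s.e j then s.pr j else j
  R j a := s.C.testBit (16 * j + a)
  F j a := s.C.testBit (16 * j + 5 + a)
  m j := slotsAt s.C j

/-- equality of patterns as far as relevant for 5 colours -/
structure EqK (P Q : Pt) : Prop where
  n : P.n = Q.n
  par : ∀ j < P.n, P.par j = Q.par j
  R : ∀ j < P.n, ∀ a < 5, P.R j a = Q.R j a
  F : ∀ j < P.n, ∀ a < 5, P.F j a = Q.F j a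
  m : ∀ j < P.n, P.m j = Q.m j

theorem EqK.symm {P Q : Pt} (h : EqK P Q) : EqK Q P where
  n := h.n.symm
  par j hj := (h.par j (h.n ▸ hj)).symm
  R j hj a ha := (h.R j (h.n ▸ hj) a ha).symm
  F j hj a ha := (h.F j (h.n ▸ hj) a ha).symm
  m j hj := (h.m j (h.n ▸ hj)).symm

theorem EqK.trans {P Q S : Pt} (h : EqK P Q) (h' : EqK Q S) : EqK P S where
  n := h.n.trans h'.n
  par j hj := (h.par j hj).trans (h'.par j (h.n ▸ hj))
  R j hj a ha := (h.R j hj a ha).trans (h'.R j (h.n ▸ hj) a ha)
  F j hj a ha := (h.F j hj a ha).trans (h'.F j (h.n ▸ hj) a ha)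
  m j hj := (h.m j hj).trans (h'.m j (h.n ▸ hj))

/-- all parents are nodes -/
def ParLt (P : Pt) : Prop := ∀ j < P.n, P.par j < P.n

theorem EqK.emb {P Q : Pt} (h : EqK P Q) (hp : ParLt P) : Emb 5 P Q id (Equiv.refl _) where
  lt i hi := h.n ▸ hi
  inj i _ j _ hij := hij
  edge i hi _ := ⟨hp i hi, Or.inl (h.par i hi).symm⟩
  R i hi a ha := by rw [Equiv.refl_apply, id, ← h.R i hi a a.2]; exact ha
  F i hi a ha := by rw [Equiv.refl_apply, id, ← h.F i hi a a.2]; exact ha
  m i hi := le_of_eq (h.m i hi)

theorem EqK.W {P Q : Pt} (h : EqK P Q) (hp : ParLt P) (w : WClaim 5 P) : WClaim 5 Q := emb_W' (h.emb hp) w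
theorem EqK.A {P Q : Pt} (h : EqK P Q) (hp : ParLt P) (w : AClaim 5 P) : AClaim 5 Q := emb_A' (h.emb hp) w

theorem EqK.cut {P Q : Pt} (h : EqK P Q) {i : ℕ} (hi : i < P.n) (a : ℕ) : EqK (cut P i a) (cut Q i a) where
  n := h.n
  par j hj := by
    show (if j = i then i else P.par j) = (if j = i then i else Q.par j)
    rw [h.par j hj]
  R j hj b hb := by
    show (P.R j b || ((j == i || j == P.par i) && b == a)) = (Q.R j b || ((j == i || j == Q.par i) && b == a))
    rw [h.R j hj b hb, h.par i hi]
  F j hj b hb := by
    show (P.F j b && !((j == i || j == P.par i) && b == a)) = (Q.F j b && !((j == i || j == Q.par i) && b == a))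
    rw [h.F j hj b hb, h.par i hi]
  m j hj := h.m j hj

theorem EqK.touch {P Q : Pt} (h : EqK P Q) (i a : ℕ) : EqK (touch P i a) (touch Q i a) where
  n := h.n
  par j hj := h.par j hj
  R j hj b hb := by
    show (P.R j b || (j == i && b == a)) = (Q.R j b || (j == i && b == a))
    rw [h.R j hj b hb]
  F j hj b hb := by
    show (P.F j b && !(j == i && b == a)) = (Q.F j b && !(j == i && b == a))
    rw [h.F j hj b hb]
  m j hj := h.m j hj

theorem EqK.drop1 {P Q : Pt} (h : EqK P Q) {i : ℕ} (hi : i < P.n) : EqK (drop1 P i) (drop1 Q i) where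
  n := h.n
  par j hj := h.par j hj
  R j hj b hb := h.R j hj b hb
  F j hj b hb := h.F j hj b hb
  m j hj := by
    show (if j = i then P.m i - 1 else P.m j) = (if j = i then Q.m i - 1 else Q.m j)
    rw [h.m j hj, h.m i hi]

theorem EqK.expand {P Q : Pt} (h : EqK P Q) {i : ℕ} (hi : i < P.n) : EqK (expand P i) (expand Q i) where
  n := by show P.n + 1 = Q.n + 1; rw [h.n]
  par j hj := by
    show (if j = P.n then i else P.par j) = (if j = Q.n then i else Q.par j)
    rw [h.n]
    split_ifs with hj'
    · rfl
    · exact h.par j (by have : j < P.n + 1 := hj; have := h.n; omega)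
  R j hj b hb := by
    show (if j = P.n then false else P.R j b) = (if j = Q.n then false else Q.R j b)
    rw [h.n]
    split_ifs with hj'
    · rfl
    · exact h.R j (by have : j < P.n + 1 := hj; have := h.n; omega) b hb
  F j hj b hb := by
    show (if j = P.n then true else P.F j b) = (if j = Q.n then true else Q.F j b)
    rw [h.n]
    split_ifs with hj'
    · rfl
    · exact h.F j (by have : j < P.n + 1 := hj; have := h.n; omega) b hb
  m j hj := by
    show (if j = P.n then 3 else if j = i then P.m i - 1 else P.m j) =
      (if j = Q.n then 3 else if j = i then Q.m i - 1 else Q.m j)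
    rw [← h.n, ← h.m i hi]
    split_ifs with hj' hj''
    · rfl
    · rfl
    · exact h.m j (by have : j < P.n + 1 := hj; omega)

/-! ## bit operations -/

def tbit (c x : ℕ) : Bool := Nat.beq ((c >>> x) % 2) 1

theorem tbit_eq (c x : ℕ) : tbit c x = c.testBit x := by
  unfold tbit
  rw [Nat.testBit_eq_decide_div_mod_eq, Nat.shiftRight_eq_div_pow]
  rw [Bool.eq_iff_iff]
  simp

def clr (c x : ℕ) : ℕ := c ^^^ (c &&& (1 <<< x))
def set1 (c x : ℕ) : ℕ := c ||| (1 <<< x)

theorem testBit_one_shl (x y : ℕ) : (1 <<< x).testBit y = decide (y = x) := by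
  rw [Nat.shiftLeft_eq, one_mul, Nat.testBit_two_pow]
  exact decide_eq_decide.2 ⟨fun h => h.symm, fun h => h.symm⟩

theorem testBit_clr (c x y : ℕ) : (clr c x).testBit y = (c.testBit y && !decide (y = x)) := by
  unfold clr
  rw [Nat.testBit_xor, Nat.testBit_and, testBit_one_shl]
  cases c.testBit y <;> simp

theorem testBit_set1 (c x y : ℕ) : (set1 c x).testBit y = (c.testBit y || decide (y = x)) := by
  unfold set1
  rw [Nat.testBit_or, testBit_one_shl]

theorem testBit_join (c v p x : ℕ) :
    (c % 2 ^ p + v <<< p).testBit x = if x < p then c.testBit x else v.testBit (x - p) := by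
  rw [Nat.shiftLeft_eq, add_comm, mul_comm, Nat.testBit_two_pow_mul_add _ (Nat.mod_lt _ (by positivity)),
    Nat.testBit_mod_two_pow]
  split_ifs with h <;> simp [h]

/-! ## operations -/

/-- position of the highest slot bit of node `i` -/
def topPos (C i : ℕ) : ℕ :=
  bif tbit C (16 * i + 13) then 16 * i + 13 else
  bif tbit C (16 * i + 12) then 16 * i + 12 else
  bif tbit C (16 * i + 11) then 16 * i + 11 else 16 * i + 10

def dropS (s : St) (i : ℕ) : St := ⟨s.n, s.P, clr s.C (topPos s.C i)⟩

def expS (s : St) (i : ℕ) : St :=
  ⟨s.n + 1, s.P % 2 ^ (8 * s.n) + i <<< (8 * s.n),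
    (clr s.C (topPos s.C i)) % 2 ^ (16 * s.n) + 24544 <<< (16 * s.n)⟩

def cutS (s : St) (i a : ℕ) : St :=
  ⟨s.n, s.P, clr (clr (clr (set1 (set1 s.C (16 * i + a)) (16 * s.pr i + a)) (16 * i + 5 + a))
    (16 * s.pr i + 5 + a)) (16 * i + 14)⟩

def touchS (s : St) (i a : ℕ) : St := ⟨s.n, s.P, clr (set1 s.C (16 * i + a)) (16 * i + 5 + a)⟩

def hasSlot (s : St) (i : ℕ) : Bool := !(Nat.beq ((s.C >>> (16 * i + 10)) % 16) 0)

theorem topPos_cases (C i : ℕ) : topPos C i = 16 * i + 13 ∨ topPos C i = 16 * i + 12 ∨
    topPos C i = 16 * i + 11 ∨ topPos C i = 16 * i + 10 := by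
  unfold topPos
  cases tbit C (16 * i + 13) <;> cases tbit C (16 * i + 12) <;> cases tbit C (16 * i + 11) <;> simp

theorem hasSlot_pos {s : St} {i : ℕ} (h : hasSlot s i = true) : 0 < slotsAt s.C i := by
  by_contra hc
  have h0 : slotsAt s.C i = 0 := by omega
  unfold slotsAt at h0
  have e1 : s.C.testBit (16 * i + 10) = false := by
    cases hh : s.C.testBit (16 * i + 10) <;> simp_all
  have e2 : s.C.testBit (16 * i + 11) = false := by
    cases hh : s.C.testBit (16 * i + 11) <;> simp_all
  have e3 : s.C.testBit (16 * i + 12) = false := by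
    cases hh : s.C.testBit (16 * i + 12) <;> simp_all
  have e4 : s.C.testBit (16 * i + 13) = false := by
    cases hh : s.C.testBit (16 * i + 13) <;> simp_all
  have : (s.C >>> (16 * i + 10)) % 16 = 0 := by
    apply Nat.eq_of_testBit_eq
    intro x
    rw [show (16 : ℕ) = 2 ^ 4 from rfl, Nat.testBit_mod_two_pow, Nat.testBit_shiftRight]
    rcases x with _ | _ | _ | _ | x
    · simp [e1]
    · simp [e2]
    · simp [e3]
    · simp [e4]
    · simp
  unfold hasSlot at h
  rw [this] at h
  simp at h

theorem slotsAt_clr_top {C i : ℕ} (h : 0 < slotsAt C i) : slotsAt (clr C (topPos C i)) i = slotsAt C i - 1 := by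
  unfold slotsAt at h ⊢
  simp only [testBit_clr]
  unfold topPos
  simp only [tbit_eq]
  cases h3 : C.testBit (16 * i + 13) <;> cases h2 : C.testBit (16 * i + 12) <;>
    cases h1 : C.testBit (16 * i + 11) <;> cases h0 : C.testBit (16 * i + 10) <;> simp_all

theorem slotsAt_clr_ne {C i j x : ℕ} (hx : x = 16 * i + 13 ∨ x = 16 * i + 12 ∨ x = 16 * i + 11 ∨ x = 16 * i + 10)
    (hij : j ≠ i) : slotsAt (clr C x) j = slotsAt C j := by
  unfold slotsAt
  simp only [testBit_clr]
  have h0 : decide (16 * j + 10 = x) = false := by simp; omega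
  have h1 : decide (16 * j + 11 = x) = false := by simp; omega
  have h2 : decide (16 * j + 12 = x) = false := by simp; omega
  have h3 : decide (16 * j + 13 = x) = false := by simp; omega
  rw [h0, h1, h2, h3]
  simp

theorem toPt_drop {s : St} {i : ℕ} (h : 0 < slotsAt s.C i) : EqK (toPt (dropS s i)) (drop1 (toPt s) i) where
  n := rfl
  par j hj := by
    show (if (dropS s i).e j then (dropS s i).pr j else j) = (if s.e j then s.pr j else j)
    have : (dropS s i).e j = s.e j := by
      unfold St.e dropS
      simp only [testBit_clr]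
      have : decide (16 * j + 14 = topPos s.C i) = false := by
        have := topPos_cases s.C i
        simp; omega
      rw [this]; simp
    rw [this]; rfl
  R j hj a ha := by
    show (clr s.C (topPos s.C i)).testBit (16 * j + a) = s.C.testBit (16 * j + a)
    rw [testBit_clr]
    have : decide (16 * j + a = topPos s.C i) = false := by
      have := topPos_cases s.C i
      simp; omega
    rw [this]; simp
  F j hj a ha := by
    show (clr s.C (topPos s.C i)).testBit (16 * j + 5 + a) = s.C.testBit (16 * j + 5 + a)
    rw [testBit_clr]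
    have : decide (16 * j + 5 + a = topPos s.C i) = false := by
      have := topPos_cases s.C i
      simp; omega
    rw [this]; simp
  m j hj := by
    show slotsAt (clr s.C (topPos s.C i)) j = if j = i then slotsAt s.C i - 1 else slotsAt s.C j
    split_ifs with hji
    · subst hji; exact slotsAt_clr_top h
    · exact slotsAt_clr_ne (topPos_cases s.C i) hji

theorem toPt_touch {s : St} {i a : ℕ} (ha : a < 5) : EqK (toPt (touchS s i a)) (touch (toPt s) i a) where
  n := rfl
  par j hj := by
    show (if (touchS s i a).e j then (touchS s i a).pr j else j) = (if s.e j then s.pr j else j)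
    have : (touchS s i a).e j = s.e j := by
      unfold St.e touchS
      simp only [testBit_clr, testBit_set1]
      have h1 : decide (16 * j + 14 = 16 * i + a) = false := by simp; omega
      have h2 : decide (16 * j + 14 = 16 * i + 5 + a) = false := by simp; omega
      rw [h1, h2]; simp
    rw [this]; rfl
  R j hj b hb := by
    show (clr (set1 s.C (16 * i + a)) (16 * i + 5 + a)).testBit (16 * j + b) =
      (s.C.testBit (16 * j + b) || (j == i && b == a))
    rw [testBit_clr, testBit_set1]
    have h2 : decide (16 * j + b = 16 * i + 5 + a) = false := by simp; omega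
    have h1 : decide (16 * j + b = 16 * i + a) = (j == i && b == a) := by
      rw [Bool.eq_iff_iff]; simp; omega
    rw [h1, h2]; simp
  F j hj b hb := by
    show (clr (set1 s.C (16 * i + a)) (16 * i + 5 + a)).testBit (16 * j + 5 + b) =
      (s.C.testBit (16 * j + 5 + b) && !(j == i && b == a))
    rw [testBit_clr, testBit_set1]
    have h2 : decide (16 * j + 5 + b = 16 * i + a) = false := by simp; omega
    have h1 : decide (16 * j + 5 + b = 16 * i + 5 + a) = (j == i && b == a) := by
      rw [Bool.eq_iff_iff]; simp; omega
    rw [h1, h2]; simp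
  m j hj := by
    show slotsAt (clr (set1 s.C (16 * i + a)) (16 * i + 5 + a)) j = slotsAt s.C j
    unfold slotsAt
    simp only [testBit_clr, testBit_set1]
    have h0 : ∀ t, 10 ≤ t → t ≤ 13 → decide (16 * j + t = 16 * i + a) = false := by
      intro t h1 h2; simp; omega
    have h1 : ∀ t, 10 ≤ t → t ≤ 13 → decide (16 * j + t = 16 * i + 5 + a) = false := by
      intro t h1 h2; simp; omega
    rw [h0 10, h0 11, h0 12, h0 13, h1 10, h1 11, h1 12, h1 13] <;> simp

theorem toPt_cut {s : St} {i a : ℕ} (ha : a < 5) (hi : i < s.n) (he : s.e i = true) :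
    EqK (toPt (cutS s i a)) (cut (toPt s) i a) := by
  have hpar : (toPt s).par i = s.pr i := by
    show (if s.e i then s.pr i else i) = s.pr i
    rw [he]; simp
  have key : ∀ x, (cutS s i a).C.testBit x = (((((s.C.testBit x || decide (x = 16 * i + a)) ||
      decide (x = 16 * s.pr i + a)) && !decide (x = 16 * i + 5 + a)) && !decide (x = 16 * s.pr i + 5 + a)) &&
      !decide (x = 16 * i + 14)) := by
    intro x
    show (clr (clr (clr (set1 (set1 s.C (16 * i + a)) (16 * s.pr i + a)) (16 * i + 5 + a))
      (16 * s.pr i + 5 + a)) (16 * i + 14)).testBit x = _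
    simp only [testBit_clr, testBit_set1]
  generalize hp : s.pr i = p at *
  constructor
  · rfl
  · intro j hj
    show (if (cutS s i a).e j then (cutS s i a).pr j else j) = (if j = i then i else (if s.e j then s.pr j else j))
    have h1 : (cutS s i a).e j = (s.e j && !decide (j = i)) := by
      unfold St.e
      rw [key]
      have h1 : decide (16 * j + 14 = 16 * i + a) = false := by simp; omega
      have h2 : decide (16 * j + 14 = 16 * p + a) = false := by simp; omega
      have h3 : decide (16 * j + 14 = 16 * i + 5 + a) = false := by simp; omega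
      have h4 : decide (16 * j + 14 = 16 * p + 5 + a) = false := by simp; omega
      have h5 : decide (16 * j + 14 = 16 * i + 14) = decide (j = i) := by
        rw [decide_eq_decide]; omega
      rw [h1, h2, h3, h4, h5]; simp
    rw [h1]
    by_cases hji : j = i
    · simp [hji]
    · simp only [hji, decide_false, Bool.not_false, Bool.and_true, if_false]
      rfl
  · intro j hj b hb
    show (cutS s i a).C.testBit (16 * j + b) = (s.C.testBit (16 * j + b) || ((j == i || j == (toPt s).par i) && b == a))
    rw [key, hpar]
    have h3 : decide (16 * j + b = 16 * i + 5 + a) = false := by simp; omega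
    have h4 : decide (16 * j + b = 16 * p + 5 + a) = false := by simp; omega
    have h5 : decide (16 * j + b = 16 * i + 14) = false := by simp; omega
    have h1 : decide (16 * j + b = 16 * i + a) = (j == i && b == a) := by
      rw [Bool.eq_iff_iff]; simp; omega
    have h2 : decide (16 * j + b = 16 * p + a) = (j == p && b == a) := by
      rw [Bool.eq_iff_iff]; simp; omega
    rw [h1, h2, h3, h4, h5]
    cases s.C.testBit (16 * j + b) <;> cases (j == i) <;> cases (j == p) <;> cases (b == a) <;> rfl
  · intro j hj b hb
    show (cutS s i a).C.testBit (16 * j + 5 + b) =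
      (s.C.testBit (16 * j + 5 + b) && !((j == i || j == (toPt s).par i) && b == a))
    rw [key, hpar]
    have h3 : decide (16 * j + 5 + b = 16 * i + a) = false := by simp; omega
    have h4 : decide (16 * j + 5 + b = 16 * p + a) = false := by simp; omega
    have h5 : decide (16 * j + 5 + b = 16 * i + 14) = false := by simp; omega
    have h1 : decide (16 * j + 5 + b = 16 * i + 5 + a) = (j == i && b == a) := by
      rw [Bool.eq_iff_iff]; simp; omega
    have h2 : decide (16 * j + 5 + b = 16 * p + 5 + a) = (j == p && b == a) := by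
      rw [Bool.eq_iff_iff]; simp; omega
    rw [h1, h2, h3, h4, h5]
    cases s.C.testBit (16 * j + 5 + b) <;> cases (j == i) <;> cases (j == p) <;> cases (b == a) <;> rfl
  · intro j hj
    show slotsAt (cutS s i a).C j = slotsAt s.C j
    have : ∀ t, 10 ≤ t → t ≤ 13 → (cutS s i a).C.testBit (16 * j + t) = s.C.testBit (16 * j + t) := by
      intro t ht1 ht2
      rw [key]
      have h1 : decide (16 * j + t = 16 * i + a) = false := by simp; omega
      have h2 : decide (16 * j + t = 16 * p + a) = false := by simp; omega
      have h3 : decide (16 * j + t = 16 * i + 5 + a) = false := by simp; omega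
      have h4 : decide (16 * j + t = 16 * p + 5 + a) = false := by simp; omega
      have h5 : decide (16 * j + t = 16 * i + 14) = false := by simp; omega
      rw [h1, h2, h3, h4, h5]; simp
    unfold slotsAt
    rw [this 10 (by omega) (by omega), this 11 (by omega) (by omega), this 12 (by omega) (by omega),
      this 13 (by omega) (by omega)]

theorem toPt_exp {s : St} {i : ℕ} (hi : i < s.n) (hn : s.n < 200) (h : 0 < slotsAt s.C i) :
    EqK (toPt (expS s i)) (expand (toPt s) i) := by
  have keyC : ∀ x, (expS s i).C.testBit x = if x < 16 * s.n then (clr s.C (topPos s.C i)).testBit x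
      else (24544 : ℕ).testBit (x - 16 * s.n) := fun x => testBit_join _ _ _ _
  have keyP : ∀ x, (expS s i).P.testBit x = if x < 8 * s.n then s.P.testBit x
      else i.testBit (x - 8 * s.n) := fun x => testBit_join _ _ _ _
  have hpr : ∀ j < s.n, (expS s i).pr j = s.pr j := by
    intro j hj
    unfold St.pr
    apply Nat.eq_of_testBit_eq
    intro x
    rw [show (256 : ℕ) = 2 ^ 8 from rfl, Nat.testBit_mod_two_pow, Nat.testBit_mod_two_pow, Nat.testBit_shiftRight,
      Nat.testBit_shiftRight, keyP]
    by_cases hx : x < 8
    · rw [if_pos (by omega)]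
    · simp [hx]
  have hprn : (expS s i).pr s.n = i := by
    unfold St.pr
    apply Nat.eq_of_testBit_eq
    intro x
    rw [show (256 : ℕ) = 2 ^ 8 from rfl, Nat.testBit_mod_two_pow, Nat.testBit_shiftRight, keyP, if_neg (by omega),
      show 8 * s.n + x - 8 * s.n = x by omega]
    by_cases hx : x < 8
    · simp [hx]
    · simp only [hx, decide_false, Bool.false_and]
      symm
      apply Nat.testBit_eq_false_of_lt
      calc i < 2 ^ 8 := by omega
        _ ≤ 2 ^ x := Nat.pow_le_pow_right (by norm_num) (by omega)
  constructor
  · rfl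
  · intro j hj
    have hj' : j < s.n + 1 := hj
    show (if (expS s i).e j then (expS s i).pr j else j) = (if j = s.n then i else (if s.e j then s.pr j else j))
    by_cases hjn : j = s.n
    · subst hjn
      have : (expS s i).e s.n = true := by
        unfold St.e
        rw [keyC, if_neg (by omega), show 16 * s.n + 14 - 16 * s.n = 14 by omega]
        decide
      rw [this, hprn]; simp
    · have hjl : j < s.n := by omega
      have : (expS s i).e j = s.e j := by
        unfold St.e
        rw [keyC, if_pos (by omega), testBit_clr]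
        have : decide (16 * j + 14 = topPos s.C i) = false := by
          have := topPos_cases s.C i
          simp; omega
        rw [this]; simp
      rw [this, hpr j hjl, if_neg hjn]
  · intro j hj b hb
    have hj' : j < s.n + 1 := hj
    show (expS s i).C.testBit (16 * j + b) = (if j = s.n then false else s.C.testBit (16 * j + b))
    rw [keyC]
    by_cases hjn : j = s.n
    · subst hjn
      rw [if_neg (by omega), if_pos rfl, show 16 * s.n + b - 16 * s.n = b by omega]
      interval_cases b <;> decide
    · rw [if_pos (by omega), if_neg hjn, testBit_clr]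
      have : decide (16 * j + b = topPos s.C i) = false := by
        have := topPos_cases s.C i
        simp; omega
      rw [this]; simp
  · intro j hj b hb
    have hj' : j < s.n + 1 := hj
    show (expS s i).C.testBit (16 * j + 5 + b) = (if j = s.n then true else s.C.testBit (16 * j + 5 + b))
    rw [keyC]
    by_cases hjn : j = s.n
    · subst hjn
      rw [if_neg (by omega), if_pos rfl, show 16 * s.n + 5 + b - 16 * s.n = 5 + b by omega]
      interval_cases b <;> decide
    · rw [if_pos (by omega), if_neg hjn, testBit_clr]
      have : decide (16 * j + 5 + b = topPos s.C i) = false := by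
        have := topPos_cases s.C i
        simp; omega
      rw [this]; simp
  · intro j hj
    have hj' : j < s.n + 1 := hj
    show slotsAt (expS s i).C j = if j = s.n then 3 else if j = i then slotsAt s.C i - 1 else slotsAt s.C j
    by_cases hjn : j = s.n
    · subst hjn
      rw [if_pos rfl]
      unfold slotsAt
      rw [keyC, keyC, keyC, keyC, if_neg (by omega), if_neg (by omega), if_neg (by omega), if_neg (by omega),
        show 16 * s.n + 10 - 16 * s.n = 10 by omega, show 16 * s.n + 11 - 16 * s.n = 11 by omega,
        show 16 * s.n + 12 - 16 * s.n = 12 by omega, show 16 * s.n + 13 - 16 * s.n = 13 by omega]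
      decide
    · rw [if_neg hjn]
      have hC : slotsAt (expS s i).C j = slotsAt (clr s.C (topPos s.C i)) j := by
        unfold slotsAt
        rw [keyC, keyC, keyC, keyC, if_pos (by omega), if_pos (by omega), if_pos (by omega), if_pos (by omega)]
      rw [hC]
      split_ifs with hji
      · subst hji; exact slotsAt_clr_top h
      · exact slotsAt_clr_ne (topPos_cases s.C i) hji

end Pool.Agent.GCI
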