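import Mathlib

/-!
Finite ball of the 4-regular tree, realised as reduced words over `Fin 4`
(head of the list = last letter of the word).
-/

set_option autoImplicit false

namespace Pool.Agent.Lib_helper61.Gci

open SimpleGraph

/-- A graph given by a parent function with decreasing height is a tree. -/
theorem isTree_of_parent {V : Type*} [Finite V] (G : SimpleGraph V) (root : V)
    (par : V → V) (ht : V → ℕ)
    (hht : ∀ v, v ≠ root → ht (par v) < ht v)
    (hadj : ∀ u v, G.Adj u v ↔ (u ≠ root ∧ par u = v) ∨ (v ≠ root ∧ par v = u)) :
    G.IsTree := by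
  classical
  have := Fintype.ofFinite V
  rw [isTree_iff_connected_and_card]
  constructor
  · -- connected
    have key : ∀ n : ℕ, ∀ v, ht v ≤ n → G.Reachable v root := by
      intro n
      induction n with
      | zero =>
        intro v hv
        by_cases h : v = root
        · rw [h]
        · have := hht v h; omega
      | succ n ih =>
        intro v hv
        by_cases h : v = root
        · rw [h]
        · have h1 := hht v h
          have h2 : G.Adj v (par v) := (hadj v (par v)).2 (Or.inl ⟨h, rfl⟩)
          exact h2.reachable.trans (ih (par v) (by omega))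
    have : Nonempty V := ⟨root⟩
    exact ⟨fun u v => (key _ u le_rfl).trans (key _ v le_rfl).symm⟩
  · -- edges
    have e : {v : V // v ≠ root} ≃ G.edgeSet := by
      refine Equiv.ofBijective (fun v => ⟨s(v.1, par v.1), ?_⟩) ⟨?_, ?_⟩
      · rw [mem_edgeSet]
        exact (hadj _ _).2 (Or.inl ⟨v.2, rfl⟩)
      · rintro ⟨u, hu⟩ ⟨v, hv⟩ h
        simp only [Subtype.mk.injEq, Sym2.eq_iff] at h
        rcases h with ⟨h1, _⟩ | ⟨h1, h2⟩
        · exact Subtype.ext h1
        · exfalso
          have a1 := hht u hu
          have a2 := hht v hv
          rw [h2] at a1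
          rw [← h1] at a2
          omega
      · rintro ⟨e, he⟩
        induction e using Sym2.ind with
        | _ a b =>
          rw [mem_edgeSet] at he
          rcases (hadj _ _).1 he with ⟨h1, h2⟩ | ⟨h1, h2⟩
          · exact ⟨⟨a, h1⟩, by simp [h2]⟩
          · exact ⟨⟨b, h1⟩, by simp [h2, Sym2.eq_swap]⟩
    rw [← Nat.card_congr e]
    have h1 : Fintype.card {v : V // ¬ (v = root)} = Fintype.card V - Fintype.card {v // v = root} :=
      Fintype.card_subtype_compl _
    rw [Nat.card_eq_fintype_card, Nat.card_eq_fintype_card]
    change Fintype.card {v : V // ¬ (v = root)} + 1 = _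
    rw [h1, Fintype.card_subtype_eq]
    have : 0 < Fintype.card V := Fintype.card_pos_iff.2 ⟨root⟩
    omega

/-- Reduced words over four letters (the head is the last letter). -/
@[ext] structure Word where
  /-- the letters, last letter first -/
  l : List (Fin 4)
  red : l.IsChain (· ≠ ·)
deriving DecidableEq

namespace Word

/-- length -/
def len (w : Word) : ℕ := w.l.length

/-- empty word -/
def one : Word := ⟨[], List.isChain_nil⟩

@[simp] theorem len_one : one.len = 0 := rfl

theorem len_eq_zero {w : Word} : w.len = 0 ↔ w = one := by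
  constructor
  · intro h
    exact Word.ext (List.length_eq_zero_iff.1 h)
  · rintro rfl; rfl

/-- The neighbour of `w` along the letter `i`. -/
def nb (w : Word) (i : Fin 4) : Word where
  l := if w.l.head? = some i then w.l.tail else i :: w.l
  red := by
    split_ifs with h
    · exact w.red.tail
    · refine List.isChain_cons.2 ⟨?_, w.red⟩
      intro y hy hxy
      exact h (by rw [hxy]; exact hy)

theorem nb_l (w : Word) (i : Fin 4) :
    (w.nb i).l = if w.l.head? = some i then w.l.tail else i :: w.l := rfl

theorem nb_nb (w : Word) (i : Fin 4) : (w.nb i).nb i = w := by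
  apply Word.ext
  rw [nb_l, nb_l]
  obtain ⟨l, hl⟩ := w
  cases l with
  | nil => simp
  | cons a l =>
    by_cases h : a = i
    · subst h
      cases l with
      | nil => simp
      | cons b l =>
        have : a ≠ b := by
          rw [List.isChain_cons_cons] at hl
          exact hl.1
        simp [Ne.symm this]
    · simp [h]

theorem nb_inj {w : Word} {i j : Fin 4} (h : w.nb i = w.nb j) : i = j := by
  have h1 := congrArg Word.l h
  rw [nb_l, nb_l] at h1
  obtain ⟨l, hl⟩ := w
  cases l with
  | nil => simpa using h1
  | cons a l =>
    simp only [List.head?_cons, Option.some.injEq, List.tail_cons] at h1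
    split_ifs at h1 with h2 h3 h3
    · rw [← h2, ← h3]
    · exfalso
      have := congrArg List.length h1
      simp only [List.length_cons] at this
      omega
    · exfalso
      have := congrArg List.length h1
      simp only [List.length_cons] at this
      omega
    · simpa using h1

theorem nb_ne (w : Word) (i : Fin 4) : w.nb i ≠ w := by
  intro h
  have h1 := congrArg (fun x => x.l.length) h
  simp only [nb_l] at h1
  obtain ⟨l, hl⟩ := w
  cases l with
  | nil => simp at h1
  | cons a l =>
    simp only [List.head?_cons, Option.some.injEq, List.tail_cons] at h1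
    split_ifs at h1 <;> simp at h1

theorem len_nb_le (w : Word) (i : Fin 4) : (w.nb i).len ≤ w.len + 1 := by
  unfold len
  rw [nb_l]
  split_ifs
  · rw [List.length_tail]; omega
  · simp

theorem len_le_nb (w : Word) (i : Fin 4) : w.len ≤ (w.nb i).len + 1 := by
  have := len_nb_le (w.nb i) i
  rw [nb_nb] at this
  exact this

/-- parent -/
def par (w : Word) : Word := ⟨w.l.tail, w.red.tail⟩

theorem par_l (w : Word) : w.par.l = w.l.tail := rfl

theorem len_par {w : Word} (h : w ≠ one) : w.par.len + 1 = w.len := by
  unfold len
  rw [par_l]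
  have : w.l ≠ [] := fun h' => h (Word.ext h')
  have h2 := List.length_pos_of_ne_nil this
  rw [List.length_tail]
  omega

theorem adj_iff_par (u v : Word) :
    (∃ i, u.nb i = v) ↔ (u ≠ one ∧ u.par = v) ∨ (v ≠ one ∧ v.par = u) := by
  constructor
  · rintro ⟨i, rfl⟩
    by_cases h : u.l.head? = some i
    · left
      constructor
      · rintro rfl
        simp [one] at h
      · apply Word.ext
        rw [nb_l, if_pos h, par_l]
    · right
      constructor
      · intro h2
        have := congrArg Word.l h2
        rw [nb_l, if_neg h] at this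
        simp [one] at this
      · apply Word.ext
        rw [par_l, nb_l, if_neg h, List.tail_cons]
  · rintro (⟨h1, rfl⟩ | ⟨h1, rfl⟩)
    · obtain ⟨l, hl⟩ := u
      cases l with
      | nil => exact absurd rfl h1
      | cons a l =>
        refine ⟨a, Word.ext ?_⟩
        rw [nb_l, par_l]; simp
    · obtain ⟨l, hl⟩ := v
      cases l with
      | nil => exact absurd rfl h1
      | cons a l =>
        refine ⟨a, Word.ext ?_⟩
        rw [nb_l, par_l, List.tail_cons, if_neg]
        intro h2
        cases l with
        | nil => simp at h2
        | cons b l =>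
          rw [List.isChain_cons_cons] at hl
          simp only [List.head?_cons, Option.some.injEq] at h2
          exact hl.1 h2.symm

end Word

/-- The ball of radius `R`. -/
abbrev Ball (R : ℕ) : Type := {w : Word // w.len ≤ R}



instance (R : ℕ) : Finite (Ball R) := by
  have : Finite {l : List (Fin 4) // l.length ≤ R} :=
    (List.finite_length_le (Fin 4) R).to_subtype
  refine Finite.of_injective
      (fun w : Ball R => (⟨w.1.l, w.2⟩ : {l : List (Fin 4) // l.length ≤ R})) ?_
  intro a b hab
  apply Subtype.ext
  apply Word.ext
  exact congrArg (fun x : {l : List (Fin 4) // l.length ≤ R} => x.1) hab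

noncomputable instance (R : ℕ) : Fintype (Ball R) := Fintype.ofFinite _

/-- centre of the ball -/
def Ball.one (R : ℕ) : Ball R := ⟨Word.one, Nat.zero_le _⟩

/-- The tree: two words are adjacent if they differ by one letter at the end. -/
def tree (R : ℕ) : SimpleGraph (Ball R) where
  Adj u v := ∃ i, u.1.nb i = v.1
  symm := ⟨by
    rintro u v ⟨i, hi⟩
    exact ⟨i, by rw [← hi, Word.nb_nb]⟩⟩
  loopless := ⟨by
    rintro u ⟨i, hi⟩
    exact Word.nb_ne _ _ hi⟩

theorem tree_adj {R : ℕ} (u v : Ball R) : (tree R).Adj u v ↔ ∃ i, u.1.nb i = v.1 := Iff.rfl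

noncomputable instance (R : ℕ) : DecidableRel (tree R).Adj := Classical.decRel _

theorem tree_isTree (R : ℕ) : (tree R).IsTree := by
  have hp : ∀ w : Ball R, w.1.par.len ≤ R := by
    intro w
    by_cases h : w.1 = Word.one
    · rw [h]; simp [Word.par, Word.one, Word.len]
    · have := Word.len_par h
      have := w.2
      omega
  have hne : ∀ v : Ball R, v ≠ Ball.one R ↔ v.1 ≠ Word.one := by
    intro v
    constructor
    · intro h1 h2; exact h1 (Subtype.ext h2)
    · intro h1 h2; exact h1 (by rw [h2]; rfl)
  refine isTree_of_parent (tree R) (Ball.one R) (fun w => ⟨w.1.par, hp w⟩) (fun w => w.1.len) ?_ ?_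
  · intro v hv
    have := Word.len_par ((hne v).1 hv)
    show v.1.par.len < v.1.len
    omega
  · intro u v
    rw [tree_adj, Word.adj_iff_par, hne, hne]
    constructor
    · rintro (⟨h1, h2⟩ | ⟨h1, h2⟩)
      · exact Or.inl ⟨h1, Subtype.ext h2⟩
      · exact Or.inr ⟨h1, Subtype.ext h2⟩
    · rintro (⟨h1, h2⟩ | ⟨h1, h2⟩)
      · exact Or.inl ⟨h1, congrArg Subtype.val h2⟩
      · exact Or.inr ⟨h1, congrArg Subtype.val h2⟩

/-- Degree at most four. -/
theorem degree_le {R : ℕ} (u : Ball R) [Fintype ((tree R).neighborSet u)] :
    (tree R).degree u ≤ 4 := by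
  classical
  rw [← card_neighborSet_eq_degree]
  have : Function.Injective (fun v : (tree R).neighborSet u =>
      Classical.choose (show ∃ i, u.1.nb i = v.1.1 from v.2)) := by
    intro a b hab
    have ha := Classical.choose_spec (show ∃ i, u.1.nb i = a.1.1 from a.2)
    have hb := Classical.choose_spec (show ∃ i, u.1.nb i = b.1.1 from b.2)
    simp only at hab
    rw [hab, hb] at ha
    exact Subtype.ext (Subtype.ext ha.symm)
  exact (Fintype.card_le_of_injective _ this).trans (by simp)

/-- Degree exactly four away from the boundary. -/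
theorem degree_eq {R : ℕ} (u : Ball R) (hu : u.1.len < R) [Fintype ((tree R).neighborSet u)] :
    (tree R).degree u = 4 := by
  classical
  apply le_antisymm (degree_le u)
  rw [← card_neighborSet_eq_degree]
  have hlen : ∀ i, (u.1.nb i).len ≤ R := fun i => by
    have := Word.len_nb_le u.1 i
    omega
  have : Function.Injective (fun i : Fin 4 =>
      (⟨⟨u.1.nb i, hlen i⟩, ⟨i, rfl⟩⟩ : (tree R).neighborSet u)) := by
    intro i j hij
    exact Word.nb_inj (congrArg (fun x : (tree R).neighborSet u => x.1.1) hij)
  exact (by simp : (4 : ℕ) ≤ Fintype.card (Fin 4)).trans (Fintype.card_le_of_injective _ this)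

theorem tree_maxDegree {R : ℕ} (hR : 0 < R) [Fintype (Ball R)] [DecidableRel (tree R).Adj] :
    (tree R).maxDegree = 4 := by
  apply le_antisymm
  · exact maxDegree_le_of_forall_degree_le _ _ (fun v => degree_le v)
  · rw [← degree_eq (Ball.one R) (by simpa [Ball.one] using hR)]
    exact degree_le_maxDegree _ _

end Pool.Agent.Lib_helper61.Gci
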