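import Pool.Agent.Lib_helper55.GCI.Cert18
import Pool.Agent.Lib_helper55.GCI.Final
/-!
# Bob wins with 5 colours: `WClaim 5 FRESH`
-/
set_option autoImplicit false

namespace Pool.Agent.GCI

theorem eqk_fresh : EqK (toPt s1877) FRESH where
  n := rfl
  par j hj := by
    have : j = 0 := by have : j < 1 := hj; omega
    subst this; decide +kernel
  R j hj a ha := by
    have : j = 0 := by have : j < 1 := hj; omega
    subst this
    show (0x3fe0 : ℕ).testBit (16 * 0 + a) = false
    interval_cases a <;> decide +kernel
  F j hj a ha := by
    have : j = 0 := by have : j < 1 := hj; omega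
    subst this
    show (0x3fe0 : ℕ).testBit (16 * 0 + 5 + a) = true
    interval_cases a <;> decide +kernel
  m j hj := by
    have : j = 0 := by have : j < 1 := hj; omega
    subst this; decide +kernel

theorem fresh5 : WClaim 5 FRESH :=
  eqk_fresh.W (treeS_sound w1877.t).parLe.lt w1877.w

end Pool.Agent.GCI
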